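import Pool.Agent.H147R2.CV.Defs

set_option autoImplicit false

namespace Pool.Agent.H147R2.Vec

open Pool.Agent.H721R2 Pool.Agent.H779R2.An Filter Topology MeasureTheory
open scoped BigOperators

variable {p : ℕ}
/-! Algebra of similarities. -/

theorem sim_one : Sim (1 : VV p →L[ℝ] VV p) := by
  intro u
  rcases subsingleton_or_nontrivial (VV p) with h | h
  · have : u = 0 := Subsingleton.elim _ _
    simp [this]
  · rw [norm_one, one_mul]
    rfl

theorem Sim.norm_mul {A B : VV p →L[ℝ] VV p} (hA : Sim A) (hB : Sim B) :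
    ‖A * B‖ = ‖A‖ * ‖B‖ := by
  rcases subsingleton_or_nontrivial (VV p) with h | h
  · have h1 : A * B = 0 := by
      ext1 u
      exact Subsingleton.elim _ _
    have h2 : A = 0 := by
      ext1 u
      exact Subsingleton.elim _ _
    rw [h1, h2, norm_zero, zero_mul]
  · obtain ⟨u, hu⟩ := exists_ne (0 : VV p)
    have hu' : 0 < ‖u‖ := norm_pos_iff.2 hu
    apply le_antisymm (norm_mul_le A B)
    have h1 : ‖(A * B) u‖ = ‖A‖ * ‖B‖ * ‖u‖ := by
      show ‖A (B u)‖ = _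
      rw [hA, hB, mul_assoc]
    have h2 := (A * B).le_opNorm u
    rw [h1] at h2
    exact le_of_mul_le_mul_right h2 hu'

theorem Sim.mul {A B : VV p →L[ℝ] VV p} (hA : Sim A) (hB : Sim B) : Sim (A * B) := by
  intro u
  rw [hA.norm_mul hB]
  show ‖A (B u)‖ = _
  rw [hA, hB, mul_assoc]

theorem norm_adj (A : VV p →L[ℝ] VV p) : ‖adj A‖ = ‖A‖ := by
  unfold adj
  exact LinearIsometryEquiv.norm_map ContinuousLinearMap.adjoint A

theorem inner_adj (A : VV p →L[ℝ] VV p) (u v : VV p) :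
    inner ℝ (adj A u) v = inner ℝ u (A v) := by
  unfold adj
  exact ContinuousLinearMap.adjoint_inner_left A v u

theorem adj_one : adj (1 : VV p →L[ℝ] VV p) = 1 := by
  ext1 u
  refine ext_inner_right ℝ fun v => ?_
  rw [inner_adj]
  rfl

theorem adj_mul (A B : VV p →L[ℝ] VV p) : adj (A * B) = adj B * adj A := by
  ext1 u
  refine ext_inner_right ℝ fun v => ?_
  show inner ℝ (adj (A * B) u) v = inner ℝ (adj B (adj A u)) v
  rw [inner_adj, inner_adj, inner_adj]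
  rfl

theorem adj_adj (A : VV p →L[ℝ] VV p) : adj (adj A) = A := by
  unfold adj
  exact ContinuousLinearMap.adjoint_adjoint A

theorem Sim.inner {A : VV p →L[ℝ] VV p} (hA : Sim A) (u v : VV p) :
    inner ℝ (A u) (A v) = ‖A‖ ^ 2 * inner ℝ u v := by
  have h1 : ∀ x y : VV p, (Inner.inner ℝ x y : ℝ) = (‖x + y‖ ^ 2 - ‖x‖ ^ 2 - ‖y‖ ^ 2) / 2 := by
    intro x y
    rw [norm_add_sq_real]
    ring
  rw [h1, h1 u v, ← map_add, hA, hA, hA]
  ring

theorem Sim.adj_mul_self {A : VV p →L[ℝ] VV p} (hA : Sim A) (u : VV p) :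
    adj A (A u) = ‖A‖ ^ 2 • u := by
  refine ext_inner_right ℝ fun v => ?_
  rw [inner_adj, hA.inner, real_inner_smul_left]

theorem Sim.inj {A : VV p →L[ℝ] VV p} (hA : Sim A) (h0 : 0 < ‖A‖) {u v : VV p}
    (h : A u = A v) : u = v := by
  have h1 : ‖A (u - v)‖ = 0 := by
    rw [map_sub, h, sub_self, norm_zero]
  rw [hA] at h1
  rcases mul_eq_zero.1 h1 with h2 | h2
  · exact absurd h2 h0.ne'
  · exact sub_eq_zero.1 (norm_eq_zero.1 h2)

theorem Sim.surj {A : VV p →L[ℝ] VV p} (hA : Sim A) (h0 : 0 < ‖A‖) (v : VV p) :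
    ∃ u, A u = v ∧ ‖u‖ = ‖v‖ / ‖A‖ := by
  have hinj : Function.Injective (A : VV p →ₗ[ℝ] VV p) := fun u v h => hA.inj h0 h
  obtain ⟨u, hu⟩ := (LinearMap.injective_iff_surjective.1 hinj) v
  have hu' : A u = v := hu
  refine ⟨u, hu', ?_⟩
  rw [← hu', hA]
  field_simp

theorem Sim.mul_adj_self {A : VV p →L[ℝ] VV p} (hA : Sim A) (u : VV p) :
    A (Vec.adj A u) = ‖A‖ ^ 2 • u := by
  rcases (norm_nonneg A).eq_or_lt with h0 | h0
  · have h1 : A = 0 := norm_eq_zero.1 h0.symm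
    rw [h1, norm_zero]
    simp
  · obtain ⟨w, rfl, _⟩ := hA.surj h0 u
    rw [hA.adj_mul_self, map_smul]

theorem Sim.adj {A : VV p →L[ℝ] VV p} (hA : Sim A) : Sim (Vec.adj A) := by
  intro u
  rw [norm_adj]
  have h1 : ‖Vec.adj A u‖ ^ 2 = (‖A‖ * ‖u‖) ^ 2 := by
    rw [← real_inner_self_eq_norm_sq, inner_adj, hA.mul_adj_self, real_inner_smul_right,
      real_inner_self_eq_norm_sq]
    ring
  exact (pow_left_inj₀ (norm_nonneg _) (by positivity) two_ne_zero).1 h1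

theorem norm_one_VV (hp : 1 ≤ p) : ‖(1 : VV p →L[ℝ] VV p)‖ = 1 := by
  have : Nonempty (Fin p) := ⟨⟨0, hp⟩⟩
  have : Nontrivial (VV p) := by
    refine ⟨⟨0, EuclideanSpace.single ⟨0, hp⟩ 1, ?_⟩⟩
    intro h
    have h2 := congrArg norm h
    simp at h2
  exact norm_one

end Pool.Agent.H147R2.Vec
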