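import Pool.Agent.H147R2.CV.Alg1

set_option autoImplicit false

namespace Pool.Agent.H147R2.Vec

open Pool.Agent.H721R2 Pool.Agent.H779R2.An Filter Topology MeasureTheory
open scoped BigOperators

variable {p : ℕ}
/-! Algebra of normalized Moebius maps. -/

theorem dn_zero_left (u : VV p) : dn 0 u = 1 := by simp [dn]

theorem dn_zero_right (θ : VV p) : dn θ 0 = 1 := by simp [dn]

theorem dn_ge (θ u : VV p) : (1 - ‖θ‖ * ‖u‖) ^ 2 ≤ dn θ u := by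
  have h := real_inner_le_norm θ u
  unfold dn
  nlinarith [h]

theorem dn_le (θ u : VV p) : dn θ u ≤ (1 + ‖θ‖ * ‖u‖) ^ 2 := by
  have h := (abs_le.mp (abs_real_inner_le_norm θ u)).1
  unfold dn
  nlinarith [h]

theorem dn_nonneg (θ u : VV p) : 0 ≤ dn θ u := (sq_nonneg _).trans (dn_ge θ u)

theorem dn_pos_of_half {θ u : VV p} (h : ‖θ‖ * ‖u‖ ≤ 1 / 2) : 1 / 4 ≤ dn θ u := by
  have h1 := dn_ge θ u
  have h2 : 0 ≤ ‖θ‖ * ‖u‖ := mul_nonneg (norm_nonneg _) (norm_nonneg _)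
  nlinarith [h1, h2]

theorem a2_dn_pos_of_ne {θ u : VV p} (h : dn θ u ≠ 0) : 0 < dn θ u :=
  lt_of_le_of_ne (dn_nonneg θ u) (Ne.symm h)

/-- The squared norm of the numerator of `tm`. -/
theorem a2_norm_sq_num (θ u : VV p) : ‖u - ‖u‖ ^ 2 • θ‖ ^ 2 = ‖u‖ ^ 2 * dn θ u := by
  rw [norm_sub_sq_real, real_inner_smul_right, norm_smul, Real.norm_eq_abs,
    abs_of_nonneg (sq_nonneg ‖u‖), real_inner_comm]
  unfold dn
  ring

theorem dn_eq_zero_iff (θ u : VV p) : dn θ u = 0 ↔ θ ≠ 0 ∧ u = io θ := by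
  constructor
  · intro h
    have hθ : θ ≠ 0 := by
      rintro rfl
      rw [dn_zero_left] at h
      exact one_ne_zero h
    refine ⟨hθ, ?_⟩
    have hn : ‖θ‖ ^ 2 ≠ 0 := pow_ne_zero 2 (norm_ne_zero_iff.mpr hθ)
    have h1 : ‖(‖θ‖ ^ 2) • u - θ‖ ^ 2 = ‖θ‖ ^ 2 * dn θ u := by
      rw [norm_sub_sq_real, real_inner_smul_left, norm_smul, Real.norm_eq_abs,
        abs_of_nonneg (sq_nonneg ‖θ‖), real_inner_comm]
      unfold dn
      ring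
    rw [h, mul_zero] at h1
    have h2 : (‖θ‖ ^ 2) • u - θ = 0 := norm_eq_zero.mp (pow_eq_zero_iff (two_ne_zero) |>.mp h1)
    have h3 : (‖θ‖ ^ 2) • u = θ := sub_eq_zero.mp h2
    unfold io
    have h4 : (‖θ‖ ^ 2)⁻¹ • ((‖θ‖ ^ 2) • u) = (‖θ‖ ^ 2)⁻¹ • θ := by rw [h3]
    rwa [smul_smul, inv_mul_cancel₀ hn, one_smul] at h4
  · rintro ⟨hθ, rfl⟩
    have hn : ‖θ‖ ≠ 0 := norm_ne_zero_iff.mpr hθ
    unfold dn io
    rw [real_inner_smul_right, real_inner_self_eq_norm_sq, norm_smul, Real.norm_eq_abs,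
      abs_of_nonneg (inv_nonneg.mpr (sq_nonneg ‖θ‖))]
    field_simp
    ring

theorem norm_io (θ : VV p) : ‖io θ‖ = ‖θ‖⁻¹ := by
  unfold io
  rw [norm_smul, Real.norm_eq_abs, abs_of_nonneg (inv_nonneg.mpr (sq_nonneg ‖θ‖))]
  by_cases h : ‖θ‖ = 0
  · rw [h]; simp
  · field_simp

theorem io_io (θ : VV p) : io (io θ) = θ := by
  by_cases h : θ = 0
  · subst h
    simp [io]
  · have hn : ‖θ‖ ≠ 0 := norm_ne_zero_iff.mpr h
    have h1 : io (io θ) = (‖io θ‖ ^ 2)⁻¹ • io θ := rfl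
    rw [h1, norm_io]
    unfold io
    rw [smul_smul]
    have h2 : ((‖θ‖⁻¹ ^ 2)⁻¹ * (‖θ‖ ^ 2)⁻¹ : ℝ) = 1 := by
      rw [inv_pow, inv_inv]
      exact mul_inv_cancel₀ (pow_ne_zero 2 hn)
    rw [h2, one_smul]

theorem dist_io {a b : VV p} (ha : a ≠ 0) (hb : b ≠ 0) :
    ‖io a - io b‖ = ‖a - b‖ / (‖a‖ * ‖b‖) := by
  have hna : ‖a‖ ≠ 0 := norm_ne_zero_iff.mpr ha
  have hnb : ‖b‖ ≠ 0 := norm_ne_zero_iff.mpr hb
  have h0 : 0 ≤ ‖a - b‖ / (‖a‖ * ‖b‖) := by positivity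
  rw [← sq_eq_sq₀ (norm_nonneg _) h0, div_pow, norm_sub_sq_real, norm_sub_sq_real, norm_io,
    norm_io]
  unfold io
  rw [real_inner_smul_left, real_inner_smul_right]
  field_simp
  ring

theorem tm_zero_left (u : VV p) : tm 0 u = u := by
  unfold tm
  rw [dn_zero_left, inv_one, one_smul, smul_zero, sub_zero]

theorem tm_zero_right (θ : VV p) : tm θ 0 = 0 := by
  unfold tm
  simp

theorem mobV_one_zero (u : VV p) : mobV 1 0 u = u := by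
  unfold mobV
  rw [tm_zero_left]
  rfl

theorem mobV_zero (η : VV p →L[ℝ] VV p) (θ : VV p) : mobV η θ 0 = 0 := by
  unfold mobV
  rw [tm_zero_right, map_zero]

theorem a2_norm_sq_tm {θ u : VV p} (h : dn θ u ≠ 0) : ‖tm θ u‖ ^ 2 = ‖u‖ ^ 2 / dn θ u := by
  unfold tm
  rw [norm_smul, mul_pow, a2_norm_sq_num, Real.norm_eq_abs, sq_abs]
  field_simp

theorem norm_tm {θ u : VV p} (h : dn θ u ≠ 0) : ‖tm θ u‖ * Real.sqrt (dn θ u) = ‖u‖ := by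
  have h0 : 0 ≤ ‖tm θ u‖ * Real.sqrt (dn θ u) := mul_nonneg (norm_nonneg _) (Real.sqrt_nonneg _)
  rw [← sq_eq_sq₀ h0 (norm_nonneg _), mul_pow, Real.sq_sqrt (dn_nonneg θ u), a2_norm_sq_tm h,
    div_mul_cancel₀ _ h]

theorem dist_tm {θ u v : VV p} (hu : dn θ u ≠ 0) (hv : dn θ v ≠ 0) :
    ‖tm θ u - tm θ v‖ * (Real.sqrt (dn θ u) * Real.sqrt (dn θ v)) = ‖u - v‖ := by
  have h0 : 0 ≤ ‖tm θ u - tm θ v‖ * (Real.sqrt (dn θ u) * Real.sqrt (dn θ v)) :=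
    mul_nonneg (norm_nonneg _) (mul_nonneg (Real.sqrt_nonneg _) (Real.sqrt_nonneg _))
  rw [← sq_eq_sq₀ h0 (norm_nonneg _), mul_pow, mul_pow, Real.sq_sqrt (dn_nonneg θ u),
    Real.sq_sqrt (dn_nonneg θ v), norm_sub_sq_real, norm_sub_sq_real, a2_norm_sq_tm hu,
    a2_norm_sq_tm hv]
  have h1 : inner ℝ (tm θ u) (tm θ v) = (dn θ u)⁻¹ * (dn θ v)⁻¹ *
      (inner ℝ u v - ‖v‖ ^ 2 * inner ℝ θ u - ‖u‖ ^ 2 * inner ℝ θ v +
        ‖u‖ ^ 2 * ‖v‖ ^ 2 * ‖θ‖ ^ 2) := by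
    unfold tm
    rw [real_inner_smul_left, real_inner_smul_right, inner_sub_left, inner_sub_right,
      inner_sub_right, real_inner_smul_left, real_inner_smul_left, real_inner_smul_right,
      real_inner_smul_right, real_inner_self_eq_norm_sq, real_inner_comm u θ]
    ring
  rw [h1]
  have h2 : (‖u‖ ^ 2 / dn θ u - 2 * ((dn θ u)⁻¹ * (dn θ v)⁻¹ *
      (inner ℝ u v - ‖v‖ ^ 2 * inner ℝ θ u - ‖u‖ ^ 2 * inner ℝ θ v +
        ‖u‖ ^ 2 * ‖v‖ ^ 2 * ‖θ‖ ^ 2)) + ‖v‖ ^ 2 / dn θ v) * (dn θ u * dn θ v) =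
      ‖u‖ ^ 2 * dn θ v - 2 * (inner ℝ u v - ‖v‖ ^ 2 * inner ℝ θ u - ‖u‖ ^ 2 * inner ℝ θ v +
        ‖u‖ ^ 2 * ‖v‖ ^ 2 * ‖θ‖ ^ 2) + ‖v‖ ^ 2 * dn θ u := by
    field_simp
  rw [h2]
  unfold dn
  ring

theorem dn_sim {A : VV p →L[ℝ] VV p} (hA : Sim A) (θ u : VV p) :
    dn θ (A u) = dn (adj A θ) u := by
  unfold dn
  rw [inner_adj, hA u, hA.adj θ, norm_adj]
  ring

theorem tm_sim {A : VV p →L[ℝ] VV p} (hA : Sim A) (θ u : VV p) :
    tm θ (A u) = A (tm (adj A θ) u) := by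
  unfold tm
  rw [dn_sim hA, map_smul, map_sub, map_smul, hA.mul_adj_self, hA u, smul_smul, mul_pow,
    mul_comm (‖A‖ ^ 2)]

theorem dn_tm {θ u : VV p} (θ' : VV p) (h : dn θ u ≠ 0) :
    dn θ' (tm θ u) = dn (θ + θ') u / dn θ u := by
  have h1 : dn θ' (tm θ u) = 1 - 2 * inner ℝ θ' (tm θ u) + ‖θ'‖ ^ 2 * ‖tm θ u‖ ^ 2 := rfl
  have h2 : inner ℝ θ' (tm θ u) = (dn θ u)⁻¹ * (inner ℝ θ' u - ‖u‖ ^ 2 * inner ℝ θ θ') := by
    unfold tm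
    rw [real_inner_smul_right, inner_sub_right, real_inner_smul_right, real_inner_comm θ θ']
  have h3 : dn (θ + θ') u = dn θ u - 2 * (inner ℝ θ' u - ‖u‖ ^ 2 * inner ℝ θ θ') +
      ‖θ'‖ ^ 2 * ‖u‖ ^ 2 := by
    unfold dn
    rw [inner_add_left, norm_add_sq_real]
    ring
  rw [h1, h2, a2_norm_sq_tm h, h3]
  field_simp

theorem tm_tm {θ u : VV p} (θ' : VV p) (h : dn θ u ≠ 0) :
    tm θ' (tm θ u) = tm (θ + θ') u := by
  have h1 : tm θ' (tm θ u) = (dn θ' (tm θ u))⁻¹ • (tm θ u - ‖tm θ u‖ ^ 2 • θ') := rfl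
  have h2 : tm θ u - ‖tm θ u‖ ^ 2 • θ' = (dn θ u)⁻¹ • (u - ‖u‖ ^ 2 • (θ + θ')) := by
    rw [a2_norm_sq_tm h]
    unfold tm
    rw [div_eq_inv_mul, ← smul_smul, ← smul_sub, smul_add, sub_sub]
  rw [h1, h2, dn_tm θ' h, smul_smul]
  unfold tm
  have h3 : (dn (θ + θ') u / dn θ u)⁻¹ * (dn θ u)⁻¹ = (dn (θ + θ') u)⁻¹ := by
    rw [inv_div, div_eq_mul_inv, mul_comm (dn θ u), mul_assoc, mul_inv_cancel₀ h, mul_one]
  rw [h3]

theorem tm_theta_inj {θ θ' : VV p} {ρ : ℝ} (hρ : 0 < ρ)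
    (h : ∀ u : VV p, ‖u‖ ≤ ρ → tm θ u = tm θ' u) : θ = θ' := by
  by_contra hne
  have hδ : θ - θ' ≠ 0 := sub_ne_zero.mpr hne
  have hδn : 0 < ‖θ - θ'‖ := norm_pos_iff.mpr hδ
  set K := 1 + ‖θ‖ + ‖θ'‖ with hK
  have hKpos : 0 < K := by positivity
  set s := min ρ (1 / 2) / K with hs
  have hs0 : 0 < s := div_pos (lt_min hρ (by norm_num)) hKpos
  have hsK : s * K = min ρ (1 / 2) := div_mul_cancel₀ _ hKpos.ne'
  set u : VV p := (s / ‖θ - θ'‖) • (θ - θ') with hu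
  have hun : ‖u‖ = s := by
    rw [hu, norm_smul, Real.norm_eq_abs, abs_of_pos (div_pos hs0 hδn), div_mul_cancel₀ _ hδn.ne']
  have hnθ : 0 ≤ ‖θ‖ := norm_nonneg _
  have hnθ' : 0 ≤ ‖θ'‖ := norm_nonneg _
  have hle : s * 1 ≤ s * K := mul_le_mul_of_nonneg_left (by linarith) hs0.le
  have hle1 : s * ‖θ‖ ≤ s * K := mul_le_mul_of_nonneg_left (by linarith) hs0.le
  have hle2 : s * ‖θ'‖ ≤ s * K := mul_le_mul_of_nonneg_left (by linarith) hs0.le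
  have hm1 : min ρ (1 / 2) ≤ ρ := min_le_left _ _
  have hm2 : min ρ (1 / 2) ≤ 1 / 2 := min_le_right _ _
  have hd : dn θ u ≠ 0 := by
    have := dn_pos_of_half (θ := θ) (u := u) (by rw [hun, mul_comm]; linarith)
    intro h0
    rw [h0] at this
    norm_num at this
  have hd' : dn θ' u ≠ 0 := by
    have := dn_pos_of_half (θ := θ') (u := u) (by rw [hun, mul_comm]; linarith)
    intro h0
    rw [h0] at this
    norm_num at this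
  have heq := h u (by rw [hun]; linarith)
  have h1 := a2_norm_sq_tm hd
  have h2 := a2_norm_sq_tm hd'
  rw [heq, h2] at h1
  have hun0 : ‖u‖ ^ 2 ≠ 0 := by
    rw [hun]
    exact pow_ne_zero 2 hs0.ne'
  have h3 : dn θ u = dn θ' u := by
    rw [div_eq_div_iff hd' hd] at h1
    exact mul_left_cancel₀ hun0 h1
  unfold tm at heq
  rw [h3] at heq
  have h4 := smul_right_injective (VV p) (inv_ne_zero hd') heq
  have h5 : ‖u‖ ^ 2 • θ = ‖u‖ ^ 2 • θ' := sub_right_injective h4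
  exact hne (smul_right_injective (VV p) hun0 h5)

/-- Composition rule. -/
theorem mobV_mobV {η η' : VV p →L[ℝ] VV p} (hη : Sim η) {θ u : VV p} (θ' : VV p)
    (h : dn θ u ≠ 0) :
    mobV η' θ' (mobV η θ u) = mobV (η' * η) (θ + adj η θ') u := by
  unfold mobV
  rw [tm_sim hη, tm_tm _ h]
  rfl

theorem dn_mobV {η : VV p →L[ℝ] VV p} (hη : Sim η) {θ u : VV p} (θ' : VV p)
    (h : dn θ u ≠ 0) : dn θ' (mobV η θ u) = dn (θ + adj η θ') u / dn θ u := by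
  unfold mobV
  rw [dn_sim hη, dn_tm _ h]

/-- Equivariance rule. -/
theorem mobV_scale {L L' η H : VV p →L[ℝ] VV p} (hL : Sim L) (hη : H * L = L' * η)
    {θ Θ : VV p} (hθ : adj L Θ = θ) (u : VV p) : L' (mobV η θ u) = mobV H Θ (L u) := by
  unfold mobV
  rw [tm_sim hL, hθ]
  exact (congrArg (fun A : VV p →L[ℝ] VV p => A (tm θ u)) hη).symm

theorem norm_mobV {η : VV p →L[ℝ] VV p} (hη : Sim η) {θ u : VV p} (h : dn θ u ≠ 0) :
    ‖mobV η θ u‖ * Real.sqrt (dn θ u) = ‖η‖ * ‖u‖ := by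
  unfold mobV
  rw [hη, mul_assoc, norm_tm h]

theorem dist_mobV {η : VV p →L[ℝ] VV p} (hη : Sim η) {θ u v : VV p} (hu : dn θ u ≠ 0)
    (hv : dn θ v ≠ 0) :
    ‖mobV η θ u - mobV η θ v‖ * (Real.sqrt (dn θ u) * Real.sqrt (dn θ v)) = ‖η‖ * ‖u - v‖ := by
  unfold mobV
  rw [← map_sub, hη, mul_assoc, dist_tm hu hv]

theorem mobV_eta_inj {η η' : VV p →L[ℝ] VV p} {θ θ' : VV p} {ρ : ℝ} (hη : Sim η) (h0 : 0 < ‖η‖)
    (hη' : η = η') (hρ : 0 < ρ) (h : ∀ u : VV p, ‖u‖ ≤ ρ → mobV η θ u = mobV η' θ' u) :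
    θ = θ' := by
  subst hη'
  exact tm_theta_inj hρ fun u hu => hη.inj h0 (h u hu)

theorem continuous_dn (u : VV p) : Continuous (fun θ : VV p => dn θ u) := by
  unfold dn
  fun_prop

end Pool.Agent.H147R2.Vec
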