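import Pool.Agent.H147R2.CV.Defs
import Pool.Agent.H779R2.An.Assembly

set_option autoImplicit false

namespace Pool.Agent.H147R2.Vec

open Pool.Agent.H721R2 Pool.Agent.H779R2.An Filter Topology MeasureTheory
open scoped BigOperators

variable {X E : Type*} [MetricSpace X] [CompactSpace X] [NormedAddCommGroup E]
  [InnerProductSpace ℝ E] [FiniteDimensional ℝ E] {p : ℕ}

/-- Continuity of the derivative of the stable holonomy. -/
theorem cc_prop {S : HypSys X E} (F : Flat S) : CCProp F := by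
  have hε0 := F.geo.pos
  set ε₀ := F.ε₀ with hε₀def
  have hL1 := S.one_le_Lu
  set L := S.Lu with hLdef
  have hL0 : 0 < L := by linarith
  refine ⟨ε₀ / 8, by positivity, fun w w' hww η hη => ?_⟩
  -- constants
  set K₁ := |F.K| + 1 with hK₁
  have hK₁0 : 0 < K₁ := by positivity
  set η₁ := min 1 (η / (32 * K₁)) with hη₁
  have hη₁0 : 0 < η₁ := lt_min one_pos (by positivity)
  have hη₁1 : η₁ ≤ 1 := min_le_left _ _
  have hη₁2 : 32 * K₁ * η₁ ≤ η := by
    have : η₁ ≤ η / (32 * K₁) := min_le_right _ _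
    rw [le_div_iff₀ (by positivity)] at this
    linarith
  obtain ⟨ετ, hετ, hτ⟩ := F.τ_near η₁ hη₁0
  obtain ⟨εH, hεH, hH⟩ := F.H_near η₁ hη₁0
  obtain ⟨ρs, hρs, hsm⟩ := F.small (min (ε₀ / 4) ετ) (lt_min (by positivity) hετ)
  -- n
  have hlim : Tendsto (fun n : ℕ => (1 / 8 : ℝ) ^ n * ε₀) atTop (𝓝 0) := by
    have := (tendsto_pow_atTop_nhds_zero_of_lt_one (by norm_num : (0 : ℝ) ≤ 1 / 8)
      (by norm_num)).mul_const ε₀
    simpa using this
  have hpos : 0 < min (ετ / 4) εH := lt_min (by positivity) hεH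
  obtain ⟨n, hN⟩ := (Metric.tendsto_atTop.mp hlim) _ hpos
  have hN1 := hN n le_rfl
  rw [Real.dist_eq, sub_zero, abs_of_nonneg (by positivity)] at hN1
  set t := (1 / 8 : ℝ) ^ n * ε₀ with ht
  have ht1 : t ≤ ετ / 4 := hN1.le.trans (min_le_left _ _)
  have ht2 : t ≤ εH := hN1.le.trans (min_le_right _ _)
  have hLN : 0 < L ^ n := by positivity
  set ρ₁ := min ρs (ετ / 8) with hρ₁
  have hρ₁0 : 0 < ρ₁ := lt_min hρs (by positivity)
  refine ⟨ρ₁ / L ^ n, by positivity, fun q q' hwq ha hqq hwq' v hv => ?_⟩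
  have hUwq : UAsym S w q := F.geo.uasym _ _ (hwq.mono (by linarith))
  have hUwq' : UAsym S w' q' := F.geo.uasym _ _ (hwq'.mono (by linarith))
  have hSww : SAsym S w w' := F.geo.sasym _ _ (hww.mono (by linarith))
  have hSqq : SAsym S q q' := F.geo.sasym _ _ (hqq.mono (by linarith))
  have haV : F.Lc w q ∈ S.Vu w := F.Lc_mem _ _ hUwq
  -- the vectors at time 0
  have hv1 : F.τ w q v ∈ S.Vu q := F.τ_mem _ _ hUwq v hv
  have hv2 : F.H q q' (F.τ w q v) ∈ S.Vu q' := F.H_mem _ _ hSqq _ hv1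
  have hv3 : F.τ q' w' (F.H q q' (F.τ w q v)) ∈ S.Vu w' := F.τ_mem _ _ hUwq'.symm _ hv2
  have hHv : F.H w w' v ∈ S.Vu w' := F.H_mem _ _ hSww _ hv
  set δ := F.τ q' w' (F.H q q' (F.τ w q v)) - F.H w w' v with hδ
  have hδV : δ ∈ S.Vu w' := Submodule.sub_mem _ hv3 hHv
  by_cases hv0 : v = 0
  · have h3 : δ = 0 := by
      rw [hδ, hv0]
      simp
    rw [h3, norm_zero]
    positivity
  have hvpos : 0 < ‖v‖ := norm_pos_iff.mpr hv0
  -- points at time n
  set x := S.g^[n] w with hx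
  set y := S.g^[n] q with hy
  set x' := S.g^[n] w' with hx'
  set y' := S.g^[n] q' with hy'
  have hUxy : UAsym S x y := hUwq.iter n
  have hSxx : SAsym S x x' := hSww.iter n
  have hSyy : SAsym S y y' := hSqq.iter n
  have hUxy' : UAsym S x' y' := hUwq'.iter n
  have hLcxy : F.Lc x y = Dn S n w (F.Lc w q) := F.toLin0.Lc_iter hUwq n
  have hLcA : ‖F.Lc x y‖ ≤ ρ₁ := by
    rw [hLcxy]
    refine (Dn_le S n w haV).trans ?_
    rw [le_div_iff₀ hLN] at ha
    linarith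
  have hUR : S.URel (min (ε₀ / 4) ετ) x y := hsm x y hUxy (hLcA.trans (min_le_left _ _))
  have hUR0 : S.URel ε₀ x y := hUR.mono ((min_le_left _ _).trans (by linarith))
  have hURτ : S.URel ετ x y := hUR.mono (min_le_right _ _)
  have hdxy : dist x y ≤ ετ / 4 := by
    have h1 := F.dist_le x y hUR0
    have h2 : ρ₁ ≤ ετ / 8 := min_le_right _ _
    linarith
  have hww0 : S.SRel ε₀ w w' := hww.mono (by linarith)
  have hqq0 : S.SRel ε₀ q q' := hqq.mono (by linarith)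
  have hdxx : dist x x' ≤ t := by
    have h1 := F.geo.scontr w w' hww0 n
    have h2 : (1 / 8 : ℝ) ^ n * dist w w' ≤ (1 / 8 : ℝ) ^ n * ε₀ :=
      mul_le_mul_of_nonneg_left hww0.dist_le (by positivity)
    exact h1.trans h2
  have hdyy : dist y y' ≤ t := by
    have h1 := F.geo.scontr q q' hqq0 n
    have h2 : (1 / 8 : ℝ) ^ n * dist q q' ≤ (1 / 8 : ℝ) ^ n * ε₀ :=
      mul_le_mul_of_nonneg_left hqq0.dist_le (by positivity)
    exact h1.trans h2
  have hUR' : S.URel ε₀ x' y' := by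
    intro j
    rcases le_total j n with hj | hj
    · have h1 : dist (S.g.symm^[j] x) (S.g.symm^[j] x') ≤ ε₀ / 8 := by
        rw [hx, hx', symm_iter_iter_le S hj, symm_iter_iter_le S hj]
        exact hww _
      have h2 : dist (S.g.symm^[j] y) (S.g.symm^[j] y') ≤ ε₀ / 8 := by
        rw [hy, hy', symm_iter_iter_le S hj, symm_iter_iter_le S hj]
        exact hqq _
      have h3 : dist (S.g.symm^[j] x) (S.g.symm^[j] y) ≤ ε₀ / 4 := (hUR j).trans (min_le_left _ _)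
      have h4 := dist_triangle4 (S.g.symm^[j] x') (S.g.symm^[j] x) (S.g.symm^[j] y)
        (S.g.symm^[j] y')
      rw [dist_comm (S.g.symm^[j] x') (S.g.symm^[j] x)] at h4
      linarith
    · rw [hx', hy', symm_iter_iter_ge S hj, symm_iter_iter_ge S hj]
      exact (hwq' _).trans (by linarith)
  have hdxy' : dist x' y' ≤ ετ := by
    have h4 := dist_triangle4 x' x y y'
    rw [dist_comm x' x] at h4
    linarith
  have hURτ' : S.URel ετ y' x' := ((F.geo.URel_dist hUR').mono hdxy').symm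
  have hSRx : S.SRel εH x x' := by
    have := F.geo.SRel_dist (x := x) (y := x') (hww0.iter n)
    exact this.mono (hdxx.trans ht2)
  have hSRy : S.SRel εH y y' := by
    have := F.geo.SRel_dist (x := y) (y := y') (hqq0.iter n)
    exact this.mono (hdyy.trans ht2)
  -- the vectors at time n
  set v1 := Dn S n w v with hv1def
  have hv1V : v1 ∈ S.Vu x := Dn_mem S n w hv
  set A := ‖v1‖ with hA
  have hA0 : 0 < A := by
    have h1 := le_Dn S n w hv
    have h2 : 0 < (16 : ℝ) ^ n * ‖v‖ := by positivity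
    exact h2.trans_le h1
  have hτ1 : F.τ x y v1 ∈ S.Vu y := F.τ_mem _ _ hUxy v1 hv1V
  have hH1 : F.H y y' (F.τ x y v1) ∈ S.Vu y' := F.H_mem _ _ hSyy _ hτ1
  have e1 : ‖F.τ x y v1 - v1‖ ≤ η₁ * A := hτ x y hURτ v1 hv1V
  have hη₁A : η₁ * A ≤ A := by
    have := mul_le_mul_of_nonneg_right hη₁1 hA0.le
    linarith
  have f1 : ‖F.τ x y v1‖ ≤ 2 * A := by
    have h1 := norm_le_norm_add_norm_sub' (F.τ x y v1) v1
    linarith
  have e2 : ‖F.H y y' (F.τ x y v1) - F.τ x y v1‖ ≤ 2 * (η₁ * A) := by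
    have h1 := hH y y' hSRy _ hτ1
    have h2 : η₁ * ‖F.τ x y v1‖ ≤ η₁ * (2 * A) := mul_le_mul_of_nonneg_left f1 hη₁0.le
    linarith
  have f2 : ‖F.H y y' (F.τ x y v1)‖ ≤ 4 * A := by
    have h1 := norm_le_norm_add_norm_sub' (F.H y y' (F.τ x y v1)) (F.τ x y v1)
    linarith
  have e3 : ‖F.τ y' x' (F.H y y' (F.τ x y v1)) - F.H y y' (F.τ x y v1)‖ ≤ 4 * (η₁ * A) := by
    have h1 := hτ y' x' hURτ' _ hH1
    have h2 : η₁ * ‖F.H y y' (F.τ x y v1)‖ ≤ η₁ * (4 * A) :=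
      mul_le_mul_of_nonneg_left f2 hη₁0.le
    linarith
  have e4 : ‖F.H x x' v1 - v1‖ ≤ η₁ * A := hH x x' hSRx v1 hv1V
  have e6 : ‖F.τ y' x' (F.H y y' (F.τ x y v1)) - F.H x x' v1‖ ≤ 8 * (η₁ * A) := by
    have key : F.τ y' x' (F.H y y' (F.τ x y v1)) - F.H x x' v1 =
        (F.τ y' x' (F.H y y' (F.τ x y v1)) - F.H y y' (F.τ x y v1)) +
        (F.H y y' (F.τ x y v1) - F.τ x y v1) + (F.τ x y v1 - v1) - (F.H x x' v1 - v1) := by
      abel
    rw [key]
    have n1 := norm_sub_le ((F.τ y' x' (F.H y y' (F.τ x y v1)) - F.H y y' (F.τ x y v1)) +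
        (F.H y y' (F.τ x y v1) - F.τ x y v1) + (F.τ x y v1 - v1)) (F.H x x' v1 - v1)
    have n2 := norm_add_le ((F.τ y' x' (F.H y y' (F.τ x y v1)) - F.H y y' (F.τ x y v1)) +
        (F.H y y' (F.τ x y v1) - F.τ x y v1)) (F.τ x y v1 - v1)
    have n3 := norm_add_le (F.τ y' x' (F.H y y' (F.τ x y v1)) - F.H y y' (F.τ x y v1))
        (F.H y y' (F.τ x y v1) - F.τ x y v1)
    linarith
  have e7 : Dn S n w' δ = F.τ y' x' (F.H y y' (F.τ x y v1)) - F.H x x' v1 := by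
    rw [hδ, map_sub, ← F.toLin0.τ_iter hUwq'.symm n hv2, ← F.toLin0.H_iter hSqq n hv1,
      ← F.toLin0.τ_iter hUwq n hv, ← F.toLin0.H_iter hSww n hv]
  have hHxx : F.H x x' v1 = Dn S n w' (F.H w w' v) := F.toLin0.H_iter hSww n hv
  have e8 : A ≤ 2 * ‖Dn S n w' (F.H w w' v)‖ := by
    rw [← hHxx]
    exact F.le_H x x' (hww0.iter n) _ hv1V
  have e9 : ‖F.H w w' v‖ ≤ 2 * ‖v‖ := F.H_le w w' hww0 v hv
  have e10 := F.qc n w' _ hHv _ hδV
  rw [e7] at e10
  have e11 : F.K * (‖F.τ y' x' (F.H y y' (F.τ x y v1)) - F.H x x' v1‖ * ‖F.H w w' v‖) ≤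
      K₁ * ((8 * (η₁ * A)) * (2 * ‖v‖)) := by
    have h1 : F.K ≤ K₁ := by
      have := le_abs_self F.K
      linarith
    have h2 : ‖F.τ y' x' (F.H y y' (F.τ x y v1)) - F.H x x' v1‖ * ‖F.H w w' v‖ ≤
        (8 * (η₁ * A)) * (2 * ‖v‖) :=
      mul_le_mul e6 e9 (norm_nonneg _) (by positivity)
    calc _ ≤ K₁ * (‖F.τ y' x' (F.H y y' (F.τ x y v1)) - F.H x x' v1‖ * ‖F.H w w' v‖) :=
          mul_le_mul_of_nonneg_right h1 (by positivity)
      _ ≤ _ := mul_le_mul_of_nonneg_left h2 hK₁0.le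
  have e12 : A * ‖δ‖ ≤ A * (η * ‖v‖) := by
    have h1 : A * ‖δ‖ ≤ 2 * ‖Dn S n w' (F.H w w' v)‖ * ‖δ‖ :=
      mul_le_mul_of_nonneg_right e8 (norm_nonneg _)
    have h2 : 32 * K₁ * η₁ * (A * ‖v‖) ≤ η * (A * ‖v‖) :=
      mul_le_mul_of_nonneg_right hη₁2 (by positivity)
    have h3 : K₁ * ((8 * (η₁ * A)) * (2 * ‖v‖)) = 32 * K₁ * η₁ * (A * ‖v‖) / 2 := by ring
    have h4 : A * (η * ‖v‖) = η * (A * ‖v‖) := by ring
    rw [h4]
    rw [h3] at e11
    linarith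
  exact le_of_mul_le_mul_left e12 hA0

end Pool.Agent.H147R2.Vec
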