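import Pool.Agent.H147R2.CV.Defs
import Pool.Agent.H779R2.An.Assembly

set_option autoImplicit false

namespace Pool.Agent.H147R2.Vec

open Pool.Agent.H721R2 Pool.Agent.H779R2.An Filter Topology MeasureTheory
open scoped BigOperators

variable {X E : Type*} [MetricSpace X] [CompactSpace X] [NormedAddCommGroup E]
  [InnerProductSpace ℝ E] [FiniteDimensional ℝ E] {p : ℕ}

private theorem conf1_upper {S : HypSys X E} (B₀ : CB0 S) :
    ∃ C > 0, ∀ x, ∀ v ∈ S.Vu x, B₀.B x v v ≤ C * ‖v‖ ^ 2 := by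
  obtain ⟨r, hr, h⟩ := B₀.cont 1 one_pos
  have hq : 0 < 2 * r + r ^ 2 := by positivity
  refine ⟨1 / (2 * r + r ^ 2), by positivity, fun x v hv => ?_⟩
  have h1 := h x x (by simpa using hr) v hv ((1 + r) • v) (Submodule.smul_mem _ _ hv) (by
    rw [show v - (1 + r) • v = (-r) • v by module, norm_smul, Real.norm_eq_abs, abs_neg,
      abs_of_pos hr])
  rw [map_smul, map_smul, LinearMap.smul_apply, smul_eq_mul, smul_eq_mul] at h1
  have h2 := (abs_le.mp h1).1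
  have h3 : (2 * r + r ^ 2) * B₀.B x v v ≤ ‖v‖ ^ 2 := by nlinarith
  rw [div_mul_eq_mul_div, one_mul, le_div_iff₀ hq]
  linarith

private theorem conf1_lower {S : HypSys X E} (B₀ : CB0 S) :
    ∃ c > 0, ∀ x, ∀ v ∈ S.Vu x, ‖v‖ = 1 → c ≤ B₀.B x v v := by
  by_contra hcon
  push Not at hcon
  have h1 : ∀ n : ℕ, ∃ z : X × E, z.2 ∈ S.Vu z.1 ∧ ‖z.2‖ = 1 ∧
      B₀.B z.1 z.2 z.2 < 1 / ((n : ℝ) + 1) := by
    intro n
    obtain ⟨x, v, hv, hv1, hv2⟩ := hcon (1 / ((n : ℝ) + 1)) (by positivity)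
    exact ⟨(x, v), hv, hv1, hv2⟩
  choose z hz1 hz2 hz3 using h1
  have hcpt : IsCompact ((Set.univ : Set X) ×ˢ Metric.sphere (0 : E) 1) :=
    isCompact_univ.prod (isCompact_sphere 0 1)
  obtain ⟨⟨x, v⟩, hxv, φ, hφ, hlim⟩ := hcpt.tendsto_subseq (x := z) (fun n =>
    ⟨Set.mem_univ _, by simpa using hz2 n⟩)
  have hv1 : ‖v‖ = 1 := by simpa using hxv.2
  have hlx : Tendsto (fun n => (z (φ n)).1) atTop (𝓝 x) :=
    (continuous_fst.tendsto _).comp hlim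
  have hlv : Tendsto (fun n => (z (φ n)).2) atTop (𝓝 v) :=
    (continuous_snd.tendsto _).comp hlim
  -- the limit lies in the unstable space
  have hmem : v ∈ S.Vu x := by
    have hcl : IsClosed (S.Vu x : Set E) := Submodule.closed_of_finiteDimensional _
    have : v ∈ closure (S.Vu x : Set E) := by
      rw [Metric.mem_closure_iff]
      intro ε hε
      obtain ⟨r, hr, h3⟩ := S.A3' (ε / 2) (by positivity)
      have e1 : ∀ᶠ n in atTop, dist (z (φ n)).1 x < r := (Metric.tendsto_nhds.1 hlx) r hr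
      have e2 : ∀ᶠ n in atTop, dist (z (φ n)).2 v < ε / 2 :=
        (Metric.tendsto_nhds.1 hlv) (ε / 2) (by positivity)
      obtain ⟨n, hn1, hn2⟩ := (e1.and e2).exists
      obtain ⟨u', hu', hu''⟩ := h3 _ _ hn1 _ (hz1 (φ n))
      refine ⟨u', hu', ?_⟩
      rw [hz2, mul_one] at hu''
      calc dist v u' ≤ dist v (z (φ n)).2 + dist (z (φ n)).2 u' := dist_triangle _ _ _
        _ = dist (z (φ n)).2 v + ‖(z (φ n)).2 - u'‖ := by rw [dist_comm, dist_eq_norm (z (φ n)).2 u']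
        _ < ε := by linarith
    rwa [hcl.closure_eq] at this
  have hv0 : v ≠ 0 := by
    intro h0
    rw [h0, norm_zero] at hv1
    exact zero_ne_one hv1
  have hpos := B₀.pos x v hmem hv0
  obtain ⟨r, hr, hc⟩ := B₀.cont (B₀.B x v v / 2) (by positivity)
  have e1 : ∀ᶠ n in atTop, dist (z (φ n)).1 x < r := (Metric.tendsto_nhds.1 hlx) r hr
  have e2 : ∀ᶠ n in atTop, dist (z (φ n)).2 v < r := (Metric.tendsto_nhds.1 hlv) r hr
  have e3 : ∀ᶠ n : ℕ in atTop, 1 / ((φ n : ℝ) + 1) < B₀.B x v v / 2 := by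
    have h5 : Tendsto (fun n : ℕ => 1 / ((φ n : ℝ) + 1)) atTop (𝓝 0) :=
      tendsto_one_div_add_atTop_nhds_zero_nat.comp hφ.tendsto_atTop
    exact h5.eventually_lt_const (by positivity)
  obtain ⟨n, ⟨hn1, hn2⟩, hn3⟩ := ((e1.and e2).and e3).exists
  have h6 := hc _ _ hn1 _ (hz1 (φ n)) v hmem (by
    rw [hz2, mul_one, ← dist_eq_norm]; exact hn2.le)
  rw [hz2, one_pow, mul_one] at h6
  have h7 := (abs_le.mp h6).1
  have h8 := hz3 (φ n)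
  linarith

/-- Two-sided bound of the conformal structure. -/
theorem CB0.exists_bound {S : HypSys X E} (B₀ : CB0 S) :
    ∃ C > 0, ∀ x, ∀ v ∈ S.Vu x, B₀.B x v v ≤ C * ‖v‖ ^ 2 ∧ ‖v‖ ^ 2 ≤ C * B₀.B x v v := by
  obtain ⟨C, hC, h1⟩ := conf1_upper B₀
  obtain ⟨c, hc, h2⟩ := conf1_lower B₀
  have hnn : ∀ x, ∀ v ∈ S.Vu x, 0 ≤ B₀.B x v v := by
    intro x v hv
    rcases eq_or_ne v 0 with h0 | h0
    · rw [h0, map_zero]
    · exact (B₀.pos x v hv h0).le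
  refine ⟨max C (1 / c), lt_max_of_lt_left hC, fun x v hv => ⟨?_, ?_⟩⟩
  · exact (h1 x v hv).trans (mul_le_mul_of_nonneg_right (le_max_left _ _) (by positivity))
  · refine le_trans ?_ (mul_le_mul_of_nonneg_right (le_max_right C (1 / c)) (hnn x v hv))
    rcases eq_or_ne v 0 with h0 | h0
    · rw [h0]; simp
    · have hn : 0 < ‖v‖ := norm_pos_iff.2 h0
      have h3 := h2 x (‖v‖⁻¹ • v) (Submodule.smul_mem _ _ hv) (by
        rw [norm_smul, norm_inv, norm_norm, inv_mul_cancel₀ hn.ne'])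
      rw [map_smul, map_smul, LinearMap.smul_apply, smul_eq_mul, smul_eq_mul, ← mul_assoc] at h3
      rw [div_mul_eq_mul_div, one_mul, le_div_iff₀ hc]
      have h4 : c * ‖v‖ ^ 2 ≤ ‖v‖⁻¹ * ‖v‖⁻¹ * B₀.B x v v * ‖v‖ ^ 2 :=
        mul_le_mul_of_nonneg_right h3 (by positivity)
      have h5 : ‖v‖⁻¹ * ‖v‖⁻¹ * B₀.B x v v * ‖v‖ ^ 2 = B₀.B x v v := by field_simp
      linarith

private theorem conf1_Dn {S : HypSys X E} (B₀ : CB0 S) (n : ℕ) (x : X) : ∃ Φ : ℝ,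
    ∀ v ∈ S.Vu x, B₀.B (S.g^[n] x) (Dn S n x v) (Dn S n x v) = Φ * B₀.B x v v := by
  induction n with
  | zero => exact ⟨1, fun v _ => by simp⟩
  | succ n ih =>
    obtain ⟨Φ, hΦ⟩ := ih
    refine ⟨B₀.φ (S.g^[n] x) * Φ, fun v hv => ?_⟩
    rw [Dn_succ, Function.iterate_succ_apply', B₀.conf _ _ (Dn_mem S n x hv), hΦ v hv, mul_assoc]

theorem qc_of_cb0 {S : HypSys X E} (B₀ : CB0 S) : ∃ K, QC S K := by
  obtain ⟨C, hC, hB⟩ := B₀.exists_bound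
  refine ⟨C ^ 2, fun n x v hv w hw => ?_⟩
  rcases eq_or_ne w 0 with h0 | h0
  · rw [h0, norm_zero, mul_zero]; positivity
  obtain ⟨Φ, hΦ⟩ := conf1_Dn B₀ n x
  have hw1 := B₀.pos x w hw h0
  have hDw : Dn S n x w ≠ 0 := fun h => h0 (Dn_eq_zero S n x hw h)
  have hw2 := B₀.pos _ _ (Dn_mem S n x hw) hDw
  have hΦ0 : 0 < Φ := by
    rw [hΦ w hw] at hw2
    exact (mul_pos_iff_of_pos_right hw1).1 hw2
  have a1 := (hB _ _ (Dn_mem S n x hv)).2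
  have a2 := (hB x v hv).1
  have a3 := (hB x w hw).2
  have a4 := (hB _ _ (Dn_mem S n x hw)).1
  rw [hΦ v hv] at a1
  rw [hΦ w hw] at a4
  have b1 : ‖Dn S n x v‖ ^ 2 ≤ C ^ 2 * Φ * ‖v‖ ^ 2 := by
    calc ‖Dn S n x v‖ ^ 2 ≤ C * (Φ * B₀.B x v v) := a1
      _ = C * Φ * B₀.B x v v := by ring
      _ ≤ C * Φ * (C * ‖v‖ ^ 2) := mul_le_mul_of_nonneg_left a2 (by positivity)
      _ = _ := by ring
  have b2 : Φ * ‖w‖ ^ 2 ≤ C ^ 2 * ‖Dn S n x w‖ ^ 2 := by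
    calc Φ * ‖w‖ ^ 2 ≤ Φ * (C * B₀.B x w w) := mul_le_mul_of_nonneg_left a3 hΦ0.le
      _ = C * (Φ * B₀.B x w w) := by ring
      _ ≤ C * (C * ‖Dn S n x w‖ ^ 2) := mul_le_mul_of_nonneg_left a4 hC.le
      _ = _ := by ring
  have b3 : (‖Dn S n x v‖ * ‖w‖) ^ 2 ≤ (C ^ 2 * (‖Dn S n x w‖ * ‖v‖)) ^ 2 := by
    calc (‖Dn S n x v‖ * ‖w‖) ^ 2 = ‖Dn S n x v‖ ^ 2 * ‖w‖ ^ 2 := by ring
      _ ≤ C ^ 2 * Φ * ‖v‖ ^ 2 * ‖w‖ ^ 2 := mul_le_mul_of_nonneg_right b1 (by positivity)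
      _ = C ^ 2 * ‖v‖ ^ 2 * (Φ * ‖w‖ ^ 2) := by ring
      _ ≤ C ^ 2 * ‖v‖ ^ 2 * (C ^ 2 * ‖Dn S n x w‖ ^ 2) :=
        mul_le_mul_of_nonneg_left b2 (by positivity)
      _ = _ := by ring
  exact abs_le_of_sq_le_sq' b3 (by positivity) |>.2

end Pool.Agent.H147R2.Vec
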