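import Pool.Agent.H147R2.CV.Defs
import Pool.Agent.H779R2.An.Assembly
import Pool.Agent.H147R2.CV.Conf1

set_option autoImplicit false

namespace Pool.Agent.H147R2.Vec

open Pool.Agent.H721R2 Pool.Agent.H779R2.An Filter Topology MeasureTheory
open scoped BigOperators

variable {X E : Type*} [MetricSpace X] [CompactSpace X] [NormedAddCommGroup E]
  [InnerProductSpace ℝ E] [FiniteDimensional ℝ E] {p : ℕ}

/-- Two positive functions which are almost proportional (with multipliers) are proportional. -/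
theorem conf_ratio_const {ι : Type*} (a b : ι → ℝ) (ha : ∀ v, 0 < a v) (hb : ∀ v, 0 < b v)
    (h : ∀ η : ℝ, 0 < η → ∃ α β : ℝ, 0 < α ∧ 0 < β ∧
      ∀ v, |β * b v - α * a v| ≤ η * (α * a v)) (v w : ι) : b v * a w = b w * a v := by
  have key : ∀ η : ℝ, 0 < η → η ≤ 1 / 2 → |b v * a w - b w * a v| ≤ η * (4 * (b v * a w)) := by
    intro η hη hη2
    obtain ⟨α, β, hα, hβ, h1⟩ := h η hη
    have hv := h1 v
    have hw := h1 w
    have hav := ha v
    have haw := ha w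
    have hbv := hb v
    have h2 : α * a v ≤ 2 * (β * b v) := by
      have h3 := (abs_le.1 hv).1
      have h4 : η * (α * a v) ≤ 1 / 2 * (α * a v) :=
        mul_le_mul_of_nonneg_right hη2 (by positivity)
      linarith
    have h5 : β * (b v * a w - b w * a v) =
        (β * b v - α * a v) * a w - (β * b w - α * a w) * a v := by ring
    have h6 : |β * (b v * a w - b w * a v)| ≤
        η * (α * a v) * a w + η * (α * a w) * a v := by
      rw [h5]
      refine (abs_sub _ _).trans ?_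
      rw [abs_mul, abs_mul, abs_of_pos hav, abs_of_pos haw]
      exact add_le_add (mul_le_mul_of_nonneg_right hv haw.le)
        (mul_le_mul_of_nonneg_right hw hav.le)
    rw [abs_mul, abs_of_pos hβ] at h6
    have h7 : η * (α * a v) * a w + η * (α * a w) * a v = 2 * η * a w * (α * a v) := by ring
    have h8 : 2 * η * a w * (α * a v) ≤ 2 * η * a w * (2 * (β * b v)) :=
      mul_le_mul_of_nonneg_left h2 (by positivity)
    have h9 : β * |b v * a w - b w * a v| ≤ β * (η * (4 * (b v * a w))) := by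
      calc β * |b v * a w - b w * a v| ≤ 2 * η * a w * (2 * (β * b v)) := by linarith
        _ = β * (η * (4 * (b v * a w))) := by ring
    exact le_of_mul_le_mul_left h9 hβ
  have hc : 0 < b v * a w := mul_pos (hb v) (ha w)
  have h0 : |b v * a w - b w * a v| = 0 := by
    by_contra hne
    have hpos : 0 < |b v * a w - b w * a v| := lt_of_le_of_ne (abs_nonneg _) (Ne.symm hne)
    set d := |b v * a w - b w * a v| with hd
    have h1 := key (min (1 / 2) (d / (8 * (b v * a w)))) (lt_min (by norm_num) (by positivity))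
      (min_le_left _ _)
    have h2 : min (1 / 2) (d / (8 * (b v * a w))) * (4 * (b v * a w)) ≤
        d / (8 * (b v * a w)) * (4 * (b v * a w)) :=
      mul_le_mul_of_nonneg_right (min_le_right _ _) (by positivity)
    have h3 : d / (8 * (b v * a w)) * (4 * (b v * a w)) = d / 2 := by
      have h4 : b v * a w ≠ 0 := hc.ne'
      generalize b v * a w = c at h4
      field_simp
      ring
    linarith
  linarith [sub_eq_zero.1 (abs_eq_zero.1 h0)]

theorem conf_scale {S : HypSys X E} (B₀ : CB0 S) (x y : X) (T : E →ₗ[ℝ] E)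
    (hT : ∀ v ∈ S.Vu x, v ≠ 0 → T v ∈ S.Vu y ∧ T v ≠ 0)
    (h : ∀ η : ℝ, 0 < η → ∃ α β : ℝ, ∀ v ∈ S.Vu x, v ≠ 0 → 0 < α ∧ 0 < β ∧
      |β * B₀.B y (T v) (T v) - α * B₀.B x v v| ≤ η * (α * B₀.B x v v)) :
    ∃ s : ℝ, 0 < s ∧ ∀ v ∈ S.Vu x, B₀.B y (T v) (T v) = s * B₀.B x v v := by
  by_cases hex : ∃ v₀ ∈ S.Vu x, v₀ ≠ 0
  · obtain ⟨v₀, hv₀, hne₀⟩ := hex
    have hr := conf_ratio_const (ι := {v : E // v ∈ S.Vu x ∧ v ≠ 0})
      (fun v => B₀.B x v.1 v.1) (fun v => B₀.B y (T v.1) (T v.1))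
      (fun v => B₀.pos x v.1 v.2.1 v.2.2)
      (fun v => B₀.pos y _ (hT v.1 v.2.1 v.2.2).1 (hT v.1 v.2.1 v.2.2).2)
      (fun η hη => by
        obtain ⟨α, β, h1⟩ := h η hη
        exact ⟨α, β, (h1 v₀ hv₀ hne₀).1, (h1 v₀ hv₀ hne₀).2.1,
          fun v => (h1 v.1 v.2.1 v.2.2).2.2⟩)
    have p1 := B₀.pos x v₀ hv₀ hne₀
    have p2 := B₀.pos y _ (hT v₀ hv₀ hne₀).1 (hT v₀ hv₀ hne₀).2
    refine ⟨B₀.B y (T v₀) (T v₀) / B₀.B x v₀ v₀, div_pos p2 p1, fun v hv => ?_⟩
    by_cases hv0 : v = 0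
    · subst hv0
      simp
    · have h2 := hr ⟨v, hv, hv0⟩ ⟨v₀, hv₀, hne₀⟩
      dsimp only at h2
      rw [div_mul_eq_mul_div, eq_div_iff p1.ne']
      exact h2
  · refine ⟨1, one_pos, fun v hv => ?_⟩
    have hv0 : v = 0 := by
      by_contra hne
      exact hex ⟨v, hv, hne⟩
    subst hv0
    simp

theorem CB0.iter {S : HypSys X E} (B₀ : CB0 S) (n : ℕ) (x : X) :
    ∃ α : ℝ, ∀ v ∈ S.Vu x, B₀.B (S.g^[n] x) (Dn S n x v) (Dn S n x v) = α * B₀.B x v v := by
  induction n with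
  | zero => exact ⟨1, fun v _ => by rw [one_mul]; rfl⟩
  | succ n ih =>
    obtain ⟨α, hα⟩ := ih
    refine ⟨B₀.φ (S.g^[n] x) * α, fun v hv => ?_⟩
    rw [Dn_succ, Function.iterate_succ_apply', B₀.conf _ _ (Dn_mem S n x hv), hα v hv, mul_assoc]

theorem CB0.back {S : HypSys X E} (B₀ : CB0 S) (n : ℕ) (x : X) :
    ∃ α : ℝ, ∀ v ∈ S.Vu x, B₀.B (S.g.symm^[n] x) (Dn S.symm n x v) (Dn S.symm n x v) =
      α * B₀.B x v v := by
  obtain ⟨β, hβ⟩ := B₀.iter n (S.g.symm^[n] x)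
  refine ⟨β⁻¹, fun v hv => ?_⟩
  have h1 := hβ _ (Dn_symm_mem S n x hv)
  rw [iter_iter_symm, Dn_Dn_symm S n x hv] at h1
  by_cases hb : β = 0
  · rw [hb, zero_mul] at h1
    have hv0 : v = 0 := by
      by_contra hne
      have := B₀.pos x v hv hne
      linarith
    subst hv0
    simp
  · rw [h1, inv_mul_cancel_left₀ hb]

/-- The transports `τ`, `H` are conformal. -/
theorem conf_prop {S : HypSys X E} (F : Flat S) (B₀ : CB0 S) : ConfProp F B₀ := by
  obtain ⟨C, hC, hB⟩ := B₀.exists_bound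
  refine ⟨?_, ?_⟩
  · intro x y hxy
    have hne : ∀ v ∈ S.Vu x, v ≠ 0 → F.τ x y v ∈ S.Vu y ∧ F.τ x y v ≠ 0 := by
      intro v hv hv0
      refine ⟨F.τ_mem x y hxy v hv, fun h0 => hv0 ?_⟩
      have h1 := F.τ_comp x y x hxy hxy.symm v hv
      rw [h0, map_zero, F.τ_self x v hv] at h1
      exact h1.symm
    refine conf_scale B₀ x y (F.τ x y) hne fun η hη => ?_
    obtain ⟨r, hr, h1⟩ := B₀.cont (η / C) (by positivity)
    obtain ⟨ε₁, hε₁, h2⟩ := F.τ_near r hr
    have hε : 0 < min ε₁ (r / 2) := lt_min hε₁ (by positivity)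
    obtain ⟨n, hn⟩ := hxy.eventually hε
    have hU := hn n le_rfl
    obtain ⟨α, hα⟩ := B₀.back n x
    obtain ⟨β, hβ⟩ := B₀.back n y
    refine ⟨α, β, fun v hv hv0 => ?_⟩
    have hTv := hne v hv hv0
    have hα1 := hα v hv
    have hβ1 := hβ _ hTv.1
    have hwm : Dn S.symm n x v ∈ S.Vu (S.g.symm^[n] x) := Dn_symm_mem S n x hv
    have hwm' : Dn S.symm n y (F.τ x y v) ∈ S.Vu (S.g.symm^[n] y) := Dn_symm_mem S n y hTv.1
    have hw0 : Dn S.symm n x v ≠ 0 := fun h => hv0 (Dn_symm_eq_zero S n x hv h)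
    have hw0' : Dn S.symm n y (F.τ x y v) ≠ 0 := fun h => hTv.2 (Dn_symm_eq_zero S n y hTv.1 h)
    have p1 := B₀.pos x v hv hv0
    have p2 := B₀.pos y _ hTv.1 hTv.2
    have p3 := B₀.pos _ _ hwm hw0
    have p4 := B₀.pos _ _ hwm' hw0'
    rw [hα1] at p3
    rw [hβ1] at p4
    have k4 : dist (S.g.symm^[n] x) (S.g.symm^[n] y) < r := by
      have h3 := hU.dist_le
      have h5 : min ε₁ (r / 2) ≤ r / 2 := min_le_right _ _
      linarith
    have k2 := h2 _ _ (hU.mono (min_le_left _ _)) _ hwm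
    have k5 := h1 _ _ k4 _ hwm _ hwm' (by
      rw [← F.τ_back hxy n hv, norm_sub_rev]; exact k2)
    rw [hα1, hβ1] at k5
    refine ⟨pos_of_mul_pos_left p3 p1.le, pos_of_mul_pos_left p4 p2.le, ?_⟩
    have k6 := (hB _ _ hwm).2
    rw [hα1] at k6
    rw [abs_sub_comm]
    refine k5.trans ?_
    calc η / C * ‖Dn S.symm n x v‖ ^ 2 ≤ η / C * (C * (α * B₀.B x v v)) :=
          mul_le_mul_of_nonneg_left k6 (by positivity)
      _ = η * (α * B₀.B x v v) := by field_simp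
  · intro x y hxy
    have hne : ∀ v ∈ S.Vu x, v ≠ 0 → F.H x y v ∈ S.Vu y ∧ F.H x y v ≠ 0 := by
      intro v hv hv0
      refine ⟨F.H_mem x y hxy v hv, fun h0 => hv0 ?_⟩
      have h1 := F.H_comp x y x hxy hxy.symm v hv
      rw [h0, map_zero, F.H_self x v hv] at h1
      exact h1.symm
    refine conf_scale B₀ x y (F.H x y) hne fun η hη => ?_
    obtain ⟨r, hr, h1⟩ := B₀.cont (η / C) (by positivity)
    obtain ⟨ε₁, hε₁, h2⟩ := F.H_near r hr
    have hε : 0 < min ε₁ (r / 2) := lt_min hε₁ (by positivity)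
    obtain ⟨n, hn⟩ := hxy.eventually hε
    have hU := hn n le_rfl
    obtain ⟨α, hα⟩ := B₀.iter n x
    obtain ⟨β, hβ⟩ := B₀.iter n y
    refine ⟨α, β, fun v hv hv0 => ?_⟩
    have hTv := hne v hv hv0
    have hα1 := hα v hv
    have hβ1 := hβ _ hTv.1
    have hwm : Dn S n x v ∈ S.Vu (S.g^[n] x) := Dn_mem S n x hv
    have hwm' : Dn S n y (F.H x y v) ∈ S.Vu (S.g^[n] y) := Dn_mem S n y hTv.1
    have hw0 : Dn S n x v ≠ 0 := fun h => hv0 (Dn_eq_zero S n x hv h)
    have hw0' : Dn S n y (F.H x y v) ≠ 0 := fun h => hTv.2 (Dn_eq_zero S n y hTv.1 h)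
    have p1 := B₀.pos x v hv hv0
    have p2 := B₀.pos y _ hTv.1 hTv.2
    have p3 := B₀.pos _ _ hwm hw0
    have p4 := B₀.pos _ _ hwm' hw0'
    rw [hα1] at p3
    rw [hβ1] at p4
    have k4 : dist (S.g^[n] x) (S.g^[n] y) < r := by
      have h3 := hU.dist_le
      have h5 : min ε₁ (r / 2) ≤ r / 2 := min_le_right _ _
      linarith
    have k2 := h2 _ _ (hU.mono (min_le_left _ _)) _ hwm
    have k5 := h1 _ _ k4 _ hwm _ hwm' (by
      rw [← F.H_iter hxy n hv, norm_sub_rev]; exact k2)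
    rw [hα1, hβ1] at k5
    refine ⟨pos_of_mul_pos_left p3 p1.le, pos_of_mul_pos_left p4 p2.le, ?_⟩
    have k6 := (hB _ _ hwm).2
    rw [hα1] at k6
    rw [abs_sub_comm]
    refine k5.trans ?_
    calc η / C * ‖Dn S n x v‖ ^ 2 ≤ η / C * (C * (α * B₀.B x v v)) :=
          mul_le_mul_of_nonneg_left k6 (by positivity)
      _ = η * (α * B₀.B x v v) := by field_simp

end Pool.Agent.H147R2.Vec
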