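import Pool.Agent.H147R2.CV.Alg2

set_option autoImplicit false

namespace Pool.Agent.H147R2.Vec

open Pool.Agent.H721R2 Pool.Agent.H779R2.An Filter Topology MeasureTheory
open scoped BigOperators

variable {X E : Type*} [MetricSpace X] [NormedAddCommGroup E] [NormedSpace ℝ E]
variable {S : HypSys X E} {p : ℕ}

/-! Iterates (vector version of `An/CLevAux.lean`). -/

namespace CV

theorem norm_one (c : CV S p) : ‖(1 : VV p →L[ℝ] VV p)‖ = 1 :=
  norm_one_VV (le_trans (by norm_num) c.hp)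

theorem Lp_zero (c : CV S p) (x : X) : c.Lp 0 x = 1 := rfl

theorem Lp_succ (c : CV S p) (n : ℕ) (x : X) : c.Lp (n + 1) x = c.lam (S.g^[n] x) * c.Lp n x :=
  rfl

theorem Lp_succ' (c : CV S p) (n : ℕ) (x : X) : c.Lp (n + 1) x = c.Lp n (S.g x) * c.lam x := by
  induction n with
  | zero => rw [Lp_succ, Lp_zero, Lp_zero, mul_one, one_mul, Function.iterate_zero_apply]
  | succ n ih => rw [Lp_succ, ih, Lp_succ, Function.iterate_succ_apply, mul_assoc]

theorem Lp_add (c : CV S p) (m n : ℕ) (x : X) :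
    c.Lp (m + n) x = c.Lp m (S.g^[n] x) * c.Lp n x := by
  induction m with
  | zero => rw [Nat.zero_add, Lp_zero, one_mul]
  | succ m ih =>
    rw [Nat.succ_add, Lp_succ, Lp_succ, ih, Function.iterate_add_apply, mul_assoc]

theorem Lp_sim (c : CV S p) (n : ℕ) (x : X) : Sim (c.Lp n x) := by
  induction n with
  | zero => exact sim_one
  | succ n ih => exact (c.lam_sim _).mul ih

theorem Lp_norm_succ' (c : CV S p) (n : ℕ) (x : X) :
    ‖c.Lp (n + 1) x‖ = ‖c.lam (S.g^[n] x)‖ * ‖c.Lp n x‖ := by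
  rw [Lp_succ]
  exact (c.lam_sim _).norm_mul (c.Lp_sim n x)

theorem Lp_ge (c : CV S p) (n : ℕ) (x : X) : (16 : ℝ) ^ n ≤ ‖c.Lp n x‖ := by
  induction n with
  | zero => rw [Lp_zero, c.norm_one, pow_zero]
  | succ n ih =>
    rw [Lp_norm_succ', pow_succ, mul_comm]
    exact mul_le_mul (c.lam_ge _) ih (by positivity) (norm_nonneg _)

theorem Lp_le (c : CV S p) (n : ℕ) (x : X) : ‖c.Lp n x‖ ≤ c.M ^ n := by
  induction n with
  | zero => rw [Lp_zero, c.norm_one, pow_zero]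
  | succ n ih =>
    rw [Lp_norm_succ', pow_succ, mul_comm (c.M ^ n)]
    exact mul_le_mul (c.lam_le _) ih (norm_nonneg _) (le_trans zero_le_one c.one_le_M)

theorem one_le_Lp (c : CV S p) (n : ℕ) (x : X) : 1 ≤ ‖c.Lp n x‖ :=
  le_trans (one_le_pow₀ (by norm_num)) (c.Lp_ge n x)

theorem Lp_norm_pos (c : CV S p) (n : ℕ) (x : X) : 0 < ‖c.Lp n x‖ :=
  lt_of_lt_of_le zero_lt_one (c.one_le_Lp n x)

theorem Lp_norm_succ (c : CV S p) (n : ℕ) (x : X) :
    ‖c.Lp (n + 1) x‖ = ‖c.lam (S.g^[n] x)‖ * ‖c.Lp n x‖ := c.Lp_norm_succ' n x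

theorem cw_pos (c : CV S p) (k : ℕ) (y : X) : 0 < c.cw k y := inv_pos.2 (c.Lp_norm_pos _ _)

theorem cw_le_one (c : CV S p) (k : ℕ) (y : X) : c.cw k y ≤ 1 :=
  inv_le_one_of_one_le₀ (c.one_le_Lp _ _)

theorem cw_le (c : CV S p) (k : ℕ) (y : X) : c.cw k y ≤ (1 / 16 : ℝ) ^ k := by
  unfold cw
  rw [one_div, inv_pow]
  exact inv_anti₀ (by positivity) (c.Lp_ge _ _)

theorem cw_ge (c : CV S p) (k : ℕ) (y : X) : (c.M ^ k)⁻¹ ≤ c.cw k y :=
  inv_anti₀ (c.Lp_norm_pos _ _) (c.Lp_le _ _)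

theorem lc_iter (c : CV S p) {x y : X} (h : UAsym S x y) (n : ℕ) :
    c.lc (S.g^[n] x) (S.g^[n] y) = c.Lp n x (c.lc x y) := by
  induction n with
  | zero => rfl
  | succ n ih =>
    rw [Function.iterate_succ_apply', Function.iterate_succ_apply', c.lc_equi _ _ (h.iter n), ih,
      Lp_succ]
    rfl

theorem tau_iter (c : CV S p) {x y : X} (h : UAsym S x y) (n : ℕ) :
    c.tau (S.g^[n] x) (S.g^[n] y) * c.Lp n x = c.Lp n y * c.tau x y := by
  induction n with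
  | zero =>
    rw [Lp_zero, Lp_zero, mul_one, one_mul, Function.iterate_zero_apply,
      Function.iterate_zero_apply]
  | succ n ih =>
    rw [Function.iterate_succ_apply', Function.iterate_succ_apply', Lp_succ, Lp_succ, ← mul_assoc,
      c.tau_equi _ _ (h.iter n), mul_assoc, ih, mul_assoc]

theorem eta_iter (c : CV S p) {x y : X} (h : SAsym S x y) (n : ℕ) :
    c.eta (S.g^[n] x) (S.g^[n] y) * c.Lp n x = c.Lp n y * c.eta x y := by
  induction n with
  | zero =>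
    rw [Lp_zero, Lp_zero, mul_one, one_mul, Function.iterate_zero_apply,
      Function.iterate_zero_apply]
  | succ n ih =>
    rw [Function.iterate_succ_apply', Function.iterate_succ_apply', Lp_succ, Lp_succ, ← mul_assoc,
      c.eta_equi _ _ (h.iter n), mul_assoc, ih, mul_assoc]

theorem eta_symm_mul (c : CV S p) {x y : X} (h : SAsym S x y) :
    c.eta y x * c.eta x y = 1 := by
  rw [c.eta_comp x y x h h.symm, c.eta_self]

theorem eta_norm_symm (c : CV S p) {x y : X} (h : SAsym S x y) :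
    ‖c.eta y x‖ * ‖c.eta x y‖ = 1 := by
  rw [← (c.eta_sim y x).norm_mul (c.eta_sim x y), c.eta_symm_mul h, c.norm_one]

theorem eta_norm_pos (c : CV S p) {x y : X} (h : SAsym S x y) : 0 < ‖c.eta x y‖ := by
  have h1 := c.eta_norm_symm h
  refine lt_of_le_of_ne (norm_nonneg _) fun h2 => ?_
  rw [← h2, mul_zero] at h1
  exact zero_ne_one h1

theorem tau_symm_mul (c : CV S p) {x y : X} (h : UAsym S x y) :
    c.tau y x * c.tau x y = 1 := by
  rw [c.tau_comp x y x h h.symm, c.tau_self]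

theorem tau_norm_symm (c : CV S p) {x y : X} (h : UAsym S x y) :
    ‖c.tau y x‖ * ‖c.tau x y‖ = 1 := by
  rw [← (c.tau_sim y x).norm_mul (c.tau_sim x y), c.tau_symm_mul h, c.norm_one]

theorem tau_norm_pos (c : CV S p) {x y : X} (h : UAsym S x y) : 0 < ‖c.tau x y‖ := by
  have h1 := c.tau_norm_symm h
  refine lt_of_le_of_ne (norm_nonneg _) fun h2 => ?_
  rw [← h2, mul_zero] at h1
  exact zero_ne_one h1

theorem one_le_eta (c : CV S p) {x y : X} (h : S.SRel c.ε₀ x y) : 1 ≤ c.M * ‖c.eta x y‖ := by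
  have h1 := c.eta_norm_symm (c.geo.sasym _ _ h)
  have h2 := c.eta_le y x h.symm
  have h4 : ‖c.eta y x‖ * ‖c.eta x y‖ ≤ c.M * ‖c.eta x y‖ :=
    mul_le_mul_of_nonneg_right h2 (norm_nonneg _)
  linarith

theorem one_le_tau (c : CV S p) {x y : X} (h : S.URel c.ε₀ x y) : 1 ≤ c.M * ‖c.tau x y‖ := by
  have h1 := c.tau_norm_symm (c.geo.uasym _ _ h)
  have h2 := c.tau_le y x h.symm
  have h4 : ‖c.tau y x‖ * ‖c.tau x y‖ ≤ c.M * ‖c.tau x y‖ :=
    mul_le_mul_of_nonneg_right h2 (norm_nonneg _)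
  linarith

theorem norm_base (c : CV S p) {x y z : X} (h : UAsym S x y) (h' : UAsym S x z) :
    ‖c.lc y z‖ = ‖c.tau x y‖ * ‖c.lc x z - c.lc x y‖ := by
  rw [c.base x y z h h']
  exact c.tau_sim x y _

theorem norm_lc_iter (c : CV S p) {x y : X} (h : UAsym S x y) (n : ℕ) :
    ‖c.lc (S.g^[n] x) (S.g^[n] y)‖ = ‖c.Lp n x‖ * ‖c.lc x y‖ := by
  rw [c.lc_iter h n]
  exact c.Lp_sim n x _

end CV

theorem TH.th_iter {c : CV S p} (T : TH c) {x y : X} (h : SAsym S x y) (n : ℕ) :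
    adj (c.Lp n x) (T.th (S.g^[n] x) (S.g^[n] y)) = T.th x y := by
  induction n with
  | zero =>
    rw [CV.Lp_zero, adj_one]
    rfl
  | succ n ih =>
    rw [Function.iterate_succ_apply', Function.iterate_succ_apply', CV.Lp_succ, adj_mul]
    show adj (c.Lp n x) (adj (c.lam (S.g^[n] x)) (T.th (S.g (S.g^[n] x)) (S.g (S.g^[n] y)))) = _
    rw [T.th_equi _ _ (h.iter n), ih]

theorem TH.norm_th_iter {c : CV S p} (T : TH c) {x y : X} (h : SAsym S x y) (n : ℕ) :
    ‖c.Lp n x‖ * ‖T.th (S.g^[n] x) (S.g^[n] y)‖ = ‖T.th x y‖ := by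
  have h1 := (c.Lp_sim n x).adj (T.th (S.g^[n] x) (S.g^[n] y))
  rw [T.th_iter h n, norm_adj] at h1
  exact h1.symm

end Pool.Agent.H147R2.Vec
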