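import Pool.Agent.H147R2.CV.Defs
import Pool.Agent.H147R2.CV.AuxL

set_option autoImplicit false

namespace Pool.Agent.H147R2.Vec

open Pool.Agent.H721R2 Pool.Agent.H779R2.An Filter Topology MeasureTheory
open scoped BigOperators

variable {X E : Type*} [MetricSpace X] [CompactSpace X] [NormedAddCommGroup E]
  [InnerProductSpace ℝ E] [FiniteDimensional ℝ E] {p : ℕ}

/-! Vector version of `An/CCount.lean`. -/

theorem packing {Y : Type*} (Z : Finset Y) (f : Y → VV p) (a : VV p) (ρ r : ℝ) (hρ : 0 ≤ ρ)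
    (hr : 0 < r) (h1 : ∀ x ∈ Z, ‖f x - a‖ ≤ ρ)
    (h2 : ∀ x ∈ Z, ∀ x' ∈ Z, x ≠ x' → r ≤ ‖f x - f x'‖) :
    (Z.card : ℝ) ≤ (2 * ρ / r + 1) ^ p := by
  have hsub : (⋃ x ∈ Z, Metric.ball (f x) (r / 2)) ⊆ Metric.ball a (ρ + r / 2) := by
    intro y hy
    simp only [Set.mem_iUnion] at hy
    obtain ⟨x, hx, hy⟩ := hy
    rw [Metric.mem_ball] at hy ⊢
    have := h1 x hx
    rw [← dist_eq_norm] at this
    calc dist y a ≤ dist y (f x) + dist (f x) a := dist_triangle _ _ _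
      _ < r / 2 + ρ := by linarith
      _ = ρ + r / 2 := by ring
  have hdisj : (Z : Set Y).PairwiseDisjoint (fun x => Metric.ball (f x) (r / 2)) := by
    intro x hx x' hx' hne
    apply Metric.ball_disjoint_ball
    rw [dist_eq_norm]
    have := h2 x hx x' hx' hne
    linarith
  have hvol : volume (⋃ x ∈ Z, Metric.ball (f x) (r / 2)) =
      ∑ x ∈ Z, volume (Metric.ball (f x) (r / 2)) :=
    measure_biUnion_finset hdisj (fun _ _ => measurableSet_ball)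
  have h3 := measure_mono (μ := volume) hsub
  rw [hvol] at h3
  have hr2 : 0 < r / 2 := by positivity
  have hρr : 0 < ρ + r / 2 := by positivity
  have hfr : Module.finrank ℝ (VV p) = p := finrank_euclideanSpace_fin
  have hb : ∀ (x : VV p) (s : ℝ), 0 < s → volume (Metric.ball x s) =
      ENNReal.ofReal (s ^ p) * volume (Metric.ball (0 : VV p) 1) := by
    intro x s hs
    rw [Measure.addHaar_ball_of_pos volume x hs, hfr]
  rw [hb a _ hρr, Finset.sum_congr rfl (fun x _ => hb (f x) _ hr2), Finset.sum_const,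
    nsmul_eq_mul] at h3
  have hv0 : volume (Metric.ball (0 : VV p) 1) ≠ 0 :=
    (Metric.measure_ball_pos volume _ one_pos).ne'
  have hvt : volume (Metric.ball (0 : VV p) 1) ≠ ⊤ := measure_ball_lt_top.ne
  rw [← mul_assoc, ENNReal.mul_le_mul_iff_left hv0 hvt] at h3
  have h6 : (Z.card : ℝ) * (r / 2) ^ p ≤ (ρ + r / 2) ^ p := by
    have h5 := ENNReal.toReal_mono ENNReal.ofReal_ne_top h3
    rwa [ENNReal.toReal_mul, ENNReal.toReal_natCast, ENNReal.toReal_ofReal (by positivity),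
      ENNReal.toReal_ofReal (by positivity)] at h5
  have h7 : (2 * ρ / r + 1) ^ p = (ρ + r / 2) ^ p / (r / 2) ^ p := by
    rw [← div_pow]
    congr 1
    field_simp
  rw [h7, le_div_iff₀ (by positivity)]
  exact h6

theorem thin {Y : Type*} (Z : Finset Y) (f : Y → VV p) (r a : ℝ) (hr : 0 < r) (ha : 0 < a)
    (h2 : ∀ x ∈ Z, ∀ x' ∈ Z, x ≠ x' → a * r ≤ ‖f x - f x'‖) :
    ∃ W ⊆ Z, (∀ x ∈ W, ∀ x' ∈ W, x ≠ x' → r ≤ ‖f x - f x'‖) ∧
      (Z.card : ℝ) ≤ (2 / a + 1) ^ p * W.card := by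
  classical
  obtain ⟨P, hP⟩ : ∃ P : Finset Y → Prop,
    ∀ W, P W ↔ ∀ x ∈ W, ∀ x' ∈ W, x ≠ x' → r ≤ ‖f x - f x'‖ := ⟨_, fun _ => Iff.rfl⟩
  obtain ⟨W, hW, hmax⟩ := Finset.exists_max_image (Z.powerset.filter P) Finset.card
    ⟨∅, by rw [Finset.mem_filter, Finset.mem_powerset, hP]; simp⟩
  rw [Finset.mem_filter, Finset.mem_powerset, hP] at hW
  refine ⟨W, hW.1, hW.2, ?_⟩
  have hcov : ∀ x ∈ Z, ∃ y ∈ W, ‖f x - f y‖ < r := by
    intro x hx
    by_contra hcon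
    push Not at hcon
    have hxW : x ∉ W := fun h => by
      have := hcon x h
      simp at this
      linarith
    have := hmax (insert x W) (by
      rw [Finset.mem_filter, Finset.mem_powerset, hP]
      refine ⟨Finset.insert_subset hx hW.1, ?_⟩
      intro y hy y' hy' hne
      rcases Finset.mem_insert.mp hy with h1 | h1
      · rcases Finset.mem_insert.mp hy' with h3 | h3
        · exact absurd (h1.trans h3.symm) hne
        · rw [h1]; exact hcon y' h3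
      · rcases Finset.mem_insert.mp hy' with h3 | h3
        · rw [norm_sub_rev, h3]; exact hcon y h1
        · exact hW.2 y h1 y' h3 hne)
    rw [Finset.card_insert_of_notMem hxW] at this
    omega
  have hZ : Z ⊆ W.biUnion (fun y => Z.filter (fun x => ‖f x - f y‖ < r)) := by
    intro x hx
    obtain ⟨y, hy, hxy⟩ := hcov x hx
    exact Finset.mem_biUnion.mpr ⟨y, hy, Finset.mem_filter.mpr ⟨hx, hxy⟩⟩
  have h3 : ∀ y ∈ W, ((Z.filter (fun x => ‖f x - f y‖ < r)).card : ℝ) ≤ (2 / a + 1) ^ p := by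
    intro y _
    have := packing (Z.filter (fun x => ‖f x - f y‖ < r)) f (f y) r (a * r) hr.le (by positivity)
      (fun x hx => (Finset.mem_filter.mp hx).2.le)
      (fun x hx x' hx' hne => h2 x (Finset.mem_filter.mp hx).1 x' (Finset.mem_filter.mp hx').1 hne)
    have h4 : 2 * r / (a * r) = 2 / a := by field_simp
    rwa [h4] at this
  calc (Z.card : ℝ) ≤ ((W.biUnion (fun y => Z.filter (fun x => ‖f x - f y‖ < r))).card : ℝ) := by
        exact_mod_cast Finset.card_le_card hZ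
    _ ≤ ((∑ y ∈ W, (Z.filter (fun x => ‖f x - f y‖ < r)).card : ℕ) : ℝ) := by
        exact_mod_cast Finset.card_biUnion_le
    _ = ∑ y ∈ W, ((Z.filter (fun x => ‖f x - f y‖ < r)).card : ℝ) := by push_cast; rfl
    _ ≤ ∑ _y ∈ W, (2 / a + 1) ^ p := Finset.sum_le_sum h3
    _ = (2 / a + 1) ^ p * W.card := by rw [Finset.sum_const, nsmul_eq_mul]; ring

section aux

variable {S : HypSys X E}

omit [CompactSpace X] [FiniteDimensional ℝ E]

private theorem R_iter' {R : Set X} (hR : MinR S R) (m : ℕ) {x : X} (hx : x ∈ R) :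
    S.g^[m] x ∈ R := by
  induction m with
  | zero => exact hx
  | succ m ih => rw [Function.iterate_succ_apply']; exact hR.map _ ih

private theorem R_symm_iter' {R : Set X} (hR : MinR S R) (m : ℕ) {x : X} (hx : x ∈ R) :
    S.g.symm^[m] x ∈ R := by
  induction m with
  | zero => exact hx
  | succ m ih => rw [Function.iterate_succ_apply']; exact hR.map' _ ih

end aux

theorem sepN_card_le {S : HypSys X E} (c : CV S p) (R : Set X) (z : X) (ρ r : ℝ) (hρ : 0 ≤ ρ)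
    (hr : 0 < r) (n : ℕ) (h : SepN c R z ρ r n) : (n : ℝ) ≤ (2 * ρ / r + 1) ^ p := by
  obtain ⟨Z, rfl, h1, h2⟩ := h
  exact packing Z (c.lc z) 0 ρ r hρ hr (fun x hx => by rw [sub_zero]; exact (h1 x hx).2.2) h2

theorem sepN_thin {S : HypSys X E} (c : CV S p) (R : Set X) (z : X) (ρ r a : ℝ)
    (hr : 0 < r) (ha : 0 < a) (ha1 : a ≤ 1) (n : ℕ) (h : SepN c R z ρ (a * r) n) :
    ∃ m, SepN c R z ρ r m ∧ (n : ℝ) ≤ (2 / a + 1) ^ p * m := by
  obtain ⟨Z, rfl, h1, h2⟩ := h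
  obtain ⟨W, hW, h3, h4⟩ := thin Z (c.lc z) r a hr ha h2
  exact ⟨W.card, ⟨W, rfl, fun x hx => h1 x (hW hx), h3⟩, h4⟩

theorem sepN_mono {S : HypSys X E} {c : CV S p} {R : Set X} {z : X} {ρ ρ' r r' : ℝ} {n : ℕ}
    (hρ : ρ ≤ ρ') (hr : r' ≤ r) (h : SepN c R z ρ r n) : SepN c R z ρ' r' n := by
  obtain ⟨Z, hZ, h1, h2⟩ := h
  exact ⟨Z, hZ, fun x hx => ⟨(h1 x hx).1, (h1 x hx).2.1, (h1 x hx).2.2.trans hρ⟩,
    fun x hx x' hx' hne => hr.trans (h2 x hx x' hx' hne)⟩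

theorem sepN_map {S : HypSys X E} (c : CV S p) {R : Set X} (hR : MinR S R) (z : X) (ρ r : ℝ)
    (n m : ℕ) : SepN c R (S.g^[m] z) (‖c.Lp m z‖ * ρ) (‖c.Lp m z‖ * r) n ↔ SepN c R z ρ r n := by
  classical
  have hpos := c.Lp_norm_pos m z
  have hsim := c.Lp_sim m z
  constructor
  · rintro ⟨Z, rfl, h1, h2⟩
    have hinj : Function.Injective (fun x => S.g.symm^[m] x) := S.g.symm.injective.iterate m
    have hu : ∀ x ∈ Z, UAsym S z (S.g.symm^[m] x) := fun x hx =>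
      UAsym.of_iter m (by rw [iter_iter_symm]; exact (h1 x hx).2.1)
    have hlc : ∀ x ∈ Z, c.lc (S.g^[m] z) x = c.Lp m z (c.lc z (S.g.symm^[m] x)) := fun x hx => by
      have := c.lc_iter (hu x hx) m
      rwa [iter_iter_symm] at this
    refine ⟨Z.image (fun x => S.g.symm^[m] x), Finset.card_image_of_injective _ hinj, ?_, ?_⟩
    · intro y hy
      obtain ⟨x, hx, rfl⟩ := Finset.mem_image.mp hy
      refine ⟨R_symm_iter' hR m (h1 x hx).1, hu x hx, ?_⟩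
      have h3 := (h1 x hx).2.2
      rw [hlc x hx, hsim] at h3
      exact le_of_mul_le_mul_left h3 hpos
    · intro y hy y' hy' hne
      obtain ⟨x, hx, rfl⟩ := Finset.mem_image.mp hy
      obtain ⟨x', hx', rfl⟩ := Finset.mem_image.mp hy'
      have hne' : x ≠ x' := fun h => hne (by rw [h])
      have h3 := h2 x hx x' hx' hne'
      rw [hlc x hx, hlc x' hx', ← map_sub, hsim] at h3
      exact le_of_mul_le_mul_left h3 hpos
  · rintro ⟨Z, rfl, h1, h2⟩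
    have hinj : Function.Injective (fun x => S.g^[m] x) := S.g.injective.iterate m
    refine ⟨Z.image (fun x => S.g^[m] x), Finset.card_image_of_injective _ hinj, ?_, ?_⟩
    · intro y hy
      obtain ⟨x, hx, rfl⟩ := Finset.mem_image.mp hy
      refine ⟨R_iter' hR m (h1 x hx).1, (h1 x hx).2.1.iter m, ?_⟩
      rw [c.lc_iter (h1 x hx).2.1 m, hsim]
      exact mul_le_mul_of_nonneg_left (h1 x hx).2.2 hpos.le
    · intro y hy y' hy' hne
      obtain ⟨x, hx, rfl⟩ := Finset.mem_image.mp hy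
      obtain ⟨x', hx', rfl⟩ := Finset.mem_image.mp hy'
      have hne' : x ≠ x' := fun h => hne (by rw [h])
      rw [c.lc_iter (h1 x hx).2.1 m, c.lc_iter (h1 x' hx').2.1 m, ← map_sub, hsim]
      exact mul_le_mul_of_nonneg_left (h2 x hx x' hx' hne') hpos.le

theorem sepN_base {S : HypSys X E} (c : CV S p) {R : Set X} (z x : X) (hzx : UAsym S z x)
    (ρ r : ℝ) (n : ℕ) (h : SepN c R x ρ r n) :
    SepN c R z (‖c.lc z x‖ + ρ / ‖c.tau z x‖) (r / ‖c.tau z x‖) n := by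
  obtain ⟨Z, rfl, h1, h2⟩ := h
  have hpos : 0 < ‖c.tau z x‖ := c.tau_norm_pos hzx
  have hb : ∀ y ∈ Z, c.lc x y = c.tau z x (c.lc z y - c.lc z x) := fun y hy =>
    c.base z x y hzx (hzx.trans (h1 y hy).2.1)
  refine ⟨Z, rfl, fun y hy => ⟨(h1 y hy).1, hzx.trans (h1 y hy).2.1, ?_⟩, ?_⟩
  · have h3 := (h1 y hy).2.2
    rw [hb y hy, c.tau_sim z x] at h3
    have h4 : ‖c.lc z y - c.lc z x‖ ≤ ρ / ‖c.tau z x‖ := by
      rw [le_div_iff₀ hpos, mul_comm]
      exact h3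
    have h5 : ‖c.lc z y‖ ≤ ‖c.lc z x‖ + ‖c.lc z y - c.lc z x‖ := by
      have := norm_add_le (c.lc z x) (c.lc z y - c.lc z x)
      rwa [add_sub_cancel] at this
    linarith
  · intro y hy y' hy' hne'
    have h3 := h2 y hy y' hy' hne'
    have h4 : c.lc x y - c.lc x y' = c.tau z x (c.lc z y - c.lc z y') := by
      rw [hb y hy, hb y' hy', ← map_sub]
      congr 1
      abel
    rw [h4, c.tau_sim z x] at h3
    rw [div_le_iff₀ hpos, mul_comm]
    exact h3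

theorem tau_bound {S : HypSys X E} (c : CV S p) (A : ℝ) : ∃ C : ℝ, 1 ≤ C ∧ ∀ x y, UAsym S x y →
    ‖c.lc x y‖ ≤ A → ‖c.tau x y‖ ≤ C ∧ 1 ≤ C * ‖c.tau x y‖ := by
  obtain ⟨ρ, hρ, hsmall⟩ := c.small c.ε₀ c.geo.pos
  have hM := c.one_le_M
  obtain ⟨n, hn⟩ : ∃ n : ℕ, A / 16 ^ n ≤ ρ := by
    obtain ⟨n, hn⟩ := exists_nat_ge (A / ρ)
    refine ⟨n, ?_⟩
    rw [div_le_iff₀ (by positivity)]
    have h1 : (n : ℝ) ≤ 16 ^ n := by
      have : n < 16 ^ n := Nat.lt_pow_self (by norm_num)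
      exact_mod_cast this.le
    rw [div_le_iff₀ hρ] at hn
    nlinarith
  refine ⟨c.M ^ (n + 1), one_le_pow₀ hM, ?_⟩
  intro x y hxy hA
  set xn := S.g.symm^[n] x with hxn
  set yn := S.g.symm^[n] y with hyn
  have hu : UAsym S xn yn := hxy.symm_iter n
  have h1 := c.norm_lc_iter hu n
  have h2 := c.tau_iter hu n
  rw [hxn, hyn, iter_iter_symm, iter_iter_symm, ← hxn, ← hyn] at h1 h2
  have hLx := c.Lp_ge n xn
  have hLy := c.Lp_ge n yn
  have hLx' := c.Lp_le n xn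
  have hLy' := c.Lp_le n yn
  have h16 : (1 : ℝ) ≤ 16 ^ n := one_le_pow₀ (by norm_num)
  have h16' : (0 : ℝ) < 16 ^ n := by positivity
  have hlcn : ‖c.lc xn yn‖ ≤ ρ := by
    refine le_trans ?_ hn
    rw [le_div_iff₀ h16']
    rw [h1] at hA
    calc ‖c.lc xn yn‖ * 16 ^ n ≤ ‖c.lc xn yn‖ * ‖c.Lp n xn‖ := by gcongr
      _ = ‖c.Lp n xn‖ * ‖c.lc xn yn‖ := mul_comm _ _
      _ ≤ A := hA
  have hrel := hsmall xn yn hu hlcn
  have h3 := c.tau_le xn yn hrel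
  have h6 : 1 ≤ c.M * ‖c.tau xn yn‖ := c.one_le_tau hrel
  have h7 := congrArg norm h2
  rw [Sim.norm_mul (c.tau_sim _ _) (c.Lp_sim _ _), Sim.norm_mul (c.Lp_sim _ _) (c.tau_sim _ _)]
    at h7
  have ht0 := norm_nonneg (c.tau x y)
  have hMn : (0 : ℝ) < c.M ^ n := by positivity
  constructor
  · calc ‖c.tau x y‖ ≤ ‖c.tau x y‖ * ‖c.Lp n xn‖ := by
          have : 1 ≤ ‖c.Lp n xn‖ := h16.trans hLx
          nlinarith
      _ = ‖c.Lp n yn‖ * ‖c.tau xn yn‖ := h7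
      _ ≤ c.M ^ n * c.M := by gcongr
      _ = c.M ^ (n + 1) := (pow_succ _ _).symm
  · have h8 : 1 ≤ c.M * (‖c.tau x y‖ * ‖c.Lp n xn‖) := by
      rw [h7]
      calc 1 ≤ c.M * ‖c.tau xn yn‖ := h6
        _ = 1 * (c.M * ‖c.tau xn yn‖) := (one_mul _).symm
        _ ≤ ‖c.Lp n yn‖ * (c.M * ‖c.tau xn yn‖) := by
            gcongr
            exact h16.trans hLy
        _ = c.M * (‖c.Lp n yn‖ * ‖c.tau xn yn‖) := by ring
    calc 1 ≤ c.M * (‖c.tau x y‖ * ‖c.Lp n xn‖) := h8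
      _ ≤ c.M * (‖c.tau x y‖ * c.M ^ n) := by gcongr
      _ = c.M ^ (n + 1) * ‖c.tau x y‖ := by ring

theorem ratio {S : HypSys X E} (c : CV S p) {A Cτ : ℝ} (hC1 : 1 ≤ Cτ)
    (hC : ∀ x y, UAsym S x y → ‖c.lc x y‖ ≤ A → ‖c.tau x y‖ ≤ Cτ ∧ 1 ≤ Cτ * ‖c.tau x y‖)
    (k : ℕ) {y x : X} (h : UAsym S y x) (hA : ‖c.lc y x‖ ≤ A) :
    c.cw k y ≤ Cτ ^ 2 * c.cw k x ∧ c.cw k x ≤ Cτ ^ 2 * c.cw k y := by
  set w := S.g.symm^[k] y with hw
  set z := S.g.symm^[k] x with hz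
  have hwz : UAsym S w z := h.symm_iter k
  have h1 := c.tau_iter hwz k
  have h2 := c.norm_lc_iter hwz k
  rw [hw, hz, iter_iter_symm, iter_iter_symm, ← hw, ← hz] at h1 h2
  have hLw := c.one_le_Lp k w
  have hLz := c.one_le_Lp k z
  have h3 : ‖c.lc w z‖ ≤ A := by
    rw [h2] at hA
    have := norm_nonneg (c.lc w z)
    nlinarith
  obtain ⟨t1, t2⟩ := hC y x h hA
  obtain ⟨t3, t4⟩ := hC w z hwz h3
  have h4 : ‖c.tau y x‖ * ‖c.Lp k w‖ = ‖c.Lp k z‖ * ‖c.tau w z‖ := by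
    rw [← Sim.norm_mul (c.tau_sim _ _) (c.Lp_sim _ _), ← Sim.norm_mul (c.Lp_sim _ _) (c.tau_sim _ _),
      h1]
  have hCτ0 : 0 < Cτ := by linarith
  have hw0 : 0 < ‖c.Lp k w‖ := by linarith
  have hz0 : 0 < ‖c.Lp k z‖ := by linarith
  unfold CV.cw
  rw [← hw, ← hz]
  set a := ‖c.Lp k w‖
  set b := ‖c.Lp k z‖
  set s := ‖c.tau y x‖
  set q := ‖c.tau w z‖
  -- `s a = b q`, `s ≤ C`, `1 ≤ C s`, `q ≤ C`, `1 ≤ C q`
  constructor
  · -- `1/a ≤ C² / b`, i.e. `b ≤ C² a`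
    rw [← div_eq_mul_inv, inv_eq_one_div, div_le_div_iff₀ hw0 hz0]
    have e1 : b ≤ Cτ * q * b := by nlinarith
    have e2 : Cτ * q * b = Cτ * (s * a) := by rw [h4]; ring
    have e3 : s * a ≤ Cτ * a := mul_le_mul_of_nonneg_right t1 hw0.le
    have e4 : Cτ * (s * a) ≤ Cτ * (Cτ * a) := mul_le_mul_of_nonneg_left e3 hCτ0.le
    calc 1 * b = b := one_mul b
      _ ≤ Cτ * q * b := e1
      _ = Cτ * (s * a) := e2
      _ ≤ Cτ * (Cτ * a) := e4
      _ = Cτ ^ 2 * a := by ring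
  · rw [← div_eq_mul_inv, inv_eq_one_div, div_le_div_iff₀ hz0 hw0]
    have e1 : a ≤ Cτ * s * a := by nlinarith
    have e2 : Cτ * s * a = Cτ * (b * q) := by rw [← h4]; ring
    have e3 : b * q ≤ b * Cτ := mul_le_mul_of_nonneg_left t3 hz0.le
    have e4 : Cτ * (b * q) ≤ Cτ * (b * Cτ) := mul_le_mul_of_nonneg_left e3 hCτ0.le
    calc 1 * a = a := one_mul a
      _ ≤ Cτ * s * a := e1
      _ = Cτ * (b * q) := e2
      _ ≤ Cτ * (b * Cτ) := e4
      _ = Cτ ^ 2 * b := by ring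

end Pool.Agent.H147R2.Vec
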