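import Pool.Agent.H147R2.CV.Defs
import Pool.Agent.H147R2.CV.AuxL
import Pool.Agent.H147R2.CV.Count

set_option autoImplicit false

namespace Pool.Agent.H147R2.Vec

open Pool.Agent.H721R2 Pool.Agent.H779R2.An Filter Topology MeasureTheory
open scoped BigOperators

variable {X E : Type*} [MetricSpace X] [CompactSpace X] [NormedAddCommGroup E]
  [InnerProductSpace ℝ E] [FiniteDimensional ℝ E] {p : ℕ}

/-- A time at which a disc of radius `w` has size between `1` and `M`. -/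
theorem Down_time {S : HypSys X E} (c : CV S p) (z : X) {w : ℝ} (h0 : 0 < w) (h1 : w ≤ 1) :
    ∃ m : ℕ, 1 ≤ ‖c.Lp m z‖ * w ∧ ‖c.Lp m z‖ * w ≤ c.M := by
  classical
  have hex : ∃ m : ℕ, 1 ≤ ‖c.Lp m z‖ * w := by
    obtain ⟨m, hm⟩ := pow_unbounded_of_one_lt (1 / w) (by norm_num : (1 : ℝ) < 16)
    refine ⟨m, ?_⟩
    have := c.Lp_ge m z
    rw [div_lt_iff₀ h0] at hm
    nlinarith
  refine ⟨Nat.find hex, Nat.find_spec hex, ?_⟩
  rcases Nat.eq_zero_or_pos (Nat.find hex) with h | h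
  · rw [h, c.Lp_zero, c.norm_one, one_mul]
    exact h1.trans c.one_le_M
  · obtain ⟨k, hk⟩ := Nat.exists_eq_add_of_le' h
    have hlt := Nat.find_min hex (show k < Nat.find hex by omega)
    rw [hk, c.Lp_norm_succ]
    push Not at hlt
    calc ‖c.lam (S.g^[k] z)‖ * ‖c.Lp k z‖ * w = (‖c.Lp k z‖ * w) * ‖c.lam (S.g^[k] z)‖ := by ring
      _ ≤ 1 * c.M := by
          apply mul_le_mul hlt.le (c.lam_le _) (norm_nonneg _) (by norm_num)
      _ = c.M := one_mul _

theorem Down_diff {S : HypSys X E} (c : CV S p) {v z x x' : X} (hvz : UAsym S v z)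
    (hvx : UAsym S v x) (hvx' : UAsym S v x') :
    ‖c.lc z x - c.lc z x'‖ = ‖c.tau v z‖ * ‖c.lc v x - c.lc v x'‖ := by
  rw [c.base v z x hvz hvx, c.base v z x' hvz hvx', ← map_sub, c.tau_sim v z]
  congr 2
  abel

theorem down_bound {S : HypSys X E} (c : CV S p) {R : Set X} (hR : MinR S R)
    (hB : UpperB c R) (hA : LowerA c R) : DownBound c R := by
  classical
  intro v x₀ hx₀ hvx₀ δ₀ hδ₀ C₁ hC₁
  have htp : 0 < ‖c.tau v x₀‖ := c.tau_norm_pos hvx₀
  set t : ℝ := ‖c.tau v x₀‖ with ht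
  obtain ⟨CA, hCA0, hCA⟩ := hA (δ₀ * t) (by positivity)
  obtain ⟨Cτ, hCτ1, hCτ⟩ := tau_bound c (‖c.lc v x₀‖ + δ₀)
  have hCτ0 : 0 < Cτ := by linarith
  have hM : 0 < c.M := by linarith [c.one_le_M]
  obtain ⟨CU, hCU0, hCU⟩ := hB.2.2 (2 * C₁ * Cτ * c.M) (by positivity)
  set a : ℝ := min 1 (1 / (t * Cτ)) with ha
  have ha0 : 0 < a := by rw [ha]; positivity
  have ha1 : a ≤ 1 := min_le_left _ _
  obtain ⟨Ca, hCa0, hCa⟩ := hB.2.1 a ha0 ha1
  refine ⟨CA * (CU * Ca), by positivity, ?_⟩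
  intro r ι Y ζ ω hr hY hcov
  have hr1 : r ≤ 1 := by
    obtain ⟨y, hy, _⟩ := hcov x₀ hx₀ hvx₀ (by rw [sub_self, norm_zero]; exact hδ₀.le)
    exact (hY y hy).1.trans (hY y hy).2
  obtain ⟨n, ⟨Z, hZn, hZ1, hZ2⟩, hn⟩ := hCA x₀ hx₀ r hr hr1
  have hdiff : ∀ x ∈ Z, ‖c.lc v x - c.lc v x₀‖ ≤ δ₀ := by
    intro x hx
    have h1 := (hZ1 x hx).2.2
    rw [c.norm_base hvx₀ (hvx₀.trans (hZ1 x hx).2.1)] at h1
    have h2 : t * ‖c.lc v x - c.lc v x₀‖ ≤ t * δ₀ := by linarith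
    exact le_of_mul_le_mul_left h2 htp
  have hsep : ∀ x ∈ Z, ∀ x' ∈ Z, x ≠ x' → r ≤ t * ‖c.lc v x - c.lc v x'‖ := by
    intro x hx x' hx' hne
    have h1 := hZ2 x hx x' hx' hne
    rwa [Down_diff c hvx₀ (hvx₀.trans (hZ1 x hx).2.1) (hvx₀.trans (hZ1 x' hx').2.1)] at h1
  have hf : ∀ x : X, ∃ y : ι, x ∈ Z → y ∈ Y ∧ ‖c.lc v x - ζ y‖ ≤ C₁ * ω y := by
    intro x
    by_cases hx : x ∈ Z
    · obtain ⟨y, hy, hy'⟩ := hcov x (hZ1 x hx).1 (hvx₀.trans (hZ1 x hx).2.1) (hdiff x hx)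
      exact ⟨y, fun _ => ⟨hy, hy'⟩⟩
    · obtain ⟨y, _, _⟩ := hcov x₀ hx₀ hvx₀ (by rw [sub_self, norm_zero]; exact hδ₀.le)
      exact ⟨y, fun h => absurd h hx⟩
  choose f hf using hf
  have hcard : Z.card = ∑ y ∈ Y, (Z.filter (fun x => f x = y)).card :=
    Finset.card_eq_sum_card_fiberwise (fun x hx => (hf x hx).1)
  have hone : ∀ y ∈ Y, ((Z.filter (fun x => f x = y)).card : ℝ) ≤
      CU * Ca * (Sf c R (r / ω y) : ℝ) := by
    intro y hy
    have hω0 : 0 < ω y := lt_of_lt_of_le hr (hY y hy).1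
    rcases (Z.filter (fun x => f x = y)).eq_empty_or_nonempty with he | ⟨z, hz⟩
    · rw [he]
      simp only [Finset.card_empty, Nat.cast_zero]
      positivity
    · obtain ⟨hzZ, hzy⟩ := Finset.mem_filter.mp hz
      have hvz : UAsym S v z := hvx₀.trans (hZ1 z hzZ).2.1
      have hlcz : ‖c.lc v z‖ ≤ ‖c.lc v x₀‖ + δ₀ := by
        have h1 := hdiff z hzZ
        have h2 : c.lc v z = (c.lc v z - c.lc v x₀) + c.lc v x₀ := by abel
        calc ‖c.lc v z‖ = ‖(c.lc v z - c.lc v x₀) + c.lc v x₀‖ := by rw [← h2]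
          _ ≤ ‖c.lc v z - c.lc v x₀‖ + ‖c.lc v x₀‖ := norm_add_le _ _
          _ ≤ _ := by linarith
      obtain ⟨hs1, hs2⟩ := hCτ v z hvz hlcz
      have hsep1 : SepN c R z (2 * C₁ * Cτ * ω y) (r / (t * Cτ))
          (Z.filter (fun x => f x = y)).card := by
        refine ⟨Z.filter (fun x => f x = y), rfl, ?_, ?_⟩
        · intro x hx
          obtain ⟨hxZ, hxy⟩ := Finset.mem_filter.mp hx
          have hvx : UAsym S v x := hvx₀.trans (hZ1 x hxZ).2.1
          refine ⟨(hZ1 x hxZ).1, hvz.symm.trans hvx, ?_⟩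
          rw [c.norm_base hvz hvx]
          have h1 := (hf x hxZ).2
          have h2 := (hf z hzZ).2
          rw [hxy] at h1
          rw [hzy] at h2
          have h3 : ‖c.lc v x - c.lc v z‖ ≤ 2 * C₁ * ω y := by
            have h4 : c.lc v x - c.lc v z = (c.lc v x - ζ y) - (c.lc v z - ζ y) := by abel
            rw [h4]
            calc _ ≤ ‖c.lc v x - ζ y‖ + ‖c.lc v z - ζ y‖ := norm_sub_le _ _
              _ ≤ _ := by linarith
          calc ‖c.tau v z‖ * ‖c.lc v x - c.lc v z‖ ≤ Cτ * (2 * C₁ * ω y) :=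
                mul_le_mul hs1 h3 (norm_nonneg _) hCτ0.le
            _ = _ := by ring
        · intro x hx x' hx' hne
          obtain ⟨hxZ, hxy⟩ := Finset.mem_filter.mp hx
          obtain ⟨hxZ', hxy'⟩ := Finset.mem_filter.mp hx'
          have hvx : UAsym S v x := hvx₀.trans (hZ1 x hxZ).2.1
          have hvx' : UAsym S v x' := hvx₀.trans (hZ1 x' hxZ').2.1
          rw [Down_diff c hvz hvx hvx', div_le_iff₀ (by positivity)]
          have h3 := hsep x hxZ x' hxZ' hne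
          calc r ≤ t * ‖c.lc v x - c.lc v x'‖ := h3
            _ = 1 * (t * ‖c.lc v x - c.lc v x'‖) := by ring
            _ ≤ (Cτ * ‖c.tau v z‖) * (t * ‖c.lc v x - c.lc v x'‖) :=
                mul_le_mul_of_nonneg_right hs2 (by positivity)
            _ = _ := by ring
      obtain ⟨m, hm1, hm2⟩ := Down_time c z hω0 (hY y hy).2
      have hsep2 := (sepN_map c hR z _ _ _ m).mpr hsep1
      have hgz : S.g^[m] z ∈ R := by
        have : ∀ m : ℕ, S.g^[m] z ∈ R := by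
          intro m
          induction m with
          | zero => exact (hZ1 z hzZ).1
          | succ m ih => rw [Function.iterate_succ_apply']; exact hR.map _ ih
        exact this m
      have hrω : 0 < r / ω y := by positivity
      have hsep3 : SepN c R (S.g^[m] z) (2 * C₁ * Cτ * c.M) (a * (r / ω y))
          (Z.filter (fun x => f x = y)).card := by
        refine sepN_mono ?_ ?_ hsep2
        · calc ‖c.Lp m z‖ * (2 * C₁ * Cτ * ω y) = 2 * C₁ * Cτ * (‖c.Lp m z‖ * ω y) := by ring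
            _ ≤ _ := mul_le_mul_of_nonneg_left hm2 (by positivity)
        · calc a * (r / ω y) ≤ 1 / (t * Cτ) * (r / ω y) :=
                mul_le_mul_of_nonneg_right (min_le_right _ _) hrω.le
            _ = 1 * (r / (t * Cτ) / ω y) := by field_simp
            _ ≤ (‖c.Lp m z‖ * ω y) * (r / (t * Cτ) / ω y) :=
                mul_le_mul_of_nonneg_right hm1 (by positivity)
            _ = _ := by field_simp
      have h1 := hCU _ hgz (a * (r / ω y)) (by positivity) _ hsep3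
      have h2 := hCa (r / ω y) hrω
      calc _ ≤ CU * (Sf c R (a * (r / ω y)) : ℝ) := h1
        _ ≤ CU * (Ca * (Sf c R (r / ω y) : ℝ)) := mul_le_mul_of_nonneg_left h2 hCU0.le
        _ = _ := by ring
  calc (Sf c R r : ℝ) ≤ CA * n := hn
    _ = CA * ∑ y ∈ Y, ((Z.filter (fun x => f x = y)).card : ℝ) := by
        rw [← hZn, hcard]
        push_cast
        rfl
    _ ≤ CA * ∑ y ∈ Y, CU * Ca * (Sf c R (r / ω y) : ℝ) :=
        mul_le_mul_of_nonneg_left (Finset.sum_le_sum hone) hCA0.le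
    _ = CA * (CU * Ca) * ∑ y ∈ Y, (Sf c R (r / ω y) : ℝ) := by
        rw [← Finset.mul_sum]
        ring

end Pool.Agent.H147R2.Vec
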