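import Pool.Agent.H147R2.CV.Defs
import Pool.Agent.H147R2.CV.Alg1
import Pool.Agent.H779R2.An.Assembly
import Pool.Agent.H147R2.CV.Conf1

set_option autoImplicit false

namespace Pool.Agent.H147R2.Vec

open Pool.Agent.H721R2 Pool.Agent.H779R2.An Filter Topology MeasureTheory
open scoped BigOperators

namespace ExCV

theorem frame0 {W : Type*} [AddCommGroup W] [Module ℝ W] [FiniteDimensional ℝ W]
    (B : W →ₗ[ℝ] W →ₗ[ℝ] ℝ) (hs : ∀ v w, B v w = B w v) (hp : ∀ v, v ≠ 0 → 0 < B v v) (p : ℕ)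
    (h : Module.finrank ℝ W = p) : ∃ e : W ≃ₗ[ℝ] VV p, ∀ w, ‖e w‖ ^ 2 = B w w := by
  let core : InnerProductSpace.Core ℝ W :=
    { inner := fun v w => B v w
      conj_inner_symm := fun v w => by simpa using hs w v
      re_inner_nonneg := fun v => by
        by_cases hv : v = 0
        · subst hv
          simp
        · simpa using (hp v hv).le
      add_left := fun u v w => by simp
      smul_left := fun u v r => by simp
      definite := fun v hv => by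
        by_contra hne
        exact absurd hv (hp v hne).ne' }
  let : NormedAddCommGroup W := core.toNormedAddCommGroup
  let : InnerProductSpace ℝ W := InnerProductSpace.ofCore core.toCore
  let b : OrthonormalBasis (Fin p) ℝ W := (stdOrthonormalBasis ℝ W).reindex (finCongr h)
  refine ⟨b.repr.toLinearEquiv, fun w => ?_⟩
  have h1 : ‖b.repr w‖ = ‖w‖ := b.repr.norm_map w
  have h2 : inner ℝ w w = B w w := rfl
  rw [← h2, real_inner_self_eq_norm_sq, ← h1]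
  rfl

theorem frame {E : Type*} [NormedAddCommGroup E] [InnerProductSpace ℝ E] [FiniteDimensional ℝ E]
    (W : Submodule ℝ E) (p : ℕ) (hW : Module.finrank ℝ W = p) (B : E →ₗ[ℝ] E →ₗ[ℝ] ℝ)
    (hs : ∀ v ∈ W, ∀ w ∈ W, B v w = B w v) (hp : ∀ v ∈ W, v ≠ 0 → 0 < B v v) :
    ∃ (co : E →ₗ[ℝ] VV p) (ve : VV p →ₗ[ℝ] E), (∀ u, ve u ∈ W) ∧ (∀ u, co (ve u) = u) ∧
      (∀ v ∈ W, ve (co v) = v) ∧ (∀ v ∈ W, ‖co v‖ ^ 2 = B v v) := by
  obtain ⟨e, he⟩ := frame0 (W := W) (B.compl₁₂ W.subtype W.subtype)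
    (fun v w => hs v v.2 w w.2) (fun v hv => hp v v.2 (fun h => hv (Subtype.ext h))) p hW
  obtain ⟨P, hP⟩ := W.subtype.exists_leftInverse_of_injective
    (LinearMap.ker_eq_bot.2 W.injective_subtype)
  have hP' : ∀ w : W, P (w : E) = w := fun w => by
    have := LinearMap.congr_fun hP w
    exact this
  refine ⟨e.toLinearMap ∘ₗ P, W.subtype ∘ₗ e.symm.toLinearMap, fun u => ?_, fun u => ?_,
    fun v hv => ?_, fun v hv => ?_⟩
  · exact (e.symm u).2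
  · change e (P ((e.symm u : W) : E)) = u
    rw [hP', LinearEquiv.apply_symm_apply]
  · change ((e.symm (e (P v)) : W) : E) = v
    rw [LinearEquiv.symm_apply_apply]
    have := hP' ⟨v, hv⟩
    exact congrArg Subtype.val this
  · change ‖e (P v)‖ ^ 2 = B v v
    have := hP' ⟨v, hv⟩
    change P v = _ at this
    rw [this, he]
    rfl

theorem sim_of {p : ℕ} (A : VV p →L[ℝ] VV p) (k : ℝ) (hk : 0 ≤ k) (h : ∀ u, ‖A u‖ = k * ‖u‖) :
    Sim A := by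
  have h1 : ‖A‖ ≤ k := A.opNorm_le_bound hk fun u => (h u).le
  intro u
  refine le_antisymm (A.le_opNorm u) ?_
  rw [h u]
  exact mul_le_mul_of_nonneg_right h1 (norm_nonneg u)

variable {X E : Type*} [MetricSpace X] [CompactSpace X] [NormedAddCommGroup E]
  [InnerProductSpace ℝ E] [FiniteDimensional ℝ E]

/-- frames -/
structure Fr {S : HypSys X E} (B₀ : CB0 S) (p : ℕ) where
  m : X → ℝ
  m_pos : ∀ x, 0 < m x
  C : ℝ
  one_le : 1 ≤ C
  co : X → E →ₗ[ℝ] VV p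
  ve : X → VV p →ₗ[ℝ] E
  ve_mem : ∀ x u, ve x u ∈ S.Vu x
  co_ve : ∀ x u, co x (ve x u) = u
  ve_co : ∀ x, ∀ v ∈ S.Vu x, ve x (co x v) = v
  sq : ∀ x, ∀ v ∈ S.Vu x, ‖co x v‖ ^ 2 = m x * B₀.B x v v
  le : ∀ x, ∀ v ∈ S.Vu x, ‖v‖ ≤ ‖co x v‖
  ge : ∀ x, ∀ v ∈ S.Vu x, ‖co x v‖ ≤ C * ‖v‖
  expd : ∀ x, ∀ v ∈ S.Vu x, 16 * ‖co x v‖ ≤ ‖co (S.g x) (S.D x v)‖

theorem exists_fr {S : HypSys X E} (B₀ : CB0 S) (p : ℕ) (hp : 3 ≤ p)
    (h : ∀ x, Module.finrank ℝ (S.Vu x) = p) : Nonempty (Fr B₀ p) := by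
  obtain ⟨C, hC, hb⟩ := B₀.exists_bound
  have h16 : ∀ x, ∀ v ∈ S.Vu x, 16 * ‖v‖ ≤ ‖S.D x v‖ := fun x v hv => by
    have := le_Dn S 1 x hv
    rwa [pow_one, Dn_succ, Dn_zero, Function.iterate_zero, id] at this
  set Rs : X → Set ℝ := fun x => {r | ∃ v ∈ S.Vu x, v ≠ 0 ∧ r = ‖v‖ ^ 2 / B₀.B x v v} with hRs
  have hbdd : ∀ x, BddAbove (Rs x) := fun x => ⟨C, by
    rintro r ⟨v, hv, hv0, rfl⟩
    rw [div_le_iff₀ (B₀.pos x v hv hv0)]
    exact (hb x v hv).2⟩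
  have hne : ∀ x, ∃ v ∈ S.Vu x, v ≠ 0 := by
    intro x
    have h3 : 0 < Module.finrank ℝ (S.Vu x) := by rw [h x]; omega
    obtain ⟨w, hw⟩ := (Module.finrank_pos_iff_exists_ne_zero).1 h3
    exact ⟨w, w.2, fun h => hw (Subtype.ext h)⟩
  have hneR : ∀ x, (Rs x).Nonempty := fun x => by
    obtain ⟨v, hv, hv0⟩ := hne x
    exact ⟨_, v, hv, hv0, rfl⟩
  set m : X → ℝ := fun x => sSup (Rs x) with hm
  have hm1 : ∀ x, ∀ v ∈ S.Vu x, ‖v‖ ^ 2 ≤ m x * B₀.B x v v := by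
    intro x v hv
    by_cases hv0 : v = 0
    · subst hv0
      simp
    · have h1 := B₀.pos x v hv hv0
      rw [← div_le_iff₀ h1]
      exact le_csSup (hbdd x) ⟨v, hv, hv0, rfl⟩
  have hmpos : ∀ x, 0 < m x := by
    intro x
    obtain ⟨v, hv, hv0⟩ := hne x
    have h1 := B₀.pos x v hv hv0
    have h2 := hm1 x v hv
    have h3 : 0 < ‖v‖ ^ 2 := by
      have := norm_pos_iff.2 hv0
      positivity
    by_contra hcon
    push Not at hcon
    nlinarith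
  have hmC : ∀ x, m x ≤ C := fun x => csSup_le (hneR x) (by
    rintro r ⟨v, hv, hv0, rfl⟩
    rw [div_le_iff₀ (B₀.pos x v hv hv0)]
    exact (hb x v hv).2)
  have hm2 : ∀ x, 256 * m x ≤ m (S.g x) * B₀.φ x := by
    intro x
    have h1 : m x ≤ m (S.g x) * B₀.φ x / 256 := by
      refine csSup_le (hneR x) ?_
      rintro r ⟨v, hv, hv0, rfl⟩
      have h2 := B₀.pos x v hv hv0
      rw [div_le_iff₀ h2]
      have h3 := hm1 (S.g x) (S.D x v) (S.mapU x v hv)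
      rw [B₀.conf x v hv] at h3
      have h4 := h16 x v hv
      have h5 : (16 * ‖v‖) ^ 2 ≤ ‖S.D x v‖ ^ 2 := pow_le_pow_left₀ (by positivity) h4 2
      nlinarith
    linarith
  have hfr : ∀ x, ∃ (co : E →ₗ[ℝ] VV p) (ve : VV p →ₗ[ℝ] E), (∀ u, ve u ∈ S.Vu x) ∧
      (∀ u, co (ve u) = u) ∧ (∀ v ∈ S.Vu x, ve (co v) = v) ∧
      (∀ v ∈ S.Vu x, ‖co v‖ ^ 2 = (m x • B₀.B x) v v) := fun x =>
    frame (S.Vu x) p (h x) (m x • B₀.B x)
      (fun v hv w hw => by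
        simp only [LinearMap.smul_apply, smul_eq_mul]
        rw [B₀.symm x v hv w hw])
      (fun v hv hv0 => by
        simp only [LinearMap.smul_apply, smul_eq_mul]
        exact mul_pos (hmpos x) (B₀.pos x v hv hv0))
  choose co ve h1 h2 h3 h4 using hfr
  have hsq : ∀ x, ∀ v ∈ S.Vu x, ‖co x v‖ ^ 2 = m x * B₀.B x v v := fun x v hv => by
    have := h4 x v hv
    simpa only [LinearMap.smul_apply, smul_eq_mul] using this
  refine ⟨⟨m, hmpos, max C 1, le_max_right _ _, co, ve, h1, h2, h3, hsq, ?_, ?_, ?_⟩⟩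
  · intro x v hv
    have h5 := hm1 x v hv
    rw [← hsq x v hv] at h5
    exact (pow_le_pow_iff_left₀ (norm_nonneg _) (norm_nonneg _) two_ne_zero).1 h5
  · intro x v hv
    have h5 := (hb x v hv).1
    have h6 : ‖co x v‖ ^ 2 ≤ (max C 1 * ‖v‖) ^ 2 := by
      rw [hsq x v hv]
      have h7 : 0 ≤ B₀.B x v v := by
        by_cases hv0 : v = 0
        · subst hv0
          simp
        · exact (B₀.pos x v hv hv0).le
      calc m x * B₀.B x v v ≤ C * (C * ‖v‖ ^ 2) :=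
            mul_le_mul (hmC x) h5 h7 hC.le
        _ = C ^ 2 * ‖v‖ ^ 2 := by ring
        _ ≤ (max C 1) ^ 2 * ‖v‖ ^ 2 := by
            apply mul_le_mul_of_nonneg_right _ (by positivity)
            exact pow_le_pow_left₀ hC.le (le_max_left _ _) 2
        _ = _ := by ring
    exact (pow_le_pow_iff_left₀ (norm_nonneg _) (by positivity) two_ne_zero).1 h6
  · intro x v hv
    have h5 : (16 * ‖co x v‖) ^ 2 ≤ ‖co (S.g x) (S.D x v)‖ ^ 2 := by
      rw [mul_pow, hsq x v hv, hsq _ _ (S.mapU x v hv), B₀.conf x v hv]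
      have h7 : 0 ≤ B₀.B x v v := by
        by_cases hv0 : v = 0
        · subst hv0
          simp
        · exact (B₀.pos x v hv hv0).le
      have h8 := hm2 x
      nlinarith
    exact (pow_le_pow_iff_left₀ (by positivity) (norm_nonneg _) two_ne_zero).1 h5

section

variable {S : HypSys X E} {B₀ : CB0 S} {p : ℕ} (Φ : Fr B₀ p)

/-- a linear map in frames -/
noncomputable def mt (x y : X) (L : E →ₗ[ℝ] E) : VV p →L[ℝ] VV p :=
  LinearMap.toContinuousLinearMap (Φ.co y ∘ₗ L ∘ₗ Φ.ve x)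

omit [CompactSpace X] in
theorem mt_apply (x y : X) (L : E →ₗ[ℝ] E) (u : VV p) :
    mt Φ x y L u = Φ.co y (L (Φ.ve x u)) := rfl

omit [CompactSpace X] in
theorem mt_co (x y : X) (L : E →ₗ[ℝ] E) {v : E} (hv : v ∈ S.Vu x) :
    mt Φ x y L (Φ.co x v) = Φ.co y (L v) := by
  rw [mt_apply, Φ.ve_co x v hv]

omit [CompactSpace X] in
theorem mt_mul (x y z : X) (L L' : E →ₗ[ℝ] E) (hL : ∀ v ∈ S.Vu x, L v ∈ S.Vu y) (u : VV p) :
    (mt Φ y z L' * mt Φ x y L) u = Φ.co z (L' (L (Φ.ve x u))) := by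
  change mt Φ y z L' (mt Φ x y L u) = _
  rw [mt_apply Φ x y, mt_co Φ y z L' (hL _ (Φ.ve_mem x u))]

omit [CompactSpace X] in
theorem norm_ve_le (x : X) (u : VV p) : ‖Φ.ve x u‖ ≤ ‖u‖ := by
  have := Φ.le x _ (Φ.ve_mem x u)
  rwa [Φ.co_ve] at this

omit [CompactSpace X] in
theorem mt_norm (x y : X) (L : E →ₗ[ℝ] E) (K : ℝ) (hK : 0 ≤ K)
    (hL : ∀ v ∈ S.Vu x, L v ∈ S.Vu y) (h : ∀ v ∈ S.Vu x, ‖L v‖ ≤ K * ‖v‖) :
    ‖mt Φ x y L‖ ≤ Φ.C * K := by
  have hC : 0 ≤ Φ.C := by linarith [Φ.one_le]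
  refine ContinuousLinearMap.opNorm_le_bound _ (by positivity) fun u => ?_
  rw [mt_apply]
  have hm := Φ.ve_mem x u
  calc ‖Φ.co y (L (Φ.ve x u))‖ ≤ Φ.C * ‖L (Φ.ve x u)‖ := Φ.ge y _ (hL _ hm)
    _ ≤ Φ.C * (K * ‖Φ.ve x u‖) := mul_le_mul_of_nonneg_left (h _ hm) hC
    _ ≤ Φ.C * (K * ‖u‖) :=
        mul_le_mul_of_nonneg_left (mul_le_mul_of_nonneg_left (norm_ve_le Φ x u) hK) hC
    _ = Φ.C * K * ‖u‖ := by ring

omit [CompactSpace X] in
theorem mt_sim (x y : X) (L : E →ₗ[ℝ] E) (s : ℝ) (hs : 0 ≤ s)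
    (hL : ∀ v ∈ S.Vu x, L v ∈ S.Vu y)
    (h : ∀ v ∈ S.Vu x, B₀.B y (L v) (L v) = s * B₀.B x v v) : Sim (mt Φ x y L) := by
  have hq : 0 ≤ Φ.m y * s / Φ.m x :=
    div_nonneg (mul_nonneg (Φ.m_pos y).le hs) (Φ.m_pos x).le
  refine sim_of _ (√(Φ.m y * s / Φ.m x)) (Real.sqrt_nonneg _) fun u => ?_
  rw [mt_apply]
  have hm := Φ.ve_mem x u
  have h1 := Φ.sq y _ (hL _ hm)
  rw [h _ hm] at h1
  have h2 := Φ.sq x _ hm
  rw [Φ.co_ve] at h2
  have h3 : ‖Φ.co y (L (Φ.ve x u))‖ ^ 2 = (√(Φ.m y * s / Φ.m x) * ‖u‖) ^ 2 := by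
    rw [mul_pow, Real.sq_sqrt hq, h1, h2]
    have := (Φ.m_pos x).ne'
    field_simp
  exact (pow_left_inj₀ (norm_nonneg _) (by positivity) two_ne_zero).1 h3

omit [CompactSpace X] in
theorem co_inj (x : X) {v w : E} (hv : v ∈ S.Vu x) (hw : w ∈ S.Vu x)
    (h : Φ.co x v = Φ.co x w) : v = w := by
  rw [← Φ.ve_co x v hv, h, Φ.ve_co x w hw]

open Classical in
/-- the map in frames if a condition holds -/
noncomputable def mi (P : Prop) (x y : X) (L : E →ₗ[ℝ] E) : VV p →L[ℝ] VV p :=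
  if P then mt Φ x y L else 0

omit [CompactSpace X] in
theorem mi_pos {P : Prop} (hP : P) (x y : X) (L : E →ₗ[ℝ] E) : mi Φ P x y L = mt Φ x y L :=
  if_pos hP

omit [CompactSpace X] in
theorem mi_sim {P : Prop} (x y : X) (L : E →ₗ[ℝ] E) (h : P → Sim (mt Φ x y L)) :
    Sim (mi Φ P x y L) := by
  unfold mi
  split_ifs with hP
  · exact h hP
  · intro u
    simp

end

/-- The data. -/
noncomputable def mk {S : HypSys X E} (F : Flat S) (B₀ : CB0 S) (hconf : ConfProp F B₀) (p : ℕ)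
    (hp : 3 ≤ p) (Φ : Fr B₀ p) (ε : ℝ) (hε : 0 < ε) (hε' : ε ≤ F.ε₀)
    (hCD : ∀ w w', S.SRel ε w w' → ∀ η > 0, ∃ ρ > 0, ∀ q q', S.URel ε w q → ‖F.Lc w q‖ ≤ ρ →
      S.SRel ε q q' → S.URel ε w' q' →
      ‖F.Lc w' q' - F.H w w' (F.Lc w q)‖ ≤ η * ‖F.Lc w q‖)
    (hCC : ∀ w w', S.SRel ε w w' → ∀ η > 0, ∃ ρ > 0, ∀ q q', S.URel ε w q → ‖F.Lc w q‖ ≤ ρ →
      S.SRel ε q q' → S.URel ε w' q' → ∀ v ∈ S.Vu w,
      ‖F.τ q' w' (F.H q q' (F.τ w q v)) - F.H w w' v‖ ≤ η * ‖v‖) : CV S p where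
  hp := hp
  ε₀ := ε
  geo := F.geo.mono hε hε'
  M := Φ.C * (S.Lu + 2)
  one_le_M := by
    have h1 := Φ.one_le
    have h3 := S.one_le_Lu
    nlinarith
  lam := fun x => mt Φ x (S.g x) (S.D x)
  lam_sim := fun x => by
    obtain ⟨v, hv0⟩ : ∃ v : VV p, v ≠ 0 := by
      have : Nontrivial (VV p) := by
        have : Nonempty (Fin p) := ⟨⟨0, by omega⟩⟩
        infer_instance
      exact exists_ne 0
    have hφ : 0 ≤ B₀.φ x := by
      have h1 := Φ.ve_mem x v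
      have h2 : Φ.ve x v ≠ 0 := fun h => hv0 (by rw [← Φ.co_ve x v, h, map_zero])
      have h3 := B₀.pos x _ h1 h2
      have h4 := B₀.conf x _ h1
      have h5 := Φ.sq (S.g x) _ (S.mapU x _ h1)
      rw [h4] at h5
      have h6 := Φ.m_pos (S.g x)
      by_contra hcon
      push Not at hcon
      have h7 : 0 ≤ ‖Φ.co (S.g x) (S.D x (Φ.ve x v))‖ ^ 2 := by positivity
      rw [h5] at h7
      have h8 : Φ.m (S.g x) * (B₀.φ x * B₀.B x (Φ.ve x v) (Φ.ve x v)) < 0 :=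
        mul_neg_of_pos_of_neg h6 (mul_neg_of_neg_of_pos hcon h3)
      linarith
    exact mt_sim Φ x (S.g x) (S.D x) (B₀.φ x) hφ (S.mapU x) (B₀.conf x)
  lam_ge := fun x => by
    obtain ⟨v, hv0⟩ : ∃ v : VV p, v ≠ 0 := by
      have : Nontrivial (VV p) := by
        have : Nonempty (Fin p) := ⟨⟨0, by omega⟩⟩
        infer_instance
      exact exists_ne 0
    have h1 := Φ.expd x _ (Φ.ve_mem x v)
    rw [Φ.co_ve] at h1
    have h2 := (mt Φ x (S.g x) (S.D x)).le_opNorm v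
    rw [mt_apply] at h2
    have h3 := norm_pos_iff.2 hv0
    exact le_of_mul_le_mul_right (h1.trans h2) h3
  lam_le := fun x => by
    have h1 := mt_norm Φ x (S.g x) (S.D x) S.Lu (by linarith [S.one_le_Lu]) (S.mapU x)
      (S.boundU x)
    have h3 := Φ.one_le
    nlinarith
  lc := fun x y => Φ.co x (F.Lc x y)
  tau := fun x y => mi Φ (UAsym S x y) x y (F.τ x y)
  tau_sim := fun x y => mi_sim Φ x y _ fun h => by
    obtain ⟨s, hs, h1⟩ := hconf.1 x y h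
    exact mt_sim Φ x y _ s hs.le (F.τ_mem x y h) h1
  eta := fun x y => mi Φ (SAsym S x y) x y (F.H x y)
  eta_sim := fun x y => mi_sim Φ x y _ fun h => by
    obtain ⟨s, hs, h1⟩ := hconf.2 x y h
    exact mt_sim Φ x y _ s hs.le (F.H_mem x y h) h1
  lc_equi := fun x y h => by
    rw [F.Lc_equi x y h, mt_co Φ x (S.g x) (S.D x) (F.Lc_mem x y h)]
  lc_self := fun x => by rw [F.Lc_self, map_zero]
  lc_le := fun x y h => by
    have h' := h.mono hε'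
    have hm := F.Lc_mem x y (F.geo.uasym x y h')
    have h1 := Φ.ge x _ hm
    have h3 := F.Lc_le x y h'
    have h4 := Φ.one_le
    have h5 := S.one_le_Lu
    have h6 : 0 ≤ dist x y := dist_nonneg
    calc ‖Φ.co x (F.Lc x y)‖ ≤ Φ.C * ‖F.Lc x y‖ := h1
      _ ≤ Φ.C * (2 * dist x y) := mul_le_mul_of_nonneg_left h3 (by linarith)
      _ ≤ Φ.C * (S.Lu + 2) * dist x y := by
        rw [mul_assoc]
        exact mul_le_mul_of_nonneg_left (mul_le_mul_of_nonneg_right (by linarith) h6) (by linarith)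
  dist_le := fun x y h => by
    have h' := h.mono hε'
    have hm := F.Lc_mem x y (F.geo.uasym x y h')
    have h1 := Φ.le x _ hm
    have h3 := F.dist_le x y h'
    have h4 := Φ.one_le
    have h5 := S.one_le_Lu
    have h7 : 2 ≤ Φ.C * (S.Lu + 2) := by nlinarith
    calc dist x y ≤ 2 * ‖F.Lc x y‖ := h3
      _ ≤ 2 * ‖Φ.co x (F.Lc x y)‖ := by linarith
      _ ≤ _ := mul_le_mul_of_nonneg_right h7 (norm_nonneg _)
  inj := fun x y z hy hz h =>
    F.inj x y z hy hz (co_inj Φ x (F.Lc_mem x y hy) (F.Lc_mem x z hz) h)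
  surj := fun δ hδ => by
    obtain ⟨ρ, hρ, hs⟩ := F.surj δ hδ
    refine ⟨ρ, hρ, fun x u hu => ?_⟩
    obtain ⟨y, hy, hyv⟩ := hs x (Φ.ve x u) (Φ.ve_mem x u) ((norm_ve_le Φ x u).trans hu)
    exact ⟨y, hy, by rw [hyv, Φ.co_ve]⟩
  small := fun δ hδ => by
    obtain ⟨ρ, hρ, hs⟩ := F.small δ hδ
    refine ⟨ρ, hρ, fun x y hxy h => ?_⟩
    exact hs x y hxy ((Φ.le x _ (F.Lc_mem x y hxy)).trans h)
  tau_self := fun x => by
    rw [mi_pos Φ (UAsym.refl S x)]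
    refine ContinuousLinearMap.ext fun u => ?_
    rw [mt_apply, F.τ_self x _ (Φ.ve_mem x u), Φ.co_ve]
    rfl
  tau_comp := fun x y z hxy hyz => by
    rw [mi_pos Φ hxy, mi_pos Φ hyz, mi_pos Φ (hxy.trans hyz)]
    refine ContinuousLinearMap.ext fun u => ?_
    rw [mt_mul Φ x y z _ _ (F.τ_mem x y hxy), F.τ_comp x y z hxy hyz _ (Φ.ve_mem x u), mt_apply]
  tau_equi := fun x y hxy => by
    rw [mi_pos Φ hxy, mi_pos Φ hxy.map]
    refine ContinuousLinearMap.ext fun u => ?_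
    rw [mt_mul Φ x (S.g x) (S.g y) _ _ (S.mapU x), mt_mul Φ x y (S.g y) _ _ (F.τ_mem x y hxy),
      F.τ_equi x y hxy _ (Φ.ve_mem x u)]
  tau_le := fun x y h => by
    have h' := h.mono hε'
    have ha := F.geo.uasym x y h'
    rw [mi_pos Φ ha]
    have h1 := mt_norm Φ x y (F.τ x y) 2 (by norm_num) (F.τ_mem x y ha) (F.τ_le x y h')
    have h3 := Φ.one_le
    have h4 := S.one_le_Lu
    nlinarith
  base := fun x y z hxy hxz => by
    rw [mi_pos Φ hxy, F.base x y z hxy hxz, ← map_sub,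
      mt_co Φ x y _ ((S.Vu x).sub_mem (F.Lc_mem x z hxz) (F.Lc_mem x y hxy))]
  eta_self := fun x => by
    rw [mi_pos Φ (SAsym.refl S x)]
    refine ContinuousLinearMap.ext fun u => ?_
    rw [mt_apply, F.H_self x _ (Φ.ve_mem x u), Φ.co_ve]
    rfl
  eta_comp := fun x y z hxy hyz => by
    rw [mi_pos Φ hxy, mi_pos Φ hyz, mi_pos Φ (hxy.trans hyz)]
    refine ContinuousLinearMap.ext fun u => ?_
    rw [mt_mul Φ x y z _ _ (F.H_mem x y hxy), F.H_comp x y z hxy hyz _ (Φ.ve_mem x u), mt_apply]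
  eta_equi := fun x y hxy => by
    rw [mi_pos Φ hxy, mi_pos Φ hxy.map]
    refine ContinuousLinearMap.ext fun u => ?_
    rw [mt_mul Φ x (S.g x) (S.g y) _ _ (S.mapU x), mt_mul Φ x y (S.g y) _ _ (F.H_mem x y hxy),
      F.H_equi x y hxy _ (Φ.ve_mem x u)]
  eta_le := fun x y h => by
    have h' := h.mono hε'
    have ha := F.geo.sasym x y h'
    rw [mi_pos Φ ha]
    have h1 := mt_norm Φ x y (F.H x y) 2 (by norm_num) (F.H_mem x y ha) (F.H_le x y h')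
    have h3 := Φ.one_le
    have h4 := S.one_le_Lu
    nlinarith
  cd := fun w w' hw η hη => by
    have h3 := Φ.one_le
    have hw' := F.geo.sasym w w' (hw.mono hε')
    obtain ⟨ρ, hρ, hcd⟩ := hCD w w' hw (η / Φ.C) (by positivity)
    refine ⟨ρ, hρ, fun q q' hq hqρ hqq' hq' => ?_⟩
    have hqU := F.geo.uasym w q (hq.mono hε')
    have hq'U := F.geo.uasym w' q' (hq'.mono hε')
    have hm := F.Lc_mem w q hqU
    have hm' := F.Lc_mem w' q' hq'U
    have hHm := F.H_mem w w' hw' _ hm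
    have h4 := hcd q q' hq ((Φ.le w _ hm).trans hqρ) hqq' hq'
    rw [mi_pos Φ hw', mt_co Φ w w' _ hm, ← map_sub]
    have h5 := Φ.ge w' _ ((S.Vu w').sub_mem hm' hHm)
    have h6 := Φ.le w _ hm
    calc ‖Φ.co w' (F.Lc w' q' - F.H w w' (F.Lc w q))‖
        ≤ Φ.C * ‖F.Lc w' q' - F.H w w' (F.Lc w q)‖ := h5
      _ ≤ Φ.C * (η / Φ.C * ‖F.Lc w q‖) := mul_le_mul_of_nonneg_left h4 (by linarith)
      _ = η * ‖F.Lc w q‖ := by field_simp
      _ ≤ η * ‖Φ.co w (F.Lc w q)‖ := mul_le_mul_of_nonneg_left h6 hη.le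
  cc := fun w w' hw η hη => by
    have h3 := Φ.one_le
    have hw' := F.geo.sasym w w' (hw.mono hε')
    obtain ⟨ρ, hρ, hcc⟩ := hCC w w' hw (η / Φ.C) (by positivity)
    refine ⟨ρ, hρ, fun q q' hq hqρ hqq' hq' => ?_⟩
    have hqU := F.geo.uasym w q (hq.mono hε')
    have hq'U := F.geo.uasym w' q' (hq'.mono hε')
    have hqqS := F.geo.sasym q q' (hqq'.mono hε')
    have hm := F.Lc_mem w q hqU
    have h4 := hcc q q' hq ((Φ.le w _ hm).trans hqρ) hqq' hq'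
    rw [mi_pos Φ hw', mi_pos Φ hqU, mi_pos Φ hqqS, mi_pos Φ hq'U.symm]
    refine ContinuousLinearMap.opNorm_le_bound _ hη.le fun u => ?_
    have hu := Φ.ve_mem w u
    have h5 := F.τ_mem w q hqU _ hu
    have h6 := F.H_mem q q' hqqS _ h5
    have h7 := F.τ_mem q' w' hq'U.symm _ h6
    have h8 := F.H_mem w w' hw' _ hu
    have e1 : (mt Φ q' w' (F.τ q' w') * mt Φ q q' (F.H q q') * mt Φ w q (F.τ w q) -
        mt Φ w w' (F.H w w')) u =
        Φ.co w' (F.τ q' w' (F.H q q' (F.τ w q (Φ.ve w u))) - F.H w w' (Φ.ve w u)) := by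
      change (mt Φ q' w' (F.τ q' w') (mt Φ q q' (F.H q q') (mt Φ w q (F.τ w q) u))) -
        mt Φ w w' (F.H w w') u = _
      rw [mt_apply Φ w q, mt_co Φ q q' _ h5, mt_co Φ q' w' _ h6, mt_apply, ← map_sub]
    rw [e1]
    calc _ ≤ Φ.C * ‖F.τ q' w' (F.H q q' (F.τ w q (Φ.ve w u))) - F.H w w' (Φ.ve w u)‖ :=
          Φ.ge w' _ ((S.Vu w').sub_mem h7 h8)
      _ ≤ Φ.C * (η / Φ.C * ‖Φ.ve w u‖) := mul_le_mul_of_nonneg_left (h4 _ hu) (by linarith)
      _ = η * ‖Φ.ve w u‖ := by field_simp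
      _ ≤ η * ‖u‖ := mul_le_mul_of_nonneg_left (norm_ve_le Φ w u) hη.le

end ExCV

variable {X E : Type*} [MetricSpace X] [CompactSpace X] [NormedAddCommGroup E]
  [InnerProductSpace ℝ E] [FiniteDimensional ℝ E] {p : ℕ}

/-- Conformal linearization data in orthonormal frames. -/
theorem exists_cv {S : HypSys X E} (F : Flat S) (B₀ : CB0 S) (hconf : ConfProp F B₀)
    (hcd : CDProp F) (hcc : CCProp F) (p : ℕ) (hp : 3 ≤ p)
    (h : ∀ x, Module.finrank ℝ (S.Vu x) = p) : Nonempty (CV S p) := by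
  obtain ⟨Φ⟩ := ExCV.exists_fr B₀ p hp h
  obtain ⟨ε, hε, hcd⟩ := hcd
  obtain ⟨ε', hε', hcc⟩ := hcc
  have hF := F.geo.pos
  have l1 : min (min ε ε') F.ε₀ ≤ ε := (min_le_left _ _).trans (min_le_left _ _)
  have l2 : min (min ε ε') F.ε₀ ≤ ε' := (min_le_left _ _).trans (min_le_right _ _)
  refine ⟨ExCV.mk F B₀ hconf p hp Φ (min (min ε ε') F.ε₀) (lt_min (lt_min hε hε') hF)
    (min_le_right _ _) (fun w w' hw η hη => ?_) (fun w w' hw η hη => ?_)⟩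
  · obtain ⟨ρ, hρ, h⟩ := hcd w w' (hw.mono l1) η hη
    exact ⟨ρ, hρ, fun q q' h1 h3 h4 h5 => h q q' (h1.mono l1) h3 (h4.mono l1) (h5.mono l1)⟩
  · obtain ⟨ρ, hρ, h⟩ := hcc w w' (hw.mono l2) η hη
    exact ⟨ρ, hρ, fun q q' h1 h3 h4 h5 => h q q' (h1.mono l2) h3 (h4.mono l2) (h5.mono l2)⟩

end Pool.Agent.H147R2.Vec
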