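import Pool.Agent.H147R2.CV.Defs
import Pool.Agent.H147R2.CV.AuxL

set_option autoImplicit false

namespace Pool.Agent.H147R2.Vec

open Pool.Agent.H721R2 Pool.Agent.H779R2.An Filter Topology MeasureTheory
open scoped BigOperators

variable {X E : Type*} [MetricSpace X] [CompactSpace X] [NormedAddCommGroup E]
  [InnerProductSpace ℝ E] [FiniteDimensional ℝ E] {p : ℕ}

theorem lev_prop {S : HypSys X E} {c : CV S p} (T : TH c) : LevProp T := by
  refine ⟨T.C, T.C_pos, T.ε, T.ε_pos, le_rfl, ?_⟩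
  intro k y y' h
  have hs : SAsym S (S.g.symm^[k] y) (S.g.symm^[k] y') := c.geo.sasym _ _ (h.mono T.ε_le)
  have h2 := T.norm_th_iter hs k
  rw [iter_iter_symm, iter_iter_symm] at h2
  have h3 := T.th_le _ _ h
  have hL := c.Lp_norm_pos k (S.g.symm^[k] y)
  unfold CV.cw
  rw [← div_eq_mul_inv, le_div_iff₀ hL, mul_comm, h2]
  exact h3

end Pool.Agent.H147R2.Vec
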