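import Pool.Agent.H147R2.CV.Defs
import Pool.Agent.H779R2.Li.VMain

set_option autoImplicit false

namespace Pool.Agent.H147R2.Vec

open Pool.Agent.H721R2 Pool.Agent.H779R2.An Filter Topology MeasureTheory
open scoped BigOperators

open Metric in
/-- Liouville's theorem for injective `C¹` conformal maps of a ball of `ℝ^p`, `p ≥ 3`. -/
theorem liouville {p : ℕ} (hp : 3 ≤ p) (ρ : ℝ) (hρ : 0 < ρ) (h : VV p → VV p)
    (hC : ContDiffOn ℝ 1 h (ball 0 ρ)) (hinj : Set.InjOn h (ball 0 ρ))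
    (hconf : ∀ u ∈ ball (0 : VV p) ρ, ∃ s > 0, ∀ v, ‖fderiv ℝ h u v‖ = s * ‖v‖) (h0 : h 0 = 0) :
    ∃ θ : VV p, ρ * ‖θ‖ ≤ 1 ∧ ∀ u ∈ ball (0 : VV p) ρ, h u = mobV (fderiv ℝ h 0) θ u := by
  haveI : Nonempty (Fin p) := ⟨⟨0, by omega⟩⟩
  have key : ∀ u ∈ ball (0 : VV p) ρ, Pool.Agent.H779R2.Li.Conf (fderiv ℝ h u) ∧
      fderiv ℝ h u ≠ 0 := by
    intro u hu
    obtain ⟨s, hs, hv⟩ := hconf u hu
    obtain ⟨e, he⟩ := exists_ne (0 : VV p)
    have hnorm : ‖fderiv ℝ h u‖ = s := by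
      apply le_antisymm
      · exact ContinuousLinearMap.opNorm_le_bound _ hs.le (fun v => (hv v).le)
      · have h1 := (fderiv ℝ h u).le_opNorm e
        rw [hv] at h1
        exact le_of_mul_le_mul_right h1 (norm_pos_iff.mpr he)
    refine ⟨fun v => by rw [hv, hnorm], ?_⟩
    intro h2
    rw [h2, norm_zero] at hnorm
    exact hs.ne hnorm
  have H : Pool.Agent.H779R2.Li.CM ρ h := ⟨hC, fun x hx => (key x hx).1, fun x hx => (key x hx).2⟩
  obtain ⟨b, hb, hb2⟩ := Pool.Agent.H779R2.Li.liouville hp hρ H h0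
  refine ⟨b, ?_, ?_⟩
  · calc ρ * ‖b‖ ≤ ρ * (1 / ρ) := mul_le_mul_of_nonneg_left hb hρ.le
      _ = 1 := by field_simp
  · intro u hu
    rw [(hb2 u hu).2]
    unfold Pool.Agent.H779R2.Li.mobD mobV tm
    rw [map_smul]
    rfl

end Pool.Agent.H147R2.Vec
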