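import Pool.Agent.H147R2.CV.Defs
import Pool.Agent.H147R2.CV.AuxL
import Pool.Agent.H147R2.CV.Liou

set_option autoImplicit false

namespace Pool.Agent.H147R2.Vec

open Pool.Agent.H721R2 Pool.Agent.H779R2.An Filter Topology MeasureTheory
open scoped BigOperators

variable {X E : Type*} [MetricSpace X] [CompactSpace X] [NormedAddCommGroup E]
  [InnerProductSpace ℝ E] [FiniteDimensional ℝ E] {p : ℕ}

/-- The local stable holonomy is Moebius. -/
theorem mob_loc {S : HypSys X E} (c : CV S p) (h : HolV c) : MobLoc c := by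
  classical
  obtain ⟨ρ₀, hρ₀, ε, hε, hεc, hm, hh⟩ := h
  have key : ∀ z z', S.SRel ε z z' → ∃ θ : VV p, ρ₀ * ‖θ‖ ≤ 1 ∧
      ∀ u ∈ Metric.ball (0 : VV p) ρ₀, hm z z' u = mobV (c.eta z z') θ u := by
    intro z z' hz
    obtain ⟨h1, h2, h3, h4, h5, -⟩ := hh z z' hz
    obtain ⟨θ, hθ, hu⟩ := liouville c.hp ρ₀ hρ₀ (hm z z') h1 h2 h3 h4
    refine ⟨θ, hθ, fun u hu' => ?_⟩
    rw [hu u hu', h5]
  choose! th hth hth2 using key
  have hM : 0 < c.M := lt_of_lt_of_le one_pos c.one_le_M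
  set ε' : ℝ := min ε (ρ₀ / (2 * c.M)) with hε'
  have hε'0 : 0 < ε' := lt_min hε (by positivity)
  have hε'1 : ε' ≤ ε := min_le_left _ _
  have hε'2 : ε' ≤ ρ₀ / (2 * c.M) := min_le_right _ _
  refine ⟨ε', hε'0, hε'1.trans hεc, 1 / ρ₀, by positivity, th, ?_, ?_⟩
  · intro z z' hz
    rw [le_div_iff₀ hρ₀, mul_comm]
    exact hth z z' (hz.mono hε'1)
  · intro z z' q q' hz hq hqq hq'
    have hz1 := hz.mono hε'1
    have hd : dist z q ≤ ε' := by
      have := hq 0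
      simpa using this
    have h1 : ‖c.lc z q‖ ≤ ρ₀ / 2 := by
      refine (c.lc_le z q (hq.mono (hε'1.trans hεc))).trans ?_
      calc c.M * dist z q ≤ c.M * (ρ₀ / (2 * c.M)) :=
            mul_le_mul_of_nonneg_left (hd.trans hε'2) hM.le
        _ = ρ₀ / 2 := by field_simp
    obtain ⟨-, -, -, -, -, h6⟩ := hh z z' hz1
    obtain ⟨h7, h8⟩ := h6 q q' (hq.mono hε'1) (hqq.mono hε'1) (hq'.mono hε'1)
    refine ⟨?_, ?_⟩
    · have h9 := hth z z' hz1
      calc ‖th z z'‖ * ‖c.lc z q‖ ≤ ‖th z z'‖ * (ρ₀ / 2) :=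
            mul_le_mul_of_nonneg_left h1 (norm_nonneg _)
        _ = (ρ₀ * ‖th z z'‖) / 2 := by ring
        _ ≤ 1 / 2 := by linarith
    · rw [h8]
      exact hth2 z z' hz1 _ (by simpa using h7)

end Pool.Agent.H147R2.Vec
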