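import Pool.Agent.H147R2.CV.Defs
import Pool.Agent.H147R2.CV.AuxL
import Pool.Agent.H147R2.CV.Count

set_option autoImplicit false

namespace Pool.Agent.H147R2.Vec

open Pool.Agent.H721R2 Pool.Agent.H779R2.An Filter Topology MeasureTheory
open scoped BigOperators

variable {X E : Type*} [MetricSpace X] [CompactSpace X] [NormedAddCommGroup E]
  [InnerProductSpace ℝ E] [FiniteDimensional ℝ E] {p : ℕ}

namespace LowerV

theorem net {α : Type*} (Z : Finset α) (f : α → VV p) (δ : ℝ) :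
    ∃ Y ⊆ Z, (∀ y ∈ Y, ∀ y' ∈ Y, y ≠ y' → δ ≤ ‖f y - f y'‖) ∧
      ∀ z ∈ Z, z ∈ Y ∨ ∃ y ∈ Y, ‖f z - f y‖ < δ := by
  classical
  induction Z using Finset.induction_on with
  | empty => exact ⟨∅, by simp, by simp, by simp⟩
  | insert a Z ha ih =>
    obtain ⟨Y, hY, h1, h2⟩ := ih
    by_cases h : ∃ y ∈ Y, ‖f a - f y‖ < δ
    · refine ⟨Y, hY.trans (Finset.subset_insert _ _), h1, fun z hz => ?_⟩
      rcases Finset.mem_insert.mp hz with rfl | hz
      · exact Or.inr h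
      · exact h2 z hz
    · push Not at h
      refine ⟨insert a Y, Finset.insert_subset_insert _ hY, fun y hy y' hy' hne => ?_,
        fun z hz => ?_⟩
      · rcases Finset.mem_insert.mp hy with e | k
        · rcases Finset.mem_insert.mp hy' with e' | k'
          · exact absurd (e.trans e'.symm) hne
          · rw [e]; exact h y' k'
        · rcases Finset.mem_insert.mp hy' with e' | k'
          · rw [norm_sub_rev, e']; exact h y k
          · exact h1 y k y' k' hne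
      · rcases Finset.mem_insert.mp hz with rfl | hz
        · exact Or.inl (Finset.mem_insert_self _ _)
        · rcases h2 z hz with h3 | ⟨y, hy, h3⟩
          · exact Or.inl (Finset.mem_insert_of_mem h3)
          · exact Or.inr ⟨y, Finset.mem_insert_of_mem hy, h3⟩

variable {S : HypSys X E} (c : CV S p) {R : Set X}

/-- transfer relation -/
def Tr (R : Set X) (y z : X) : Prop :=
  ∀ ρ > 0, ∃ δ > 0, ∃ C : ℝ, 0 < C ∧ ∀ r, 0 < r → ∀ n, SepN c R y δ r n → SepN c R z ρ (r / C) n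

omit [CompactSpace X] [FiniteDimensional ℝ E] in
theorem Tr.trans {x y z : X} (h : Tr c R x y) (h' : Tr c R y z) : Tr c R x z := by
  intro ρ hρ
  obtain ⟨δ', hδ', C', hC', h1⟩ := h' ρ hρ
  obtain ⟨δ, hδ, C, hC, h2⟩ := h δ' hδ'
  refine ⟨δ, hδ, C * C', by positivity, fun r hr n hn => ?_⟩
  have := h1 (r / C) (by positivity) n (h2 r hr n hn)
  rwa [div_div] at this

theorem Tr.map (hR : MinR S R) (m : ℕ) (z : X) : Tr c R z (S.g^[m] z) := by
  intro ρ hρ
  have hL := c.one_le_Lp m z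
  have hL0 : 0 < ‖c.Lp m z‖ := by linarith
  refine ⟨ρ / ‖c.Lp m z‖, by positivity, 1, one_pos, fun r hr n hn => ?_⟩
  have h1 := (sepN_map c hR z _ _ n m).mpr hn
  rw [mul_div_cancel₀ _ hL0.ne'] at h1
  refine sepN_mono (c := c) le_rfl ?_ h1
  rw [div_one]
  nlinarith

theorem Tr.unmap (hR : MinR S R) (m : ℕ) (z : X) : Tr c R (S.g^[m] z) z := by
  intro ρ hρ
  have hL := c.one_le_Lp m z
  have hL0 : 0 < ‖c.Lp m z‖ := by linarith
  refine ⟨‖c.Lp m z‖ * ρ, by positivity, ‖c.Lp m z‖, hL0, fun r hr n hn => ?_⟩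
  refine (sepN_map c hR z _ _ n m).mp ?_
  rwa [mul_div_cancel₀ _ hL0.ne']

theorem Tr.sasym (hR : MinR S R) (hT : TransProp c R) {y z : X} (hy : y ∈ R) (hz : z ∈ R)
    (h : SAsym S y z) : Tr c R y z := by
  obtain ⟨ε, hε, δ₁, hδ₁, C, hC, hT⟩ := hT
  intro ρ hρ
  have hmem : ∀ (m : ℕ) (x : X), x ∈ R → S.g^[m] x ∈ R := by
    intro m x hx
    induction m with
    | zero => exact hx
    | succ m ih => rw [Function.iterate_succ_apply']; exact hR.map _ ih
  obtain ⟨N, hN⟩ := h.eventually (ε := min ε (ρ / (2 * C))) (lt_min hε (by positivity))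
  have hd := (hN N le_rfl).dist_le
  set L := ‖c.Lp N z‖ with hL
  set Λ := ‖c.Lp N y‖ with hΛ
  have hL1 : 1 ≤ L := c.one_le_Lp N z
  have hΛ1 : 1 ≤ Λ := c.one_le_Lp N y
  have hL0 : 0 < L := by linarith
  have hΛ0 : 0 < Λ := by linarith
  have hC0 : 0 < C := by linarith
  refine ⟨min δ₁ (ρ / (2 * C)) / Λ, by positivity, C * L, by positivity, fun r hr n hn => ?_⟩
  have h1 := (sepN_map c hR y _ _ n N).mpr hn
  rw [← hΛ, mul_div_cancel₀ _ hΛ0.ne'] at h1
  have h2 := hT _ (hmem N y hy) _ (hmem N z hz) (hd.trans (min_le_left _ _))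
    (min δ₁ (ρ / (2 * C))) (lt_min hδ₁ (by positivity)) (min_le_left _ _) (Λ * r)
    (by positivity) n h1
  have h3 : SepN c R (S.g^[N] z) (L * ρ) (L * (r / (C * L))) n := by
    refine sepN_mono (c := c) ?_ ?_ h2
    · have e1 : min δ₁ (ρ / (2 * C)) ≤ ρ / (2 * C) := min_le_right _ _
      have e2 := hd.trans (min_le_right ε (ρ / (2 * C)))
      calc C * (min δ₁ (ρ / (2 * C)) + dist (S.g^[N] y) (S.g^[N] z))
          ≤ C * (ρ / (2 * C) + ρ / (2 * C)) := by gcongr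
        _ = 1 * ρ := by field_simp; ring
        _ ≤ L * ρ := by gcongr
    · have : L * (r / (C * L)) = 1 * r / C := by field_simp
      rw [this]
      gcongr
  exact (sepN_map c hR z _ _ n N).mp h3

theorem Tr.all (hR : MinR S R) (hT : TransProp c R) (hD : DenseProp S R) {x z : X}
    (hx : x ∈ R) (hz : z ∈ R) : Tr c R x z := by
  intro ρ hρ
  obtain ⟨ε, hε, δ₁, hδ₁, C, hC, hT'⟩ := id hT
  have hC0 : 0 < C := by linarith
  have hmem : ∀ (m : ℕ) (x : X), x ∈ R → S.g^[m] x ∈ R := by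
    intro m x hx
    induction m with
    | zero => exact hx
    | succ m ih => rw [Function.iterate_succ_apply']; exact hR.map _ ih
  have hmem' : ∀ (m : ℕ) (x : X), x ∈ R → S.g.symm^[m] x ∈ R := by
    intro m x hx
    induction m with
    | zero => exact hx
    | succ m ih => rw [Function.iterate_succ_apply']; exact hR.map' _ ih
  obtain ⟨y, hy, hyz, n, hn⟩ := hD x hx z hz (min ε (ρ / (2 * C))) (lt_min hε (by positivity))
  have hTr : Tr c R x y := by
    rcases hn with hn | hn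
    · exact (Tr.map c hR n x).trans c (Tr.sasym c hR hT (hmem n x hx) hy hn)
    · have h1 := Tr.unmap c hR n (S.g.symm^[n] x)
      rw [iter_iter_symm] at h1
      exact h1.trans c (Tr.sasym c hR hT (hmem' n x hx) hy hn)
  obtain ⟨δ, hδ, C', hC', h1⟩ := hTr (min δ₁ (ρ / (2 * C))) (lt_min hδ₁ (by positivity))
  refine ⟨δ, hδ, C' * C, by positivity, fun r hr n hn => ?_⟩
  have h2 := hT' y hy z hz (hyz.le.trans (min_le_left _ _)) (min δ₁ (ρ / (2 * C)))
    (lt_min hδ₁ (by positivity)) (min_le_left _ _) (r / C') (by positivity) n (h1 r hr n hn)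
  rw [div_div] at h2
  refine sepN_mono (c := c) ?_ le_rfl h2
  have e1 : min δ₁ (ρ / (2 * C)) ≤ ρ / (2 * C) := min_le_right _ _
  have e2 := hyz.le.trans (min_le_right ε (ρ / (2 * C)))
  calc C * (min δ₁ (ρ / (2 * C)) + dist y z)
      ≤ C * (ρ / (2 * C) + ρ / (2 * C)) := by gcongr
    _ = ρ := by field_simp; ring

theorem local_unif (hR : MinR S R) (hT : TransProp c R) (hD : DenseProp S R) (ρ : ℝ) (hρ : 0 < ρ)
    {x z : X} (hx : x ∈ R) (hz : z ∈ R) : ∃ δ > 0, ∃ C : ℝ, 1 ≤ C ∧ ∃ η > 0, ∀ x' ∈ R,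
      dist x' x < η → ∀ z' ∈ R, dist z' z < η → ∀ r, 0 < r → ∀ n, SepN c R x' δ r n →
      SepN c R z' ρ (r / C) n := by
  obtain ⟨ε, hε, δ₁, hδ₁, C, hC, hT'⟩ := id hT
  have hC0 : 0 < C := by linarith
  obtain ⟨δ, hδ, C', hC', h1⟩ := Tr.all c hR hT hD hx hz (min δ₁ (ρ / (2 * C)))
    (lt_min hδ₁ (by positivity))
  refine ⟨min δ₁ (δ / (2 * C)), lt_min hδ₁ (by positivity), max 1 (C * C' * C), le_max_left _ _,
    min ε (min (δ / (2 * C)) (ρ / (2 * C))), lt_min hε (lt_min (by positivity) (by positivity)),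
    fun x' hx' hxx z' hz' hzz r hr n hn => ?_⟩
  have h2 := hT' x' hx' x hx (hxx.le.trans (min_le_left _ _)) _ (lt_min hδ₁ (by positivity))
    (min_le_left _ _) r hr n hn
  have h3 : SepN c R x δ (r / C) n := by
    refine sepN_mono (c := c) ?_ le_rfl h2
    have e1 : min δ₁ (δ / (2 * C)) ≤ δ / (2 * C) := min_le_right _ _
    have e2 := hxx.le.trans ((min_le_right _ _).trans (min_le_left _ _))
    calc C * (min δ₁ (δ / (2 * C)) + dist x' x)
        ≤ C * (δ / (2 * C) + δ / (2 * C)) := by gcongr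
      _ = δ := by field_simp; ring
  have h4 := h1 (r / C) (by positivity) n h3
  have hzz' : dist z z' < min ε (min (δ / (2 * C)) (ρ / (2 * C))) := by rwa [dist_comm]
  have h5 := hT' z hz z' hz' (hzz'.le.trans (min_le_left _ _)) _ (lt_min hδ₁ (by positivity))
    (min_le_left _ _) (r / C / C') (by positivity) n h4
  refine sepN_mono (c := c) ?_ ?_ h5
  · have e1 : min δ₁ (ρ / (2 * C)) ≤ ρ / (2 * C) := min_le_right _ _
    have e2 := hzz'.le.trans ((min_le_right _ _).trans (min_le_right _ _))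
    calc C * (min δ₁ (ρ / (2 * C)) + dist z z')
        ≤ C * (ρ / (2 * C) + ρ / (2 * C)) := by gcongr
      _ = ρ := by field_simp; ring
  · rw [div_div, div_div]
    have : 0 < C * C' * C := by positivity
    rw [← mul_assoc]
    exact div_le_div_of_nonneg_left hr.le this (le_max_right _ _)

theorem unif (hR : MinR S R) (hT : TransProp c R) (hD : DenseProp S R) (ρ : ℝ) (hρ : 0 < ρ) :
    ∃ δ > 0, ∃ C : ℝ, 1 ≤ C ∧ ∀ x ∈ R, ∀ z ∈ R, ∀ r, 0 < r → ∀ n, SepN c R x δ r n →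
      SepN c R z ρ (r / C) n := by
  have hcomp : IsCompact (R ×ˢ R) := hR.closed.isCompact.prod hR.closed.isCompact
  let P : Set (X × X) → Prop := fun s => ∃ δ > 0, ∃ C : ℝ, 1 ≤ C ∧ ∀ p ∈ s, p.1 ∈ R → p.2 ∈ R →
    ∀ r, 0 < r → ∀ n, SepN c R p.1 δ r n → SepN c R p.2 ρ (r / C) n
  have hP : P (R ×ˢ R) := by
    refine hcomp.induction_on (p := P) ?_ ?_ ?_ ?_
    · exact ⟨1, one_pos, 1, le_rfl, fun p hp => absurd hp (Set.notMem_empty p)⟩
    · rintro s t hst ⟨δ, hδ, C, hC, h⟩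
      exact ⟨δ, hδ, C, hC, fun p hp => h p (hst hp)⟩
    · rintro s t ⟨δ, hδ, C, hC, h⟩ ⟨δ', hδ', C', hC', h'⟩
      refine ⟨min δ δ', lt_min hδ hδ', max C C', le_max_of_le_left hC,
        fun p hp h1 h2 r hr n hn => ?_⟩
      rcases hp with hp | hp
      · refine sepN_mono (c := c) le_rfl ?_ (h p hp h1 h2 r hr n (sepN_mono (c := c) (min_le_left _ _) le_rfl hn))
        exact div_le_div_of_nonneg_left hr.le (by linarith) (le_max_left _ _)
      · refine sepN_mono (c := c) le_rfl ?_ (h' p hp h1 h2 r hr n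
          (sepN_mono (c := c) (min_le_right _ _) le_rfl hn))
        exact div_le_div_of_nonneg_left hr.le (by linarith) (le_max_right _ _)
    · rintro ⟨x, z⟩ ⟨hx, hz⟩
      obtain ⟨δ, hδ, C, hC, η, hη, h⟩ := local_unif c hR hT hD ρ hρ hx hz
      refine ⟨Metric.ball x η ×ˢ Metric.ball z η, mem_nhdsWithin_of_mem_nhds
        (prod_mem_nhds (Metric.ball_mem_nhds _ hη) (Metric.ball_mem_nhds _ hη)), δ, hδ, C, hC,
        fun p hp h1 h2 r hr n hn => ?_⟩
      exact h p.1 h1 hp.1 p.2 h2 hp.2 r hr n hn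
  obtain ⟨δ, hδ, C, hC, h⟩ := hP
  exact ⟨δ, hδ, C, hC, fun x hx z hz => h (x, z) ⟨hx, hz⟩ hx hz⟩

end LowerV

open LowerV in
/-- K18 -/
theorem lowerA {S : HypSys X E} (c : CV S p) {R : Set X} (hR : MinR S R)
    (hB : UpperB c R) (hT : TransProp c R) (hD : DenseProp S R) : LowerA c R := by
  classical
  intro ρ hρ
  obtain ⟨δ, hδ, C, hC, hU⟩ := unif c hR hT hD ρ hρ
  obtain ⟨Cτ, hCτ, hτ⟩ := tau_bound c 1
  have hC0 : 0 < C := by linarith
  have hCτ0 : 0 < Cτ := by linarith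
  set δ' := δ / Cτ with hδ'
  have hδ'0 : 0 < δ' := by positivity
  set a := 1 / (Cτ * C) with ha
  have ha0 : 0 < a := by positivity
  have ha1 : a ≤ 1 := by
    rw [ha, div_le_one (by positivity)]
    nlinarith
  refine ⟨(2 * 1 / δ' + 1) ^ p * (2 / a + 1) ^ p, by positivity, fun z hz r hr _ => ?_⟩
  obtain ⟨x, hx, Z, hZc, hZ1, hZ2⟩ : ∃ x ∈ R, SepN c R x 1 r (Sf c R r) := by
    have hne : {n | ∃ z ∈ R, SepN c R z 1 r n}.Nonempty := by
      obtain ⟨z, hz⟩ := hR.nonempty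
      exact ⟨0, z, hz, ∅, by simp, by simp, by simp⟩
    exact Nat.sSup_mem hne (hB.1 r hr)
  obtain ⟨Y, hYZ, hY1, hY2⟩ := net Z (c.lc x) δ'
  have hYcard : (Y.card : ℝ) ≤ (2 * 1 / δ' + 1) ^ p := by
    refine sepN_card_le c R x 1 δ' zero_le_one hδ'0 Y.card ⟨Y, rfl, fun y hy => hZ1 y (hYZ hy), hY1⟩
  have hself : ∀ z ∈ Z, ∃ y ∈ Y, ‖c.lc x z - c.lc x y‖ < δ' := by
    intro z hz
    rcases hY2 z hz with h | h
    · exact ⟨z, h, by simpa using hδ'0⟩
    · exact h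
  rcases Z.eq_empty_or_nonempty with hZe | ⟨z₀, hz₀⟩
  · refine ⟨0, ⟨∅, by simp, by simp, by simp⟩, ?_⟩
    rw [← hZc, hZe]
    simp
  obtain ⟨y₀, hy₀, -⟩ := hself z₀ hz₀
  obtain ⟨y, hy, hymax⟩ := Finset.exists_max_image Y
    (fun y => (Z.filter (fun z => ‖c.lc x z - c.lc x y‖ < δ')).card) ⟨y₀, hy₀⟩
  set W := Z.filter (fun z => ‖c.lc x z - c.lc x y‖ < δ') with hW
  have hcard : Z.card ≤ Y.card * W.card := by
    have h1 : Z ⊆ Y.biUnion (fun y => Z.filter (fun z => ‖c.lc x z - c.lc x y‖ < δ')) := by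
      intro z hz
      obtain ⟨y, hy, h⟩ := hself z hz
      exact Finset.mem_biUnion.mpr ⟨y, hy, Finset.mem_filter.mpr ⟨hz, h⟩⟩
    calc Z.card ≤ _ := Finset.card_le_card h1
      _ ≤ ∑ y ∈ Y, (Z.filter (fun z => ‖c.lc x z - c.lc x y‖ < δ')).card := Finset.card_biUnion_le
      _ ≤ Y.card • W.card := Finset.sum_le_card_nsmul _ _ _ (fun y' hy' => hymax y' hy')
      _ = _ := by rw [smul_eq_mul]
  obtain ⟨hyR, hxy, hlxy⟩ := hZ1 y (hYZ hy)
  obtain ⟨ht1, ht2⟩ := hτ x y hxy hlxy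
  have hbase : ∀ w ∈ W, c.lc y w = c.tau x y (c.lc x w - c.lc x y) := by
    intro w hw
    exact c.base x y w hxy (hZ1 w (Finset.mem_filter.mp hw).1).2.1
  have hsep : SepN c R y δ (r / Cτ) W.card := by
    refine ⟨W, rfl, fun w hw => ?_, fun w hw w' hw' hne => ?_⟩
    · obtain ⟨hwZ, hwd⟩ := Finset.mem_filter.mp hw
      refine ⟨(hZ1 w hwZ).1, hxy.symm.trans (hZ1 w hwZ).2.1, ?_⟩
      rw [hbase w hw, c.tau_sim]
      calc ‖c.tau x y‖ * ‖c.lc x w - c.lc x y‖ ≤ Cτ * δ' := by gcongr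
        _ = δ := by rw [hδ']; field_simp
    · rw [hbase w hw, hbase w' hw', ← map_sub, c.tau_sim, sub_sub_sub_cancel_right]
      have h1 := hZ2 w (Finset.mem_filter.mp hw).1 w' (Finset.mem_filter.mp hw').1 hne
      rw [div_le_iff₀ hCτ0]
      calc r ≤ ‖c.lc x w - c.lc x w'‖ := h1
        _ = 1 * ‖c.lc x w - c.lc x w'‖ := (one_mul _).symm
        _ ≤ (Cτ * ‖c.tau x y‖) * ‖c.lc x w - c.lc x w'‖ := by gcongr
        _ = _ := by ring
  have h1 := hU y hyR z hz (r / Cτ) (by positivity) _ hsep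
  have h2 : r / Cτ / C = a * r := by rw [ha]; field_simp
  rw [h2] at h1
  obtain ⟨m, hm1, hm2⟩ := sepN_thin c R z ρ r a hr ha0 ha1 _ h1
  refine ⟨m, hm1, ?_⟩
  rw [← hZc]
  calc (Z.card : ℝ) ≤ (Y.card : ℝ) * W.card := by exact_mod_cast hcard
    _ ≤ (2 * 1 / δ' + 1) ^ p * ((2 / a + 1) ^ p * m) := by gcongr
    _ = _ := by ring

end Pool.Agent.H147R2.Vec
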