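import Pool.Agent.H147R2.CV.Defs
import Pool.Agent.H147R2.CV.AuxL

set_option autoImplicit false

namespace Pool.Agent.H147R2.Vec

open Pool.Agent.H721R2 Pool.Agent.H779R2.An Filter Topology MeasureTheory
open scoped BigOperators

variable {X E : Type*} [MetricSpace X] [CompactSpace X] [NormedAddCommGroup E]
  [InnerProductSpace ℝ E] [FiniteDimensional ℝ E] {p : ℕ}

/-- `x` is isolated, at scale `ε`, in the trace of `R` on its unstable plaque. -/
private def IsoAt (S : HypSys X E) (R : Set X) (ε : ℝ) (x : X) : Prop :=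
  ∀ x' ∈ R, S.URel ε x x' → x' = x

omit [FiniteDimensional ℝ E] in
private theorem iso_open {S : HypSys X E} {ε₀ : ℝ} (geo : Geo S ε₀) {R : Set X} (hR : MinR S R)
    (ε : ℝ) (hε : 0 < ε) : ∃ δ > 0, ∃ ε' > 0, ∀ x ∈ R, IsoAt S R ε x → ∀ z ∈ R,
      dist x z ≤ δ → IsoAt S R ε' z := by
  have h0 := geo.pos
  obtain ⟨δ, hδ, hb⟩ := exists_bracket S (min ε (ε₀ / 2)) (lt_min hε (by positivity))
  refine ⟨δ / 2, by positivity, min (δ / 2) ε₀, lt_min (by positivity) h0, ?_⟩
  intro x hx hiso z hz hxz z' hz' hzz'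
  have key : ∀ y ∈ R, dist y x ≤ δ → S.SRel (ε₀ / 2) y x := by
    intro y hy hyx
    obtain ⟨w, hw1, hw2⟩ := hb y x hyx
    have hwR : w ∈ R := hR.sat y hy w (geo.sasym _ _ (hw1.mono
      ((min_le_right _ _).trans (by linarith))))
    have hwx : w = x := hiso w hwR (hw2.symm.mono (min_le_left _ _))
    rw [hwx] at hw1
    exact hw1.mono (min_le_right _ _)
  have h1 : S.SRel (ε₀ / 2) z x := key z hz (by rw [dist_comm]; linarith)
  have h2 : S.SRel (ε₀ / 2) z' x := by
    refine key z' hz' ?_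
    have h3 := dist_triangle z' z x
    have h4 : dist z' z ≤ δ / 2 := by
      rw [dist_comm]
      exact hzz'.dist_le.trans (min_le_left _ _)
    rw [dist_comm x z] at hxz
    linarith
  have h5 : S.SRel ε₀ z' z := (h2.trans h1.symm).mono (by linarith)
  exact geo.uniq z' z h5 (hzz'.symm.mono (min_le_right _ _))

/-- K13 -/
theorem non_iso {S : HypSys X E} (c : CV S p) {R : Set X} (hR : MinR2 S R) {d : ℕ} (hd : 1 ≤ d)
    (h : ChartProp S d) : NonIsoProp c R := by
  have h0 := c.geo.pos
  set R' : Set X := {x | x ∈ R ∧ ∀ ε > 0, ¬ IsoAt S R ε x} with hR'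
  have hmap' : ∀ x ∈ R', S.g.symm x ∈ R' := by
    rintro x ⟨hx, hx'⟩
    refine ⟨hR.map' x hx, fun ε hε hiso => hx' ε hε ?_⟩
    intro x' hx'R hrel
    have := hiso (S.g.symm x') (hR.map' x' hx'R) hrel.map
    exact S.g.symm.injective this
  have hmap : ∀ x ∈ R', S.g x ∈ R' := by
    rintro x ⟨hx, hx'⟩
    refine ⟨hR.map x hx, fun ε hε hiso => ?_⟩
    obtain ⟨δ, hδ, hc⟩ := Metric.continuous_iff.mp S.g.continuous x ε hε
    refine hx' (min ε (δ / 2)) (lt_min hε (by positivity)) ?_
    intro x' hx'R hrel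
    have h1 : S.URel ε (S.g x) (S.g x') := by
      intro k
      match k with
      | 0 =>
        have h2 : dist x' x < δ := by
          rw [dist_comm]
          have := hrel.dist_le.trans (min_le_right _ _)
          linarith
        have h3 := hc x' h2
        rw [dist_comm] at h3
        exact h3.le
      | k + 1 =>
        rw [Function.iterate_succ_apply, Function.iterate_succ_apply, Homeomorph.symm_apply_apply,
          Homeomorph.symm_apply_apply]
        exact (hrel k).trans (min_le_left _ _)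
    exact S.g.injective (hiso (S.g x') (hR.map x' hx'R) h1)
  have hclosed : IsClosed R' := by
    refine isClosed_of_closure_subset ?_
    intro x hx
    have hxR : x ∈ R := by
      have : x ∈ closure R := closure_mono (fun y hy => hy.1) hx
      rwa [hR.closed.closure_eq] at this
    refine ⟨hxR, fun ε hε hiso => ?_⟩
    obtain ⟨δ, hδ, ε', hε', hop⟩ := iso_open c.geo hR.toMinR ε hε
    obtain ⟨z, hz, hxz⟩ := Metric.mem_closure_iff.mp hx δ hδ
    exact hz.2 ε' hε' (hop x hxR hiso z hz.1 hxz.le)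
  have hiter : ∀ (n : ℕ), ∀ x ∈ R', S.g^[n] x ∈ R' := by
    intro n
    induction n with
    | zero => exact fun x hx => hx
    | succ n ih =>
      intro x hx
      rw [Function.iterate_succ_apply']
      exact hmap _ (ih x hx)
  have hiterR : ∀ (n : ℕ), ∀ x ∈ R, S.g^[n] x ∈ R := by
    intro n
    induction n with
    | zero => exact fun x hx => hx
    | succ n ih =>
      intro x hx
      rw [Function.iterate_succ_apply']
      exact hR.map _ (ih x hx)
  have hiterR' : ∀ (n : ℕ), ∀ x ∈ R, S.g.symm^[n] x ∈ R := by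
    intro n
    induction n with
    | zero => exact fun x hx => hx
    | succ n ih =>
      intro x hx
      rw [Function.iterate_succ_apply']
      exact hR.map' _ (ih x hx)
  have hsat : ∀ x ∈ R', ∀ y, SAsym S x y → y ∈ R' := by
    rintro x hx y hxy
    have hyR : y ∈ R := hR.sat x hx.1 y hxy
    refine ⟨hyR, fun ε hε hiso => ?_⟩
    obtain ⟨δ, hδ, ε', hε', hop⟩ := iso_open c.geo hR.toMinR ε hε
    obtain ⟨N, hN⟩ := hxy.eventually hδ
    have h1 := (hN N le_rfl).dist_le
    have h2 : IsoAt S R ε (S.g^[N] y) := by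
      intro w hw hrel
      have h3 := hiso (S.g.symm^[N] w) (hiterR' N w hw) (by
        have := hrel.iter N
        rwa [iter_symm_iter] at this)
      rw [← h3, iter_iter_symm]
    refine (hiter N x hx).2 ε' hε' (hop _ (hiterR N y hyR) h2 _ (hiterR N x hx.1) ?_)
    rw [dist_comm]
    exact h1
  have hmain : R' = R := by
    by_cases hne : R'.Nonempty
    · exact hR.minimal R' (fun x hx => hx.1) hclosed hne hmap hmap' hsat
    · exfalso
      have hall : ∀ x ∈ R, ∃ ε > 0, IsoAt S R ε x := by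
        intro x hx
        by_contra hcon
        push Not at hcon
        exact hne ⟨x, hx, hcon⟩
      -- uniform isolation scale
      obtain ⟨ε₁, hε₁, hu⟩ : ∃ ε₁ > 0, ∀ x ∈ R, IsoAt S R ε₁ x := by
        have hcomp : IsCompact R := hR.closed.isCompact
        have hloc : ∀ x ∈ R, ∃ δ > 0, ∃ ε' > 0, ∀ z ∈ R, dist x z ≤ δ → IsoAt S R ε' z := by
          intro x hx
          obtain ⟨ε, hε, hi⟩ := hall x hx
          obtain ⟨δ, hδ, ε', hε', hop⟩ := iso_open c.geo hR.toMinR ε hε
          exact ⟨δ, hδ, ε', hε', hop x hx hi⟩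
        refine hcomp.induction_on (p := fun s => ∃ ε₁ > 0, ∀ x ∈ s, x ∈ R → IsoAt S R ε₁ x) ?_ ?_ ?_ ?_
          |>.imp (fun ε₁ h => ⟨h.1, fun x hx => h.2 x hx hx⟩)
        · exact ⟨1, one_pos, fun x hx => absurd hx (Set.notMem_empty x)⟩
        · rintro s t hst ⟨ε₁, h1, h2⟩
          exact ⟨ε₁, h1, fun x hx => h2 x (hst hx)⟩
        · rintro s t ⟨ε₁, h1, h2⟩ ⟨ε₂, h3, h4⟩
          refine ⟨min ε₁ ε₂, lt_min h1 h3, fun x hx hxR => ?_⟩
          rcases hx with hx | hx
          · exact fun x' hx' hrel => h2 x hx hxR x' hx' (hrel.mono (min_le_left _ _))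
          · exact fun x' hx' hrel => h4 x hx hxR x' hx' (hrel.mono (min_le_right _ _))
        · intro x hx
          obtain ⟨δ, hδ, ε', hε', hop⟩ := hloc x hx
          refine ⟨Metric.ball x δ, mem_nhdsWithin_of_mem_nhds (Metric.ball_mem_nhds x hδ), ε', hε',
            fun z hz hzR => hop z hzR ?_⟩
          rw [dist_comm]
          exact (Metric.mem_ball.mp hz).le
      -- close points of `R` are on the same stable plaque
      obtain ⟨δ₁, hδ₁, hclose⟩ : ∃ δ₁ > 0, ∀ z ∈ R, ∀ z' ∈ R, dist z z' ≤ δ₁ →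
          S.SRel c.ε₀ z z' := by
        obtain ⟨δ, hδ, hb⟩ := exists_bracket S (min ε₁ c.ε₀) (lt_min hε₁ h0)
        refine ⟨δ, hδ, fun z hz z' hz' hzz => ?_⟩
        obtain ⟨w, hw1, hw2⟩ := hb z z' hzz
        have hwR : w ∈ R := hR.sat z hz w (c.geo.sasym _ _ (hw1.mono (min_le_right _ _)))
        have hwx : w = z' := hu z' hz' w hwR (hw2.symm.mono (min_le_left _ _))
        rw [hwx] at hw1
        exact hw1.mono (min_le_right _ _)
      -- infinitely many points of `R`
      obtain ⟨x, hx⟩ := hR.nonempty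
      obtain ⟨ρ₁, hρ₁, ρ', hρ', hch⟩ := h c.ε₀ h0
      obtain ⟨ψ, hψ, -⟩ := hch x
      let e₁ : EuclideanSpace ℝ (Fin d) := EuclideanSpace.single (⟨0, hd⟩ : Fin d) (1 : ℝ)
      have he₁ : ‖e₁‖ = 1 := by simp [e₁]
      let q : ℕ → X := fun n => ψ ((ρ₁ / (n + 1)) • e₁)
      have hnorm : ∀ n : ℕ, ‖(ρ₁ / ((n : ℝ) + 1)) • e₁‖ ≤ ρ₁ := by
        intro n
        rw [norm_smul, he₁, mul_one, Real.norm_of_nonneg (by positivity)]
        exact div_le_self hρ₁.le (by linarith [(Nat.cast_nonneg n : (0 : ℝ) ≤ n)])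
      have hqR : ∀ n, q n ∈ R := fun n =>
        hR.sat x hx _ (c.geo.sasym _ _ (hψ.rel _ (hnorm n)))
      have hqinj : ∀ m n, q m = q n → m = n := by
        intro m n hmn
        have h1 := hψ.ge _ _ (hnorm m) (hnorm n)
        have h2 : ψ ((ρ₁ / ((m : ℝ) + 1)) • e₁) = ψ ((ρ₁ / ((n : ℝ) + 1)) • e₁) := hmn
        rw [h2, dist_self, mul_zero, ← sub_smul, norm_smul, he₁, mul_one] at h1
        have h3 : ρ₁ / ((m : ℝ) + 1) - ρ₁ / ((n : ℝ) + 1) = 0 := norm_le_zero_iff.mp h1
        have h4 : ρ₁ / ((m : ℝ) + 1) = ρ₁ / ((n : ℝ) + 1) := by linarith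
        have h5 : (m : ℝ) + 1 = (n : ℝ) + 1 := by
          have hm : (m : ℝ) + 1 ≠ 0 := by positivity
          have hn : (n : ℝ) + 1 ≠ 0 := by positivity
          rw [div_eq_div_iff hm hn] at h4
          exact (mul_left_cancel₀ hρ₁.ne' h4).symm
        exact_mod_cast add_right_cancel h5
      -- pigeonhole
      obtain ⟨t, -, htf, htc⟩ := (isCompact_univ (X := X)).finite_cover_balls
        (e := δ₁ / 2) (by positivity)
      set N := htf.toFinset.card with hN
      have hcen : ∀ y : X, ∃ a ∈ htf.toFinset, dist y a < δ₁ / 2 := by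
        intro y
        have := htc (Set.mem_univ y)
        simp only [Set.mem_iUnion, exists_prop] at this
        obtain ⟨a, ha, hya⟩ := this
        exact ⟨a, htf.mem_toFinset.mpr ha, Metric.mem_ball.mp hya⟩
      choose cen hcen1 hcen2 using hcen
      have hlim : Tendsto (fun n : ℕ => (1 / 8 : ℝ) ^ n * c.ε₀) atTop (𝓝 0) := by
        have := (tendsto_pow_atTop_nhds_zero_of_lt_one (by norm_num : (0 : ℝ) ≤ 1 / 8)
          (by norm_num)).mul_const c.ε₀
        simpa using this
      have hev : ∀ᶠ n : ℕ in atTop, ∀ i ∈ Finset.range (N + 1), ∀ j ∈ Finset.range (N + 1), i ≠ j →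
          (1 / 8 : ℝ) ^ n * c.ε₀ < dist (q i) (q j) := by
        rw [Finset.eventually_all]
        intro i _
        rw [Finset.eventually_all]
        intro j _
        by_cases hij : i = j
        · exact Filter.Eventually.of_forall (fun n hne => absurd hij hne)
        · have hpos : 0 < dist (q i) (q j) := dist_pos.mpr (fun he => hij (hqinj _ _ he))
          exact (hlim.eventually (gt_mem_nhds hpos)).mono (fun n hn _ => hn)
      obtain ⟨n, hn⟩ := hev.exists
      obtain ⟨i, hi, j, hj, hij, hcc⟩ := Finset.exists_ne_map_eq_of_card_lt_of_maps_to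
        (s := Finset.range (N + 1)) (t := htf.toFinset)
        (f := fun i => cen (S.g.symm^[n] (q i))) (by rw [Finset.card_range]; omega)
        (fun i _ => hcen1 _)
      have hd1 := hcen2 (S.g.symm^[n] (q i))
      have hd2 := hcen2 (S.g.symm^[n] (q j))
      rw [hcc] at hd1
      have hd3 : dist (S.g.symm^[n] (q i)) (S.g.symm^[n] (q j)) ≤ δ₁ := by
        have := dist_triangle_right (S.g.symm^[n] (q i)) (S.g.symm^[n] (q j))
          (cen (S.g.symm^[n] (q j)))
        linarith
      have hs := hclose _ (hiterR' n _ (hqR i)) _ (hiterR' n _ (hqR j)) hd3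
      have h6 := c.geo.scontr _ _ hs n
      rw [iter_iter_symm, iter_iter_symm] at h6
      have h7 := hn i hi j hj hij
      have h8 : (1 / 8 : ℝ) ^ n * dist (S.g.symm^[n] (q i)) (S.g.symm^[n] (q j)) ≤
          (1 / 8 : ℝ) ^ n * c.ε₀ := mul_le_mul_of_nonneg_left hs.dist_le (by positivity)
      linarith
  intro x hx δ hδ
  have hx' : x ∈ R' := by rw [hmain]; exact hx
  have hM := c.one_le_M
  by_contra hcon
  push Not at hcon
  refine hx'.2 (min c.ε₀ (δ / (2 * c.M))) (lt_min h0 (by positivity)) ?_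
  intro y hy hrel
  by_contra hne
  have h1 := hcon y hy hne (c.geo.uasym _ _ (hrel.mono (min_le_left _ _)))
  have h2 := c.lc_le x y (hrel.mono (min_le_left _ _))
  have h3 : dist x y ≤ δ / (2 * c.M) := hrel.dist_le.trans (min_le_right _ _)
  have h4 : c.M * dist x y ≤ c.M * (δ / (2 * c.M)) := mul_le_mul_of_nonneg_left h3 (by linarith)
  have h5 : c.M * (δ / (2 * c.M)) = δ / 2 := by field_simp
  linarith

end Pool.Agent.H147R2.Vec
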