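import Pool.Agent.H147R2.CV.Defs
import Pool.Agent.H147R2.CV.AuxL

set_option autoImplicit false

namespace Pool.Agent.H147R2.Vec

open Pool.Agent.H721R2 Pool.Agent.H779R2.An Filter Topology MeasureTheory
open scoped BigOperators

variable {X E : Type*} [MetricSpace X] [CompactSpace X] [NormedAddCommGroup E]
  [InnerProductSpace ℝ E] [FiniteDimensional ℝ E] {p : ℕ}

theorem th_chart_cont {S : HypSys X E} {c : CV S p} (T : TH c) (hlev : LevProp T) :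
    ∃ ρ₀ > 0, ∀ (d : ℕ) (v : X) (ρ ρ₁ : ℝ) (ψ : EuclideanSpace ℝ (Fin d) → X), ρ ≤ ρ₀ →
      IsChart S v ρ ρ₁ ψ → ContinuousOn (fun a => T.th v (ψ a)) (Metric.closedBall 0 ρ₁) := by
  obtain ⟨C, hC, ε, hε, -, h1⟩ := hlev
  refine ⟨c.ε₀ / 2, by have := c.geo.pos; positivity, ?_⟩
  intro d v ρ ρ₁ ψ hρ hψ
  have hM : 0 < c.M := lt_of_lt_of_le one_pos c.one_le_M
  rw [Metric.continuousOn_iff]
  intro a ha η hη
  have ha' : ‖a‖ ≤ ρ₁ := by simpa using ha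
  obtain ⟨k, hk⟩ := exists_pow_lt_of_lt_one (show 0 < η / (c.M * C) by positivity)
    (show (1 / 16 : ℝ) < 1 by norm_num)
  obtain ⟨δ₁, hδ₁, hlevel⟩ := SRel_level c.geo k ε hε
  refine ⟨δ₁ / 2, by positivity, ?_⟩
  intro b hb hab
  have hb' : ‖b‖ ≤ ρ₁ := by simpa using hb
  have r1 : S.SRel c.ε₀ v (ψ a) := (hψ.rel a ha').mono (by have := c.geo.pos; linarith)
  have r2 : S.SRel c.ε₀ (ψ a) (ψ b) :=
    ((hψ.rel a ha').symm.trans (hψ.rel b hb')).mono (by linarith)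
  have hd : dist (ψ a) (ψ b) ≤ δ₁ := by
    have h2 := hψ.le a b ha' hb'
    rw [dist_eq_norm, ← norm_neg, neg_sub] at hab
    linarith
  have h3 := h1 k (ψ a) (ψ b) (hlevel _ _ r2 hd)
  have h4 := T.th_comp v (ψ a) (ψ b) (c.geo.sasym _ _ r1) (c.geo.sasym _ _ r2)
  show dist (T.th v (ψ b)) (T.th v (ψ a)) < η
  have hadj : ‖adj (c.eta v (ψ a))‖ = ‖c.eta v (ψ a)‖ := by
    unfold adj
    exact LinearIsometryEquiv.norm_map _ _
  rw [dist_eq_norm, h4, add_sub_cancel_left]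
  calc ‖adj (c.eta v (ψ a)) (T.th (ψ a) (ψ b))‖
      ≤ ‖adj (c.eta v (ψ a))‖ * ‖T.th (ψ a) (ψ b)‖ := ContinuousLinearMap.le_opNorm _ _
    _ = ‖c.eta v (ψ a)‖ * ‖T.th (ψ a) (ψ b)‖ := by rw [hadj]
    _ ≤ c.M * (C * (1 / 16) ^ k) :=
        mul_le_mul (c.eta_le _ _ r1)
          (h3.trans (mul_le_mul_of_nonneg_left (c.cw_le k _) hC.le)) (norm_nonneg _) hM.le
    _ < c.M * (C * (η / (c.M * C))) := by gcongr
    _ = η := by field_simp

end Pool.Agent.H147R2.Vec
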