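import Pool.Agent.H147R2.CV.Defs
import Pool.Agent.H147R2.CV.AuxL
import Pool.Agent.H147R2.CV.ThCont

set_option autoImplicit false

namespace Pool.Agent.H147R2.Vec

open Pool.Agent.H721R2 Pool.Agent.H779R2.An Filter Topology MeasureTheory
open scoped BigOperators

variable {X E : Type*} [MetricSpace X] [CompactSpace X] [NormedAddCommGroup E]
  [InnerProductSpace ℝ E] [FiniteDimensional ℝ E] {p : ℕ}

/-- Local tracking: near a point whose leaf meets `R`. -/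
private theorem loc_track {S : HypSys X E} {c : CV S p} (T : TH c) {R : Set X}
    {ρ₂ εT : ℝ} (hεT : 0 < εT) (hεT' : εT ≤ T.ε)
    (hcont : ∀ (d : ℕ) (v : X) (ρ ρ₁ : ℝ) (ψ : EuclideanSpace ℝ (Fin d) → X), ρ ≤ ρ₂ →
      IsChart S v ρ ρ₁ ψ → ContinuousOn (fun a => T.th v (ψ a)) (Metric.closedBall 0 ρ₁))
    (htr : ∀ (v : X) (γ : ℝ → X), ContinuousOn γ (Set.Icc 0 1) → γ 0 = v →
      (∀ t ∈ Set.Icc (0 : ℝ) 1, S.SRel εT v (γ t)) → ∀ x ∈ R, UAsym S v x →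
      (∀ t ∈ Set.Icc (0 : ℝ) 1, dn (T.th v (γ t)) (c.lc v x) ≠ 0) →
      ∃ x' ∈ R, UAsym S (γ 1) x' ∧
        c.lc (γ 1) x' = mobV (c.eta v (γ 1)) (T.th v (γ 1)) (c.lc v x))
    {d : ℕ} {v : X} {ρ ρ₁ : ℝ} {ψ : EuclideanSpace ℝ (Fin d) → X} (hρ : ρ ≤ ρ₂)
    (hρ2 : 2 * ρ ≤ εT) (hψ : IsChart S v ρ ρ₁ ψ) {a : EuclideanSpace ℝ (Fin d)}
    (ha : ‖a‖ ≤ ρ₁) {x : X} (hx : x ∈ R) (hax : UAsym S (ψ a) x) :
    ∃ δ > 0, ∀ a', ‖a'‖ ≤ ρ₁ → dist a' a < δ →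
      ∃ x' ∈ R, UAsym S (ψ a') x' ∧ ‖c.lc (ψ a') x'‖ ≤ 2 * c.M * ‖c.lc (ψ a) x‖ := by
  have hεc : εT ≤ c.ε₀ := hεT'.trans T.ε_le
  have hM0 : 0 < c.M := lt_of_lt_of_le one_pos c.one_le_M
  have hrel0 : ∀ b, ‖b‖ ≤ ρ₁ → S.SRel c.ε₀ v (ψ b) := fun b hb =>
    (hψ.rel b hb).mono (by
      have h1 : (0 : ℝ) ≤ ρ := dist_nonneg.trans ((hψ.rel b hb).dist_le)
      linarith)
  have hrel : ∀ b b', ‖b‖ ≤ ρ₁ → ‖b'‖ ≤ ρ₁ → S.SRel εT (ψ b) (ψ b') := fun b b' hb hb' =>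
    (((hψ.rel b hb).symm).trans (hψ.rel b' hb')).mono (by linarith)
  have hsas : ∀ b, ‖b‖ ≤ ρ₁ → SAsym S v (ψ b) := fun b hb => c.geo.sasym _ _ (hrel0 b hb)
  -- eta is not zero
  have heta : 0 < ‖c.eta v (ψ a)‖ := c.eta_norm_pos (hsas a ha)
  have hth : ∀ b, ‖b‖ ≤ ρ₁ →
      ‖T.th (ψ a) (ψ b)‖ = ‖T.th v (ψ b) - T.th v (ψ a)‖ / ‖c.eta v (ψ a)‖ := by
    intro b hb
    have h1 := T.th_comp v (ψ a) (ψ b) (hsas a ha)
      (c.geo.sasym _ _ ((hrel a b ha hb).mono hεc))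
    have h2 : ‖adj (c.eta v (ψ a)) (T.th (ψ a) (ψ b))‖ =
        ‖adj (c.eta v (ψ a))‖ * ‖T.th (ψ a) (ψ b)‖ := (c.eta_sim v (ψ a)).adj _
    rw [h1, add_sub_cancel_left, h2, norm_adj, mul_div_cancel_left₀ _ heta.ne']
  set L := c.lc (ψ a) x with hL
  -- continuity
  have hamem : a ∈ Metric.closedBall (0 : EuclideanSpace ℝ (Fin d)) ρ₁ := by
    rwa [mem_closedBall_zero_iff]
  have hc := hcont d v ρ ρ₁ ψ hρ hψ a hamem
  rw [Metric.continuousWithinAt_iff] at hc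
  have hηpos : 0 < ‖c.eta v (ψ a)‖ / (2 * (‖L‖ + 1)) := by positivity
  obtain ⟨δ, hδ, hδ2⟩ := hc _ hηpos
  have hsmall : ∀ b, ‖b‖ ≤ ρ₁ → dist b a < δ → ‖T.th (ψ a) (ψ b)‖ * ‖L‖ ≤ 1 / 2 := by
    intro b hb hba
    have h1 := hδ2 (by rwa [mem_closedBall_zero_iff]) hba
    rw [dist_eq_norm] at h1
    rw [hth b hb]
    have h3 : ‖T.th v (ψ b) - T.th v (ψ a)‖ / ‖c.eta v (ψ a)‖ ≤ 1 / (2 * (‖L‖ + 1)) := by
      rw [div_le_iff₀ heta]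
      calc _ ≤ ‖c.eta v (ψ a)‖ / (2 * (‖L‖ + 1)) := h1.le
        _ = 1 / (2 * (‖L‖ + 1)) * ‖c.eta v (ψ a)‖ := by ring
    calc _ ≤ 1 / (2 * (‖L‖ + 1)) * ‖L‖ := mul_le_mul_of_nonneg_right h3 (norm_nonneg _)
      _ ≤ 1 / (2 * (‖L‖ + 1)) * (‖L‖ + 1) := by
          apply mul_le_mul_of_nonneg_left _ (by positivity)
          linarith
      _ = 1 / 2 := by field_simp
  refine ⟨δ, hδ, fun a' ha' hda => ?_⟩
  set q : ℝ → EuclideanSpace ℝ (Fin d) := fun t => a + t • (a' - a) with hq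
  have hqn : ∀ t ∈ Set.Icc (0 : ℝ) 1, ‖q t‖ ≤ ρ₁ := by
    intro t ht
    have h1 : q t = (1 - t) • a + t • a' := by
      simp only [hq, smul_sub, sub_smul, one_smul]
      abel
    rw [h1]
    calc _ ≤ ‖(1 - t) • a‖ + ‖t • a'‖ := norm_add_le _ _
      _ = (1 - t) * ‖a‖ + t * ‖a'‖ := by
          rw [norm_smul, norm_smul, Real.norm_of_nonneg (by linarith [ht.2]),
            Real.norm_of_nonneg ht.1]
      _ ≤ (1 - t) * ρ₁ + t * ρ₁ := add_le_add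
          (mul_le_mul_of_nonneg_left ha (by linarith [ht.2])) (mul_le_mul_of_nonneg_left ha' ht.1)
      _ = ρ₁ := by ring
  have hqd : ∀ t ∈ Set.Icc (0 : ℝ) 1, dist (q t) a < δ := by
    intro t ht
    rw [dist_eq_norm]
    have h1 : q t - a = t • (a' - a) := by simp [hq]
    rw [h1, norm_smul, Real.norm_of_nonneg ht.1]
    rw [dist_eq_norm] at hda
    calc t * ‖a' - a‖ ≤ 1 * ‖a' - a‖ := mul_le_mul_of_nonneg_right ht.2 (norm_nonneg _)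
      _ < δ := by linarith
  have hqcont : Continuous q := by
    simp only [hq]
    fun_prop
  have hψc : ContinuousOn ψ (Metric.closedBall 0 ρ₁) := by
    have h1 : LipschitzOnWith 2 ψ (Metric.closedBall 0 ρ₁) := by
      refine LipschitzOnWith.of_dist_le_mul fun b hb b' hb' => ?_
      rw [mem_closedBall_zero_iff] at hb hb'
      rw [dist_eq_norm b b']
      exact hψ.le b b' hb hb'
    exact h1.continuousOn
  have hγc : ContinuousOn (fun t => ψ (q t)) (Set.Icc 0 1) :=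
    hψc.comp hqcont.continuousOn (fun t ht => by
      rw [mem_closedBall_zero_iff]; exact hqn t ht)
  have hq0 : q 0 = a := by simp [hq]
  have hq1 : q 1 = a' := by simp [hq]
  obtain ⟨x', hx', hu, hlc⟩ := htr (ψ a) (fun t => ψ (q t)) hγc (by simp only [hq0])
    (fun t ht => hrel _ _ ha (hqn t ht)) x hx hax (fun t ht => by
      have h2 := dn_pos_of_half (hsmall (q t) (hqn t ht) (hqd t ht))
      exact (lt_of_lt_of_le (by norm_num) h2).ne')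
  simp only [hq1] at hu hlc
  refine ⟨x', hx', hu, ?_⟩
  rw [hlc]
  have h1 := dn_pos_of_half (hsmall a' ha' hda)
  have h1' : dn (T.th (ψ a) (ψ a')) L ≠ 0 := (lt_of_lt_of_le (by norm_num) h1).ne'
  have h2 : 1 / 2 ≤ Real.sqrt (dn (T.th (ψ a) (ψ a')) L) := by
    rw [Real.le_sqrt' (by norm_num)]
    linarith
  have h3 := norm_mobV (c.eta_sim (ψ a) (ψ a')) h1'
  have h4 : ‖c.eta (ψ a) (ψ a')‖ ≤ c.M := c.eta_le _ _ ((hrel a a' ha ha').mono hεc)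
  have h5 : ‖mobV (c.eta (ψ a) (ψ a')) (T.th (ψ a) (ψ a')) L‖ * (1 / 2) ≤ c.M * ‖L‖ := by
    calc _ ≤ ‖mobV (c.eta (ψ a) (ψ a')) (T.th (ψ a) (ψ a')) L‖ *
          Real.sqrt (dn (T.th (ψ a) (ψ a')) L) := mul_le_mul_of_nonneg_left h2 (norm_nonneg _)
      _ = ‖c.eta (ψ a) (ψ a')‖ * ‖L‖ := h3
      _ ≤ c.M * ‖L‖ := mul_le_mul_of_nonneg_right h4 (norm_nonneg _)
  linarith

theorem loc_bdd {S : HypSys X E} {c : CV S p} (T : TH c) {R : Set X} (hR : MinR S R)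
    (hlev : LevProp T) (htr : TrackProp T R) :
    ∃ ρ₀ > 0, ∀ (d : ℕ) (v : X) (ρ ρ₁ : ℝ) (ψ : EuclideanSpace ℝ (Fin d) → X), ρ ≤ ρ₀ →
      IsChart S v ρ ρ₁ ψ → ∀ Q : Set (EuclideanSpace ℝ (Fin d)), IsCompact Q →
      (∀ a ∈ Q, ‖a‖ < ρ₁ ∧ ∃ x ∈ R, UAsym S (ψ a) x) →
      ∃ A₀ : ℝ, ∀ a ∈ Q, ∃ x ∈ R, UAsym S (ψ a) x ∧ ‖c.lc (ψ a) x‖ ≤ A₀ := by
  obtain ⟨ρ₂, hρ₂, hcont⟩ := th_chart_cont T hlev
  obtain ⟨εT, hεT, hεT', htr⟩ := htr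
  refine ⟨min ρ₂ (εT / 2), lt_min hρ₂ (by positivity), ?_⟩
  intro d v ρ ρ₁ ψ hρ hψ Q hQ hQ2
  have h1 : ρ ≤ ρ₂ := hρ.trans (min_le_left _ _)
  have h2 : 2 * ρ ≤ εT := by
    have := hρ.trans (min_le_right _ _)
    linarith
  refine hQ.induction_on (p := fun s => ∃ A₀ : ℝ, ∀ a ∈ s, ∃ x ∈ R,
    UAsym S (ψ a) x ∧ ‖c.lc (ψ a) x‖ ≤ A₀) ⟨0, fun a ha => absurd ha (Set.notMem_empty a)⟩
    ?_ ?_ ?_
  · rintro s t hst ⟨A, hA⟩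
    exact ⟨A, fun a ha => hA a (hst ha)⟩
  · rintro s t ⟨A, hA⟩ ⟨B, hB⟩
    refine ⟨max A B, fun a ha => ?_⟩
    rcases ha with ha | ha
    · obtain ⟨x, hx, hx1, hx2⟩ := hA a ha
      exact ⟨x, hx, hx1, hx2.trans (le_max_left _ _)⟩
    · obtain ⟨x, hx, hx1, hx2⟩ := hB a ha
      exact ⟨x, hx, hx1, hx2.trans (le_max_right _ _)⟩
  · intro a ha
    obtain ⟨hal, x, hx, hax⟩ := hQ2 a ha
    obtain ⟨δ, hδ, h3⟩ := loc_track T hεT hεT' hcont htr h1 h2 hψ hal.le hx hax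
    refine ⟨Metric.ball a δ ∩ Q, ?_, 2 * c.M * ‖c.lc (ψ a) x‖, ?_⟩
    · exact Filter.inter_mem (mem_nhdsWithin_of_mem_nhds (Metric.ball_mem_nhds a hδ))
        self_mem_nhdsWithin
    · rintro a' ⟨ha', ha'Q⟩
      exact h3 a' (hQ2 a' ha'Q).1.le ha'

end Pool.Agent.H147R2.Vec
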