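import Pool.Agent.H147R2.CV.Defs
import Pool.Agent.H147R2.CV.AuxL

set_option autoImplicit false

namespace Pool.Agent.H147R2.Vec

open Pool.Agent.H721R2 Pool.Agent.H779R2.An Filter Topology MeasureTheory
open scoped BigOperators

variable {X E : Type*} [MetricSpace X] [CompactSpace X] [NormedAddCommGroup E]
  [InnerProductSpace ℝ E] [FiniteDimensional ℝ E] {p : ℕ}

namespace CThV

theorem M_pos {S : HypSys X E} (c : CV S p) : 0 < c.M := lt_of_lt_of_le one_pos c.one_le_M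

/-- size of the Moebius map -/
theorem mob_le {S : HypSys X E} (c : CV S p) {z z' : X} (hz : S.SRel c.ε₀ z z') (θ u : VV p)
    (h : ‖θ‖ * ‖u‖ ≤ 1 / 2) : ‖mobV (c.eta z z') θ u‖ ≤ 2 * c.M * ‖u‖ := by
  have h1 := dn_pos_of_half h
  have h2' : 0 < dn θ u := by linarith
  have h2 : dn θ u ≠ 0 := h2'.ne'
  have h3 := norm_mobV (c.eta_sim z z') h2
  have h4 : (1 : ℝ) / 2 ≤ Real.sqrt (dn θ u) := by
    apply Real.le_sqrt_of_sq_le
    linarith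
  have h5 := c.eta_le z z' hz
  have h6 : ‖mobV (c.eta z z') θ u‖ * (1 / 2) ≤ c.M * ‖u‖ := by
    calc ‖mobV (c.eta z z') θ u‖ * (1 / 2) ≤ ‖mobV (c.eta z z') θ u‖ * Real.sqrt (dn θ u) :=
          mul_le_mul_of_nonneg_left h4 (norm_nonneg _)
      _ = ‖c.eta z z'‖ * ‖u‖ := h3
      _ ≤ _ := mul_le_mul_of_nonneg_right h5 (norm_nonneg _)
  linarith

/-- Corners, with small sides. -/
theorem corner {S : HypSys X E} (c : CV S p) (κ : ℝ) (hκ : 0 < κ) (hκε : κ ≤ c.ε₀)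
    (ε₁ : ℝ) (hκ1 : κ ≤ ε₁) (thl : X → X → VV p)
    (h2 : ∀ z z' q q', S.SRel ε₁ z z' → S.URel ε₁ z q → S.SRel ε₁ q q' → S.URel ε₁ z' q' →
      ‖thl z z'‖ * ‖c.lc z q‖ ≤ 1 / 2 ∧ c.lc z' q' = mobV (c.eta z z') (thl z z') (c.lc z q)) :
    ∃ ε₂ > 0, ε₂ ≤ κ ∧ ∀ δ > 0, ∃ ρ > 0, ∀ z z', S.SRel ε₂ z z' → ∀ q,
      UAsym S z q → ‖c.lc z q‖ ≤ ρ → S.URel δ z q ∧ ∃ q', UAsym S z' q' ∧ S.SRel κ q q' ∧
        S.URel δ z' q' ∧ ‖c.lc z' q'‖ ≤ 2 * c.M * ‖c.lc z q‖ := by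
  obtain ⟨ε, hε, hc⟩ := exists_corner S κ hκ
  have hM := M_pos c
  refine ⟨min ε κ, lt_min hε hκ, min_le_right _ _, fun δ hδ => ?_⟩
  obtain ⟨ρ₁, hρ₁, h3⟩ := c.small (min δ (min ε κ)) (lt_min hδ (lt_min hε hκ))
  refine ⟨min ρ₁ (ρ₁ / (2 * c.M)), lt_min hρ₁ (by positivity), fun z z' hz q hq hlq => ?_⟩
  have hq2 : ‖c.lc z q‖ ≤ ρ₁ := hlq.trans (min_le_left _ _)
  have hq3 : ‖c.lc z q‖ ≤ ρ₁ / (2 * c.M) := hlq.trans (min_le_right _ _)
  have hU := h3 z q hq hq2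
  refine ⟨hU.mono (min_le_left _ _), ?_⟩
  obtain ⟨q', h4, h5⟩ := hc z z' q (hz.mono (min_le_left _ _))
    (hU.mono ((min_le_right _ _).trans (min_le_left _ _)))
  obtain ⟨h6, h7⟩ := h2 z z' q q' (hz.mono ((min_le_right _ _).trans hκ1))
    (hU.mono ((min_le_right _ _).trans ((min_le_right _ _).trans hκ1))) (h5.mono hκ1)
    (h4.mono hκ1)
  have h8 : ‖c.lc z' q'‖ ≤ 2 * c.M * ‖c.lc z q‖ := by
    rw [h7]
    exact mob_le c (hz.mono ((min_le_right _ _).trans hκε)) _ _ h6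
  have h9 : UAsym S z' q' := c.geo.uasym z' q' (h4.mono hκε)
  have h10 : ‖c.lc z' q'‖ ≤ ρ₁ := by
    refine h8.trans ?_
    rw [le_div_iff₀ (by positivity)] at hq3
    linarith
  exact ⟨q', h9, h5, (h3 z' q' h9 h10).mono (min_le_left _ _), h8⟩

theorem lam_pos {S : HypSys X E} (c : CV S p) (x : X) : 0 < ‖c.lam x‖ :=
  lt_of_lt_of_le (by norm_num) (c.lam_ge x)

theorem local_equi {S : HypSys X E} (c : CV S p) (κ : ℝ) (hκ : 0 < κ) (hκε : κ ≤ c.ε₀)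
    (ε₁ : ℝ) (hκ1 : κ ≤ ε₁) (thl : X → X → VV p)
    (h2 : ∀ z z' q q', S.SRel ε₁ z z' → S.URel ε₁ z q → S.SRel ε₁ q q' → S.URel ε₁ z' q' →
      ‖thl z z'‖ * ‖c.lc z q‖ ≤ 1 / 2 ∧ c.lc z' q' = mobV (c.eta z z') (thl z z') (c.lc z q))
    (ε₂ : ℝ) (hε₂κ : ε₂ ≤ κ)
    (hc : ∀ δ > 0, ∃ ρ > 0, ∀ z z', S.SRel ε₂ z z' → ∀ q,
      UAsym S z q → ‖c.lc z q‖ ≤ ρ → S.URel δ z q ∧ ∃ q', UAsym S z' q' ∧ S.SRel κ q q' ∧
        S.URel δ z' q' ∧ ‖c.lc z' q'‖ ≤ 2 * c.M * ‖c.lc z q‖)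
    (z z' : X) (hz : S.SRel ε₂ z z') :
    adj (c.lam z) (thl (S.g z) (S.g z')) = thl z z' := by
  have hM := M_pos c
  have hM1 := c.one_le_M
  have hε₁ : 0 < ε₁ := lt_of_lt_of_le hκ hκ1
  have hsas : SAsym S z z' := c.geo.sasym z z' (hz.mono (hε₂κ.trans hκε))
  obtain ⟨ρ₁, hρ₁, h3⟩ := hc ε₁ hε₁
  obtain ⟨ρ₂, hρ₂, h4⟩ := c.surj c.ε₀ c.geo.pos
  obtain ⟨ρ₃, hρ₃, h5⟩ := c.small ε₁ hε₁
  have hηpos : 0 < ‖c.eta z z'‖ := CV.eta_norm_pos c hsas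
  refine tm_theta_inj (ρ := min ρ₁ (min ρ₂ (ρ₃ / (c.M * (2 * c.M)))))
    (lt_min hρ₁ (lt_min hρ₂ (by positivity))) fun u hu => ?_
  have hu1 : ‖u‖ ≤ ρ₁ := hu.trans (min_le_left _ _)
  have hu2 : ‖u‖ ≤ ρ₂ := hu.trans ((min_le_right _ _).trans (min_le_left _ _))
  have hu3 : ‖u‖ ≤ ρ₃ / (c.M * (2 * c.M)) :=
    hu.trans ((min_le_right _ _).trans (min_le_right _ _))
  rw [le_div_iff₀ (by positivity)] at hu3
  obtain ⟨q, hq, hqu⟩ := h4 z u hu2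
  have hqa := c.geo.uasym z q hq
  obtain ⟨h6, q', h7, h8, h9, h10⟩ := h3 z z' hz q hqa (by rw [hqu]; exact hu1)
  rw [hqu] at h10
  have e1 : c.lc (S.g z) (S.g q) = c.lam z u := by rw [c.lc_equi z q hqa, hqu]
  have e2 : c.lc (S.g z') (S.g q') = c.lam z' (c.lc z' q') := c.lc_equi z' q' h7
  have hu0 : 0 ≤ ‖u‖ := norm_nonneg _
  have hMu : c.M * ‖u‖ ≤ ‖u‖ * (c.M * (2 * c.M)) := by
    have : c.M * ‖u‖ * 1 ≤ c.M * ‖u‖ * (2 * c.M) :=
      mul_le_mul_of_nonneg_left (by linarith) (by positivity)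
    linarith
  have hn1 : ‖c.lc (S.g z) (S.g q)‖ ≤ c.M * ‖u‖ := by
    rw [e1]
    exact (c.lam z).le_of_opNorm_le (c.lam_le z) u
  have hn2 : ‖c.lc (S.g z') (S.g q')‖ ≤ c.M * (2 * c.M * ‖u‖) := by
    rw [e2]
    exact ((c.lam z').le_of_opNorm_le (c.lam_le z') _).trans
      (mul_le_mul_of_nonneg_left h10 hM.le)
  have h11 : S.URel ε₁ (S.g z) (S.g q) := h5 _ _ hqa.map (by linarith)
  have h12 : S.URel ε₁ (S.g z') (S.g q') := h5 _ _ h7.map (by linarith)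
  obtain ⟨-, hA⟩ := h2 z z' q q' (hz.mono (hε₂κ.trans hκ1)) h6 (h8.mono hκ1) h9
  obtain ⟨-, hB⟩ := h2 (S.g z) (S.g z') (S.g q) (S.g q') (hz.mono (hε₂κ.trans hκ1)).map h11
    (h8.mono hκ1).map h12
  have heq := c.eta_equi z z' hsas
  rw [e1, e2, hA, hqu] at hB
  have h13 := mobV_scale (c.lam_sim z) heq (rfl : adj (c.lam z) (thl (S.g z) (S.g z')) = _) u
  rw [← hB] at h13
  have h14 := (c.lam_sim z').inj (lam_pos c z') h13
  exact (c.eta_sim z z').inj hηpos h14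

theorem local_comp {S : HypSys X E} (c : CV S p) (κ : ℝ) (hκ : 0 < κ) (hκε : κ ≤ c.ε₀)
    (ε₁ : ℝ) (hκ1 : κ + κ ≤ ε₁) (thl : X → X → VV p)
    (h2 : ∀ z z' q q', S.SRel ε₁ z z' → S.URel ε₁ z q → S.SRel ε₁ q q' → S.URel ε₁ z' q' →
      ‖thl z z'‖ * ‖c.lc z q‖ ≤ 1 / 2 ∧ c.lc z' q' = mobV (c.eta z z') (thl z z') (c.lc z q))
    (ε₂ : ℝ) (hε₂κ : ε₂ ≤ κ)
    (hc : ∀ δ > 0, ∃ ρ > 0, ∀ z z', S.SRel ε₂ z z' → ∀ q,
      UAsym S z q → ‖c.lc z q‖ ≤ ρ → S.URel δ z q ∧ ∃ q', UAsym S z' q' ∧ S.SRel κ q q' ∧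
        S.URel δ z' q' ∧ ‖c.lc z' q'‖ ≤ 2 * c.M * ‖c.lc z q‖)
    (x y z : X) (hxy : S.SRel ε₂ x y) (hyz : S.SRel ε₂ y z) (hxz : S.SRel ε₂ x z) :
    thl x z = thl x y + adj (c.eta x y) (thl y z) := by
  have hM := M_pos c
  have hκ1' : κ ≤ ε₁ := by linarith
  have hε₁ : 0 < ε₁ := lt_of_lt_of_le hκ hκ1'
  have hsxy : SAsym S x y := c.geo.sasym x y (hxy.mono (hε₂κ.trans hκε))
  have hsyz : SAsym S y z := c.geo.sasym y z (hyz.mono (hε₂κ.trans hκε))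
  have hsxz : SAsym S x z := c.geo.sasym x z (hxz.mono (hε₂κ.trans hκε))
  obtain ⟨ρ₁, hρ₁, h3⟩ := hc ε₁ hε₁
  obtain ⟨ρ₃, hρ₃, h5⟩ := c.surj c.ε₀ c.geo.pos
  refine mobV_eta_inj (η := c.eta x z) (η' := c.eta y z * c.eta x y)
    (ρ := min ρ₁ (min (ρ₁ / (2 * c.M)) ρ₃)) (c.eta_sim x z) (CV.eta_norm_pos c hsxz)
    (c.eta_comp x y z hsxy hsyz).symm (lt_min hρ₁ (lt_min (by positivity) hρ₃)) fun u hu => ?_
  have hu1 : ‖u‖ ≤ ρ₁ := hu.trans (min_le_left _ _)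
  have hu2 : ‖u‖ ≤ ρ₁ / (2 * c.M) := hu.trans ((min_le_right _ _).trans (min_le_left _ _))
  have hu3 : ‖u‖ ≤ ρ₃ := hu.trans ((min_le_right _ _).trans (min_le_right _ _))
  rw [le_div_iff₀ (by positivity)] at hu2
  obtain ⟨q, hq, hqu⟩ := h5 x u hu3
  have hqa := c.geo.uasym x q hq
  obtain ⟨h6, q', h7, h8, h9, h10⟩ := h3 x y hxy q hqa (by rw [hqu]; exact hu1)
  rw [hqu] at h10
  obtain ⟨h11, q'', h12, h13, h14, h15⟩ := h3 y z hyz q' h7 (by linarith)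
  obtain ⟨hA1, hA⟩ := h2 x y q q' (hxy.mono (hε₂κ.trans hκ1')) h6 (h8.mono hκ1') h9
  obtain ⟨-, hB⟩ := h2 y z q' q'' (hyz.mono (hε₂κ.trans hκ1')) h11 (h13.mono hκ1') h14
  obtain ⟨-, hC⟩ := h2 x z q q'' (hxz.mono (hε₂κ.trans hκ1')) h6 ((h8.trans h13).mono hκ1) h14
  rw [hqu] at hA hC hA1
  have h16 := dn_pos_of_half hA1
  have h17 : dn (thl x y) u ≠ 0 := by
    intro h0
    rw [h0] at h16
    norm_num at h16
  rw [← hC, hB, hA, mobV_mobV (c.eta_sim x y) _ h17]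

theorem SRel_le {S : HypSys X E} {ε : ℝ} {x y : X} {n m : ℕ} (hnm : n ≤ m)
    (h : S.SRel ε (S.g^[n] x) (S.g^[n] y)) : S.SRel ε (S.g^[m] x) (S.g^[m] y) := by
  obtain ⟨k, rfl⟩ := Nat.exists_eq_add_of_le hnm
  rw [add_comm, Function.iterate_add_apply, Function.iterate_add_apply]
  exact h.iter k

end CThV

open CThV in
/-- The nonlinearity cocycle. -/
theorem exists_th {S : HypSys X E} (c : CV S p) (h : MobLoc c) : Nonempty (TH c) := by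
  classical
  obtain ⟨ε₁, hε₁, hε₁', A, hA, thl, h1, h2⟩ := h
  have hκ : 0 < ε₁ / 2 := by positivity
  have hκ0 : ε₁ / 2 ≤ c.ε₀ := by linarith
  obtain ⟨ε₂, hε₂, hε₂κ, hc⟩ := corner c (ε₁ / 2) hκ hκ0 ε₁ (by linarith) thl h2
  have hequi := local_equi c (ε₁ / 2) hκ hκ0 ε₁ (by linarith) thl h2 ε₂ hε₂κ hc
  have hcomp := local_comp c (ε₁ / 2) hκ hκ0 ε₁ (by linarith) thl h2 ε₂ hε₂κ hc
  have hM := M_pos c
  have hε₂1 : ε₂ ≤ ε₁ := by linarith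
  set F : ℕ → X → X → VV p := fun n x y => adj (c.Lp n x) (thl (S.g^[n] x) (S.g^[n] y)) with hF
  have hFs : ∀ n x y, S.SRel ε₂ (S.g^[n] x) (S.g^[n] y) → F (n + 1) x y = F n x y := by
    intro n x y h
    have h3 := hequi _ _ h
    simp only [hF]
    rw [CV.Lp_succ, adj_mul, Function.iterate_succ_apply', Function.iterate_succ_apply',
      ContinuousLinearMap.mul_apply, h3]
  have hFm : ∀ n m x y, n ≤ m → S.SRel ε₂ (S.g^[n] x) (S.g^[n] y) → F m x y = F n x y := by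
    intro n m x y hnm h
    induction m, hnm using Nat.le_induction with
    | base => rfl
    | succ m hm ih => rw [hFs m x y (SRel_le hm h), ih]
  set T : X → X → VV p := fun x y =>
    if h : ∃ n, S.SRel ε₂ (S.g^[n] x) (S.g^[n] y) then F h.choose x y else 0 with hT
  have hTe : ∀ n x y, S.SRel ε₂ (S.g^[n] x) (S.g^[n] y) → T x y = F n x y := by
    intro n x y h
    have hex : ∃ n, S.SRel ε₂ (S.g^[n] x) (S.g^[n] y) := ⟨n, h⟩
    have h3 : T x y = F hex.choose x y := by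
      simp only [hT]
      rw [dif_pos hex]
    rw [h3, ← hFm _ (max n hex.choose) x y (le_max_right _ _) hex.choose_spec,
      hFm n (max n hex.choose) x y (le_max_left _ _) h]
  have hT0 : ∀ x y, S.SRel ε₂ x y → T x y = thl x y := by
    intro x y h
    rw [hTe 0 x y h]
    simp only [hF]
    rw [CV.Lp_zero, adj_one]
    rfl
  set ε' : ℝ := min ε₂ (1 / (2 * (A * c.M))) with hε'
  have hε'0 : 0 < ε' := lt_min hε₂ (by positivity)
  have hε'2 : ε' ≤ ε₂ := min_le_left _ _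
  refine ⟨{
    ε := ε'
    ε_pos := hε'0
    ε_le := hε'2.trans (hε₂1.trans hε₁')
    C := A
    C_pos := hA
    th := T
    th_self := ?_
    th_equi := ?_
    th_comp := ?_
    th_le := ?_
    half := ?_
    mob := ?_ }⟩
  · intro x
    have hr : S.SRel ε₂ x x := fun k => by rw [dist_self]; exact hε₂.le
    have h3 := hcomp x x x hr hr hr
    rw [c.eta_self, adj_one, ContinuousLinearMap.one_apply] at h3
    rw [hT0 x x hr]
    exact (left_eq_add.1 h3)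
  · intro x y h
    obtain ⟨N, hN⟩ := h.map.eventually hε₂
    have h3 := hN N le_rfl
    rw [hTe N _ _ h3, hTe (N + 1) x y (by
      rw [Function.iterate_succ_apply, Function.iterate_succ_apply]; exact h3)]
    simp only [hF]
    rw [CV.Lp_succ', adj_mul, Function.iterate_succ_apply, Function.iterate_succ_apply,
      ContinuousLinearMap.mul_apply]
  · intro x y z hxy hyz
    obtain ⟨N1, hN1⟩ := hxy.eventually hε₂
    obtain ⟨N2, hN2⟩ := hyz.eventually hε₂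
    obtain ⟨N3, hN3⟩ := (hxy.trans hyz).eventually hε₂
    set N := max N1 (max N2 N3) with hN
    have h3 := hN1 N (le_max_left _ _)
    have h4 := hN2 N ((le_max_left _ _).trans (le_max_right _ _))
    have h5 := hN3 N ((le_max_right _ _).trans (le_max_right _ _))
    rw [hTe N x z h5, hTe N x y h3, hTe N y z h4]
    simp only [hF]
    rw [hcomp _ _ _ h3 h4 h5, map_add]
    have h6 := CV.eta_iter c hxy N
    rw [← ContinuousLinearMap.mul_apply, ← ContinuousLinearMap.mul_apply, ← adj_mul, ← adj_mul,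
      h6]
  · intro x y h
    rw [hT0 x y (h.mono hε'2)]
    exact h1 x y (h.mono (hε'2.trans hε₂1))
  · intro z z' q h h'
    rw [hT0 z z' (h.mono hε'2)]
    have h3 := h1 z z' (h.mono (hε'2.trans hε₂1))
    have h4 := c.lc_le z q (h'.mono (hε'2.trans (hε₂1.trans hε₁')))
    have h5 := h'.dist_le
    have h6 : ε' ≤ 1 / (2 * (A * c.M)) := min_le_right _ _
    rw [le_div_iff₀ (by positivity)] at h6
    have h7 : c.M * dist z q ≤ c.M * ε' := mul_le_mul_of_nonneg_left h5 hM.le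
    have h8 : ‖thl z z'‖ * ‖c.lc z q‖ ≤ A * (c.M * ε') :=
      mul_le_mul h3 (h4.trans h7) (norm_nonneg _) hA.le
    linarith
  · intro z z' q q' h3 h4 h5 h6
    rw [hT0 z z' (h3.mono hε'2)]
    exact (h2 z z' q q' (h3.mono (hε'2.trans hε₂1)) (h4.mono (hε'2.trans hε₂1))
      (h5.mono (hε'2.trans hε₂1)) (h6.mono (hε'2.trans hε₂1))).2

end Pool.Agent.H147R2.Vec
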