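import Pool.Agent.H147R2.CV.Defs
import Pool.Agent.H147R2.CV.AuxL

set_option autoImplicit false

namespace Pool.Agent.H147R2.Vec

open Pool.Agent.H721R2 Pool.Agent.H779R2.An Filter Topology MeasureTheory
open scoped BigOperators

variable {X E : Type*} [MetricSpace X] [CompactSpace X] [NormedAddCommGroup E]
  [InnerProductSpace ℝ E] [FiniteDimensional ℝ E] {p : ℕ}

omit [FiniteDimensional ℝ E] in
/-- Continuity of the cocycle `th` along a path inside a plaque. -/
private theorem tr_cont {S : HypSys X E} {c : CV S p} (T : TH c) (hlev : LevProp T) {v : X}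
    {γ : ℝ → X} (hγ : ContinuousOn γ (Set.Icc 0 1))
    (hrel : ∀ t ∈ Set.Icc (0 : ℝ) 1, S.SRel (T.ε / 2) v (γ t)) :
    ContinuousOn (fun t => T.th v (γ t)) (Set.Icc 0 1) := by
  obtain ⟨C, hC, εl, hεl, -, hl⟩ := hlev
  have hTp := T.ε_pos
  have hM : (0 : ℝ) < c.M := by linarith [c.one_le_M]
  have hgeo := c.geo
  have hpair : ∀ t ∈ Set.Icc (0 : ℝ) 1, ∀ s ∈ Set.Icc (0 : ℝ) 1, S.SRel c.ε₀ (γ t) (γ s) := by
    intro t ht s hs
    have h1 := (hrel t ht).symm.trans (hrel s hs)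
    rw [add_halves] at h1
    exact h1.mono T.ε_le
  rw [Metric.continuousOn_iff]
  intro t ht η hη
  -- choose the level
  have hlim : Tendsto (fun k : ℕ => c.M * (C * (1 / 16 : ℝ) ^ k)) atTop (𝓝 0) := by
    have h1 : Tendsto (fun k : ℕ => (1 / 16 : ℝ) ^ k) atTop (𝓝 0) :=
      tendsto_pow_atTop_nhds_zero_of_lt_one (by norm_num) (by norm_num)
    have := (h1.const_mul C).const_mul c.M
    simpa using this
  obtain ⟨k, hk⟩ := ((tendsto_order.mp hlim).2 η hη).exists
  obtain ⟨δ, hδ, hlev⟩ := SRel_level hgeo k εl hεl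
  obtain ⟨r, hr, hcont⟩ := (Metric.continuousOn_iff.mp hγ) t ht δ hδ
  refine ⟨r, hr, fun s hs hst => ?_⟩
  have h1 := hcont s hs hst
  have h2 : S.SRel εl (S.g.symm^[k] (γ t)) (S.g.symm^[k] (γ s)) :=
    hlev _ _ (hpair t ht s hs) (by rw [dist_comm]; exact h1.le)
  have h3 := hl k _ _ h2
  have hvt : S.SRel c.ε₀ v (γ t) := (hrel t ht).mono (by linarith [T.ε_le])
  have h4 := T.th_comp v (γ t) (γ s) (hgeo.sasym _ _ hvt) (hgeo.sasym _ _ (hpair t ht s hs))
  rw [dist_eq_norm, h4, add_sub_cancel_left]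
  have h5 := c.eta_le _ _ hvt
  have h6 : ‖T.th (γ t) (γ s)‖ ≤ C * (1 / 16 : ℝ) ^ k :=
    h3.trans (mul_le_mul_of_nonneg_left (CV.cw_le c k _) hC.le)
  calc ‖adj (c.eta v (γ t)) (T.th (γ t) (γ s))‖
      ≤ ‖adj (c.eta v (γ t))‖ * ‖T.th (γ t) (γ s)‖ := ContinuousLinearMap.le_opNorm _ _
    _ = ‖c.eta v (γ t)‖ * ‖T.th (γ t) (γ s)‖ := by rw [norm_adj]
    _ ≤ c.M * (C * (1 / 16 : ℝ) ^ k) := mul_le_mul h5 h6 (norm_nonneg _) hM.le
    _ < η := hk

theorem track {S : HypSys X E} {c : CV S p} (T : TH c) {R : Set X} (hR : MinR S R)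
    (hlev : LevProp T) : TrackProp T R := by
  have hTp := T.ε_pos
  have hM : (0 : ℝ) < c.M := by linarith [c.one_le_M]
  have hgeo := c.geo
  refine ⟨T.ε / 2, by positivity, by linarith, ?_⟩
  intro v γ hγ hγ0 hrel x hx hvx hpole
  obtain ⟨ε2, hε2, hcor⟩ := exists_corner S T.ε hTp
  set ε3 := min T.ε ε2 with hε3
  have hε3p : 0 < ε3 := lt_min hTp hε2
  obtain ⟨ρ, hρ, hsmall⟩ := c.small ε3 hε3p
  have hpair : ∀ t ∈ Set.Icc (0 : ℝ) 1, ∀ s ∈ Set.Icc (0 : ℝ) 1, S.SRel c.ε₀ (γ t) (γ s) := by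
    intro t ht s hs
    have h1 := (hrel t ht).symm.trans (hrel s hs)
    rw [add_halves] at h1
    exact h1.mono T.ε_le
  have hvt : ∀ t ∈ Set.Icc (0 : ℝ) 1, S.SRel c.ε₀ v (γ t) := fun t ht =>
    (hrel t ht).mono (by linarith [T.ε_le])
  set a := c.lc v x with ha
  -- lower bound of the denominator
  have hfc : ContinuousOn (fun t => Real.sqrt (dn (T.th v (γ t)) a)) (Set.Icc 0 1) :=
    ((continuous_dn a).comp_continuousOn (tr_cont T hlev hγ hrel)).sqrt
  obtain ⟨t0, ht0, hmin⟩ := isCompact_Icc.exists_isMinOn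
    (Set.nonempty_Icc.mpr (zero_le_one (α := ℝ))) hfc
  set c₀ := Real.sqrt (dn (T.th v (γ t0)) a) with hc₀
  have hc₀p : 0 < c₀ := by
    rw [hc₀, Real.sqrt_pos]
    exact lt_of_le_of_ne (dn_nonneg _ _) (hpole t0 ht0).symm
  have hden : ∀ t ∈ Set.Icc (0 : ℝ) 1, c₀ ≤ Real.sqrt (dn (T.th v (γ t)) a) :=
    fun t ht => hmin ht
  have hmobB : ∀ t ∈ Set.Icc (0 : ℝ) 1,
      ‖mobV (c.eta v (γ t)) (T.th v (γ t)) a‖ ≤ c.M * ‖a‖ / c₀ := by
    intro t ht
    rw [le_div_iff₀ hc₀p]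
    have h1 := c.eta_le _ _ (hvt t ht)
    calc ‖mobV (c.eta v (γ t)) (T.th v (γ t)) a‖ * c₀
        ≤ ‖mobV (c.eta v (γ t)) (T.th v (γ t)) a‖ * Real.sqrt (dn (T.th v (γ t)) a) :=
          mul_le_mul_of_nonneg_left (hden t ht) (norm_nonneg _)
      _ = ‖c.eta v (γ t)‖ * ‖a‖ := norm_mobV (c.eta_sim _ _) (hpole t ht)
      _ ≤ c.M * ‖a‖ := mul_le_mul_of_nonneg_right h1 (norm_nonneg _)
  set B := c.M * ‖a‖ / c₀ with hB
  have hB0 : 0 ≤ B := by positivity
  -- level
  obtain ⟨n, hn⟩ : ∃ n : ℕ, B * (1 / 16 : ℝ) ^ n ≤ ρ := by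
    have h1 : Tendsto (fun k : ℕ => B * (1 / 16 : ℝ) ^ k) atTop (𝓝 (B * 0)) :=
      (tendsto_pow_atTop_nhds_zero_of_lt_one (by norm_num) (by norm_num)).const_mul B
    rw [mul_zero] at h1
    obtain ⟨n, hn⟩ := ((tendsto_order.mp h1).2 ρ hρ).exists
    exact ⟨n, hn.le⟩
  obtain ⟨δ, hδ, hlevel⟩ := SRel_level hgeo n ε3 hε3p
  -- uniform continuity
  have huc : UniformContinuousOn γ (Set.Icc 0 1) :=
    isCompact_Icc.uniformContinuousOn_of_continuous hγ
  obtain ⟨r, hr, huc⟩ := Metric.uniformContinuousOn_iff.mp huc δ hδ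
  obtain ⟨m, hm⟩ := exists_nat_gt (1 / r)
  have hm0 : (0 : ℝ) < m := lt_trans (by positivity) hm
  have hm1 : (1 : ℝ) / m < r := by
    rw [div_lt_iff₀ hm0]
    rw [div_lt_iff₀ hr] at hm
    linarith
  have hti : ∀ i : ℕ, i ≤ m → (i : ℝ) / m ∈ Set.Icc (0 : ℝ) 1 := by
    intro i hi
    refine ⟨by positivity, ?_⟩
    rw [div_le_one hm0]
    exact_mod_cast hi
  have hstep : ∀ i : ℕ, i ≤ m → ∃ x' ∈ R, UAsym S (γ ((i : ℝ) / m)) x' ∧
      c.lc (γ ((i : ℝ) / m)) x' =
        mobV (c.eta v (γ ((i : ℝ) / m))) (T.th v (γ ((i : ℝ) / m))) a := by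
    intro i
    induction i with
    | zero =>
      intro _
      rw [Nat.cast_zero, zero_div, hγ0]
      refine ⟨x, hx, hvx, ?_⟩
      rw [c.eta_self, T.th_self, mobV_one_zero]
    | succ i ih =>
      intro hi
      obtain ⟨xi, hxi, hui, hli⟩ := ih (by omega)
      have ht := hti i (by omega)
      have hs := hti (i + 1) hi
      set t := (i : ℝ) / m with htdef
      set s := ((i + 1 : ℕ) : ℝ) / m with hsdef
      have hts : dist (γ t) (γ s) ≤ δ := by
        refine (huc t ht s hs ?_).le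
        rw [Real.dist_eq, htdef, hsdef, ← sub_div]
        push_cast
        rw [sub_add_cancel_left, abs_div, abs_neg, abs_one, abs_of_pos hm0]
        exact hm1
      have hww := hlevel _ _ (hpair t ht s hs) hts
      set w := S.g.symm^[n] (γ t) with hw
      set w' := S.g.symm^[n] (γ s) with hw'
      set y := S.g.symm^[n] xi with hy
      have hgw : S.g^[n] w = γ t := Pool.Agent.H779R2.An.iter_iter_symm S n _
      have hgw' : S.g^[n] w' = γ s := Pool.Agent.H779R2.An.iter_iter_symm S n _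
      have hgy : S.g^[n] y = xi := Pool.Agent.H779R2.An.iter_iter_symm S n _
      have hwy : UAsym S w y := hui.symm_iter n
      have hyR : y ∈ R := by
        rw [hy]
        have : ∀ k : ℕ, S.g.symm^[k] xi ∈ R := by
          intro k
          induction k with
          | zero => exact hxi
          | succ k ih =>
            rw [Function.iterate_succ_apply']
            exact hR.map' _ ih
        exact this n
      have hlcn := c.lc_iter hwy n
      rw [hgw, hgy] at hlcn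
      have hlcs : ‖c.lc w y‖ ≤ ρ := by
        have h1 : ‖c.lc (γ t) xi‖ ≤ B := by rw [hli]; exact hmobB t ht
        have h0 := c.norm_lc_iter hwy n
        rw [hgw, hgy] at h0
        rw [h0] at h1
        have h2 := c.Lp_ge n w
        have h3 : (16 : ℝ) ^ n * ‖c.lc w y‖ ≤ B :=
          (mul_le_mul_of_nonneg_right h2 (norm_nonneg _)).trans h1
        have h4 : ‖c.lc w y‖ = (1 / 16 : ℝ) ^ n * (16 ^ n * ‖c.lc w y‖) := by
          rw [← mul_assoc, ← mul_pow]; norm_num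
        rw [h4]
        calc _ ≤ (1 / 16 : ℝ) ^ n * B := mul_le_mul_of_nonneg_left h3 (by positivity)
          _ = B * (1 / 16 : ℝ) ^ n := mul_comm _ _
          _ ≤ ρ := hn
      have hury := hsmall w y hwy hlcs
      obtain ⟨y', hy'1, hy'2⟩ := hcor w w' y (hww.mono (min_le_right _ _))
        (hury.mono (min_le_right _ _))
      have hmb := T.mob w w' y y' (hww.mono (min_le_left _ _)) (hury.mono (min_le_left _ _))
        hy'2 hy'1
      have hsww : SAsym S w w' := hgeo.sasym _ _ (hww.mono ((min_le_left _ _).trans T.ε_le))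
      have hsyy : SAsym S y y' := hgeo.sasym _ _ (hy'2.mono T.ε_le)
      have hy'R : y' ∈ R := hR.sat _ hyR _ hsyy
      have huw'y' : UAsym S w' y' := hgeo.uasym _ _ (hy'1.mono T.ε_le)
      refine ⟨S.g^[n] y', ?_, ?_, ?_⟩
      · have : ∀ k : ℕ, S.g^[k] y' ∈ R := by
          intro k
          induction k with
          | zero => exact hy'R
          | succ k ih =>
            rw [Function.iterate_succ_apply']
            exact hR.map _ ih
        exact this n
      · rw [← hgw']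
        exact huw'y'.iter n
      · have h1 := c.lc_iter huw'y' n
        have h2 := c.eta_iter hsww n
        have h3 := T.th_iter hsww n
        rw [hgw, hgw'] at h2 h3
        rw [hgw', hmb, mobV_scale (c.Lp_sim n w) h2 h3, ← hlcn, hli] at h1
        rw [h1, mobV_mobV (c.eta_sim _ _) _ (hpole t ht)]
        have h4 := hgeo.sasym _ _ (hvt t ht)
        have h5 := hgeo.sasym _ _ (hpair t ht s hs)
        rw [c.eta_comp _ _ _ h4 h5, T.th_comp _ _ _ h4 h5]
  obtain ⟨x', h1, h2, h3⟩ := hstep m le_rfl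
  rw [div_self hm0.ne'] at h2 h3
  exact ⟨x', h1, h2, h3⟩

end Pool.Agent.H147R2.Vec
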