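import Pool.Agent.H779R2.An.Assembly
import Pool.Agent.H779R2.An.CChart
import Pool.Agent.H779R2.An.CMinR
import Pool.Agent.H779R2.An.CDense
import Pool.Agent.H147R2.CV.Conf1
import Pool.Agent.H147R2.CV.Conf2
import Pool.Agent.H147R2.CV.CC
import Pool.Agent.H147R2.CV.ExCV
import Pool.Agent.H147R2.CV.Hol
import Pool.Agent.H147R2.CV.Loc
import Pool.Agent.H147R2.CV.Th
import Pool.Agent.H147R2.CV.Lev
import Pool.Agent.H147R2.CV.Track
import Pool.Agent.H147R2.CV.NonIso
import Pool.Agent.H147R2.CV.Upper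
import Pool.Agent.H147R2.CV.Trans
import Pool.Agent.H147R2.CV.Lower
import Pool.Agent.H147R2.CV.Up
import Pool.Agent.H147R2.CV.Down
import Pool.Agent.H147R2.CV.Sweep
import Pool.Agent.H147R2.CV.Cover

set_option autoImplicit false

namespace Pool.Agent.H147R2.Vec

open Pool.Agent.H721R2 Pool.Agent.H779R2.An Filter Topology MeasureTheory
open scoped BigOperators

variable {X E : Type*} [MetricSpace X] [CompactSpace X] [NormedAddCommGroup E]
  [InnerProductSpace ℝ E] [FiniteDimensional ℝ E] {p : ℕ}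

/-- Abstract main theorem, real conformal case of rank `p ≥ 3`. -/
theorem abstract_main3 [PreconnectedSpace X] (S : HypSys X E) {Q r : ℝ} (hQ : Quad S Q r)
    (B₀ : CB0 S) (hp : 3 ≤ p) (d : ℕ) (hd : 2 ≤ d)
    (hfu : ∀ x, Module.finrank ℝ (S.Vu x) = p) (hfs : ∀ x, Module.finrank ℝ (S.Vs x) = d)
    (U V : Set X) (hU : IsOpen U) (hUn : U.Nonempty) (hV : IsOpen V) (hVn : V.Nonempty) :
    ∃ n : ℕ, (S.g^[n] '' U ∩ V).Nonempty := by
  obtain ⟨K, hK⟩ := qc_of_cb0 B₀
  have hflat : Nonempty (Flat S) := by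
    obtain ⟨Lc, a1, a2, a3⟩ := hasLc S hQ hK
    obtain ⟨τ, b1, b2, b3⟩ := hasTau S hQ hK
    obtain ⟨H, c1, c2, c3⟩ := hasHol S hQ hK
    obtain ⟨L⟩ := exists_lin1 (S := S) ⟨K, hK, Lc, a1, a2, a3, τ, b1, b2, b3, H, c1, c2, c3⟩
    exact exists_flat L
  obtain ⟨F⟩ := hflat
  obtain ⟨c⟩ := exists_cv F B₀ (conf_prop F B₀) (cd F) (cc_prop F) p hp hfu
  obtain ⟨T⟩ := exists_th c (mob_loc c (hol_v c))
  have hlev := lev_prop T
  have hchart := chart_prop S d hfs
  apply transitive_of_no_trap S _ U V hU hUn hV hVn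
  intro W hW hne htrap
  by_contra hnu
  obtain ⟨R, hR2, hRW⟩ := exists_minR2 S W hW hne hnu htrap
  have hR := hR2.toMinR
  have htr := track T hR hlev
  have hni := non_iso c hR2 (by omega : 1 ≤ d) hchart
  have hB := upperB c hR
  have hA := lowerA c hR hB (trans_prop T hR) (dense_prop hR2)
  have hcc := count_contra T hR hlev htr hni (up_bound T hR hB hA) (down_bound c hR hB hA) hA hB
    d hd
  have hcov := cover2 T hR hlev htr d hchart hcc
  exact trap_contra hR hRW hW hne htrap hcov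

end Pool.Agent.H147R2.Vec
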