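import Pool.Agent.H779R2.An.CDefs

set_option autoImplicit false

/-!
Vector version of `Pool/Agent/H779R2/An/CDefs.lean`: the unstable bundle has rank `p ≥ 3` and
carries an invariant continuous conformal structure.  `ℂ` is replaced by `VV p = ℝ^p`, complex
multipliers by linear similarities, Moebius maps `η u / (1 - θ u)` by
`η ((u - ‖u‖² θ) / (1 - 2⟨θ,u⟩ + ‖θ‖²‖u‖²))`.
-/

namespace Pool.Agent.H147R2.Vec

open Pool.Agent.H721R2 Pool.Agent.H779R2.An Filter Topology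
open scoped BigOperators

/-- The model of the unstable spaces. -/
abbrev VV (p : ℕ) : Type := EuclideanSpace ℝ (Fin p)

/-- `A` is a similarity: it multiplies all norms by `‖A‖`. -/
def Sim {p : ℕ} (A : VV p →L[ℝ] VV p) : Prop := ∀ u, ‖A u‖ = ‖A‖ * ‖u‖

/-- The adjoint. -/
noncomputable def adj {p : ℕ} (A : VV p →L[ℝ] VV p) : VV p →L[ℝ] VV p :=
  ContinuousLinearMap.adjoint A

/-- Denominator of the normalized Moebius map (squared norm of `1 - θ u`). -/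
noncomputable def dn {p : ℕ} (θ u : VV p) : ℝ := 1 - 2 * inner ℝ θ u + ‖θ‖ ^ 2 * ‖u‖ ^ 2

/-- The Moebius map of `ℝ^p` with `tm 0 = 0`, derivative `1` at `0`, which is the translation by
`-θ` in the coordinate `u / ‖u‖²`. -/
noncomputable def tm {p : ℕ} (θ u : VV p) : VV p := (dn θ u)⁻¹ • (u - ‖u‖ ^ 2 • θ)

/-- Normalized Moebius map fixing `0`, with derivative `η` at `0`. -/
noncomputable def mobV {p : ℕ} (η : VV p →L[ℝ] VV p) (θ u : VV p) : VV p := η (tm θ u)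

/-- The inversion; `io θ` is the pole of `tm θ`. -/
noncomputable def io {p : ℕ} (θ : VV p) : VV p := (‖θ‖ ^ 2)⁻¹ • θ

variable {X E : Type*} [MetricSpace X] [NormedAddCommGroup E] [NormedSpace ℝ E]

/-- An invariant continuous conformal structure on the unstable bundle: inner products `B x` on
`S.Vu x`, multiplied by a scalar by the dynamics. -/
structure CB0 (S : HypSys X E) where
  B : X → E →ₗ[ℝ] E →ₗ[ℝ] ℝ
  symm : ∀ x, ∀ v ∈ S.Vu x, ∀ w ∈ S.Vu x, B x v w = B x w v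
  pos : ∀ x, ∀ v ∈ S.Vu x, v ≠ 0 → 0 < B x v v
  φ : X → ℝ
  conf : ∀ x, ∀ v ∈ S.Vu x, B (S.g x) (S.D x v) (S.D x v) = φ x * B x v v
  cont : ∀ η > 0, ∃ r > 0, ∀ x y, dist x y < r → ∀ v ∈ S.Vu x, ∀ w ∈ S.Vu y,
    ‖v - w‖ ≤ r * ‖v‖ → |B x v v - B y w w| ≤ η * ‖v‖ ^ 2

/-- `τ` and `H` are conformal for `B`. -/
def ConfProp {S : HypSys X E} (F : Flat S) (B₀ : CB0 S) : Prop :=
  (∀ x y, UAsym S x y → ∃ s : ℝ, 0 < s ∧ ∀ v ∈ S.Vu x,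
      B₀.B y (F.τ x y v) (F.τ x y v) = s * B₀.B x v v) ∧
  (∀ x y, SAsym S x y → ∃ s : ℝ, 0 < s ∧ ∀ v ∈ S.Vu x,
      B₀.B y (F.H x y v) (F.H x y v) = s * B₀.B x v v)

/-- Continuity of the derivative of the stable holonomy. -/
def CCProp {S : HypSys X E} (F : Flat S) : Prop :=
  ∃ ε > 0, ∀ w w', S.SRel ε w w' → ∀ η > 0, ∃ ρ > 0, ∀ q q', S.URel ε w q → ‖F.Lc w q‖ ≤ ρ →
    S.SRel ε q q' → S.URel ε w' q' → ∀ v ∈ S.Vu w,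
    ‖F.τ q' w' (F.H q q' (F.τ w q v)) - F.H w w' v‖ ≤ η * ‖v‖

/-- Conformal linearization data along an unstable bundle of rank `p` with an invariant conformal
structure: all maps between unstable spaces become linear similarities of `VV p`. -/
structure CV (S : HypSys X E) (p : ℕ) where
  hp : 3 ≤ p
  ε₀ : ℝ
  geo : Geo S ε₀
  M : ℝ
  one_le_M : 1 ≤ M
  lam : X → VV p →L[ℝ] VV p
  lam_sim : ∀ x, Sim (lam x)
  lam_ge : ∀ x, 16 ≤ ‖lam x‖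
  lam_le : ∀ x, ‖lam x‖ ≤ M
  lc : X → X → VV p
  tau : X → X → VV p →L[ℝ] VV p
  tau_sim : ∀ x y, Sim (tau x y)
  eta : X → X → VV p →L[ℝ] VV p
  eta_sim : ∀ x y, Sim (eta x y)
  lc_equi : ∀ x y, UAsym S x y → lc (S.g x) (S.g y) = lam x (lc x y)
  lc_self : ∀ x, lc x x = 0
  lc_le : ∀ x y, S.URel ε₀ x y → ‖lc x y‖ ≤ M * dist x y
  dist_le : ∀ x y, S.URel ε₀ x y → dist x y ≤ M * ‖lc x y‖
  inj : ∀ x y z, UAsym S x y → UAsym S x z → lc x y = lc x z → y = z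
  surj : ∀ ε > 0, ∃ ρ > 0, ∀ x, ∀ u : VV p, ‖u‖ ≤ ρ → ∃ y, S.URel ε x y ∧ lc x y = u
  small : ∀ ε > 0, ∃ ρ > 0, ∀ x y, UAsym S x y → ‖lc x y‖ ≤ ρ → S.URel ε x y
  tau_self : ∀ x, tau x x = 1
  tau_comp : ∀ x y z, UAsym S x y → UAsym S y z → tau y z * tau x y = tau x z
  tau_equi : ∀ x y, UAsym S x y → tau (S.g x) (S.g y) * lam x = lam y * tau x y
  tau_le : ∀ x y, S.URel ε₀ x y → ‖tau x y‖ ≤ M
  base : ∀ x y z, UAsym S x y → UAsym S x z → lc y z = tau x y (lc x z - lc x y)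
  eta_self : ∀ x, eta x x = 1
  eta_comp : ∀ x y z, SAsym S x y → SAsym S y z → eta y z * eta x y = eta x z
  eta_equi : ∀ x y, SAsym S x y → eta (S.g x) (S.g y) * lam x = lam y * eta x y
  eta_le : ∀ x y, S.SRel ε₀ x y → ‖eta x y‖ ≤ M
  cd : ∀ w w', S.SRel ε₀ w w' → ∀ η > 0, ∃ ρ > 0, ∀ q q', S.URel ε₀ w q → ‖lc w q‖ ≤ ρ →
    S.SRel ε₀ q q' → S.URel ε₀ w' q' → ‖lc w' q' - eta w w' (lc w q)‖ ≤ η * ‖lc w q‖
  cc : ∀ w w', S.SRel ε₀ w w' → ∀ η > 0, ∃ ρ > 0, ∀ q q', S.URel ε₀ w q → ‖lc w q‖ ≤ ρ →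
    S.SRel ε₀ q q' → S.URel ε₀ w' q' → ‖tau q' w' * eta q q' * tau w q - eta w w'‖ ≤ η

variable {S : HypSys X E} {p : ℕ}

/-- Multiplier of `g^n` at `x`. -/
noncomputable def CV.Lp (c : CV S p) : ℕ → X → (VV p →L[ℝ] VV p)
  | 0, _ => 1
  | n + 1, x => c.lam (S.g^[n] x) * c.Lp n x

/-- The size at time `-k` of a unit disc at `y` (inverse of the multiplier of `g^k` at `g^{-k} y`). -/
noncomputable def CV.cw (c : CV S p) (k : ℕ) (y : X) : ℝ := ‖c.Lp k (S.g.symm^[k] y)‖⁻¹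

/-- Conformality of the local stable holonomy. -/
def HolV (c : CV S p) : Prop :=
  ∃ ρ₀ > 0, ∃ ε > 0, ε ≤ c.ε₀ ∧ ∃ h : X → X → VV p → VV p, ∀ z z', S.SRel ε z z' →
    ContDiffOn ℝ 1 (h z z') (Metric.ball 0 ρ₀) ∧ Set.InjOn (h z z') (Metric.ball 0 ρ₀) ∧
    (∀ u ∈ Metric.ball (0 : VV p) ρ₀, ∃ s > 0, ∀ v, ‖fderiv ℝ (h z z') u v‖ = s * ‖v‖) ∧
    h z z' 0 = 0 ∧ fderiv ℝ (h z z') 0 = c.eta z z' ∧
    ∀ q q', S.URel ε z q → S.SRel ε q q' → S.URel ε z' q' →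
      ‖c.lc z q‖ < ρ₀ ∧ c.lc z' q' = h z z' (c.lc z q)

/-- The local stable holonomy is Moebius. -/
def MobLoc (c : CV S p) : Prop :=
  ∃ ε > 0, ε ≤ c.ε₀ ∧ ∃ A > 0, ∃ thl : X → X → VV p, (∀ z z', S.SRel ε z z' → ‖thl z z'‖ ≤ A) ∧
    ∀ z z' q q', S.SRel ε z z' → S.URel ε z q → S.SRel ε q q' → S.URel ε z' q' →
      ‖thl z z'‖ * ‖c.lc z q‖ ≤ 1 / 2 ∧ c.lc z' q' = mobV (c.eta z z') (thl z z') (c.lc z q)

/-- The nonlinearity cocycle of the stable holonomy (which is locally exactly Moebius). -/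
structure TH (c : CV S p) where
  ε : ℝ
  ε_pos : 0 < ε
  ε_le : ε ≤ c.ε₀
  C : ℝ
  C_pos : 0 < C
  th : X → X → VV p
  th_self : ∀ x, th x x = 0
  th_equi : ∀ x y, SAsym S x y → adj (c.lam x) (th (S.g x) (S.g y)) = th x y
  th_comp : ∀ x y z, SAsym S x y → SAsym S y z → th x z = th x y + adj (c.eta x y) (th y z)
  th_le : ∀ x y, S.SRel ε x y → ‖th x y‖ ≤ C
  half : ∀ z z' q, S.SRel ε z z' → S.URel ε z q → ‖th z z'‖ * ‖c.lc z q‖ ≤ 1 / 2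
  mob : ∀ z z' q q', S.SRel ε z z' → S.URel ε z q → S.SRel ε q q' → S.URel ε z' q' →
    c.lc z' q' = mobV (c.eta z z') (th z z') (c.lc z q)

/-- Size of the cocycle at level `k`. -/
def LevProp {c : CV S p} (T : TH c) : Prop :=
  ∃ C > 0, ∃ ε > 0, ε ≤ T.ε ∧ ∀ (k : ℕ) (y y' : X),
    S.SRel ε (S.g.symm^[k] y) (S.g.symm^[k] y') → ‖T.th y y'‖ ≤ C * c.cw k y

/-- Tracking a point of `R` in the unstable leaf of a moving point, as long as there is no pole. -/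
def TrackProp {c : CV S p} (T : TH c) (R : Set X) : Prop :=
  ∃ ε > 0, ε ≤ T.ε ∧ ∀ (v : X) (γ : ℝ → X), ContinuousOn γ (Set.Icc 0 1) → γ 0 = v →
    (∀ t ∈ Set.Icc (0 : ℝ) 1, S.SRel ε v (γ t)) → ∀ x ∈ R, UAsym S v x →
    (∀ t ∈ Set.Icc (0 : ℝ) 1, dn (T.th v (γ t)) (c.lc v x) ≠ 0) →
    ∃ x' ∈ R, UAsym S (γ 1) x' ∧
      c.lc (γ 1) x' = mobV (c.eta v (γ 1)) (T.th v (γ 1)) (c.lc v x)

/-- Points of `R` are not isolated in the trace of `R` on their unstable leaf. -/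
def NonIsoProp (c : CV S p) (R : Set X) : Prop :=
  ∀ x ∈ R, ∀ δ > 0, ∃ x' ∈ R, x' ≠ x ∧ UAsym S x x' ∧ ‖c.lc x x'‖ < δ

/-- There are `n` points of `R` in the unstable leaf of `z`, at (linearized) distance `≤ ρ` from
`z` and mutual distances `≥ r`. -/
def SepN (c : CV S p) (R : Set X) (z : X) (ρ r : ℝ) (n : ℕ) : Prop :=
  ∃ Z : Finset X, Z.card = n ∧ (∀ x ∈ Z, x ∈ R ∧ UAsym S z x ∧ ‖c.lc z x‖ ≤ ρ) ∧
    ∀ x ∈ Z, ∀ x' ∈ Z, x ≠ x' → r ≤ ‖c.lc z x - c.lc z x'‖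

/-- Largest number of `r`-separated points of `R` in an unstable disc of radius `1` centred on
`R`. -/
noncomputable def Sf (c : CV S p) (R : Set X) (r : ℝ) : ℕ := sSup {n | ∃ z ∈ R, SepN c R z 1 r n}

/-- Local transport of separated sets of `R`. -/
def TransProp (c : CV S p) (R : Set X) : Prop :=
  ∃ ε > 0, ∃ δ₁ > 0, ∃ C : ℝ, 1 ≤ C ∧ ∀ x ∈ R, ∀ y ∈ R, dist x y ≤ ε → ∀ δ, 0 < δ → δ ≤ δ₁ →
    ∀ r, 0 < r → ∀ n, SepN c R x δ r n → SepN c R y (C * (δ + dist x y)) (r / C) n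

/-- Upper regularity of the counting function. -/
def UpperB (c : CV S p) (R : Set X) : Prop :=
  (∀ r, 0 < r → BddAbove {n | ∃ z ∈ R, SepN c R z 1 r n}) ∧
  (∀ a, 0 < a → a ≤ 1 → ∃ C : ℝ, 0 < C ∧ ∀ r, 0 < r → (Sf c R (a * r) : ℝ) ≤ C * Sf c R r) ∧
  ∀ ρ, 0 < ρ → ∃ C : ℝ, 0 < C ∧ ∀ z ∈ R, ∀ r, 0 < r → ∀ n, SepN c R z ρ r n →
    (n : ℝ) ≤ C * Sf c R r

/-- Lower regularity of the counting function. -/
def LowerA (c : CV S p) (R : Set X) : Prop :=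
  ∀ ρ, 0 < ρ → ∃ C : ℝ, 0 < C ∧ ∀ z ∈ R, ∀ r, 0 < r → r ≤ 1 →
    ∃ n, SepN c R z ρ r n ∧ (Sf c R r : ℝ) ≤ C * n

/-- Packing estimate. -/
def UpBound (c : CV S p) (R : Set X) : Prop :=
  ∃ κ₀ > 0, ∀ κ, 0 < κ → κ ≤ κ₀ → ∀ A₀ : ℝ, ∃ C : ℝ, 0 < C ∧ ∀ (k : ℕ) (Y : Finset X) (r : ℝ),
    0 < r → (∀ y ∈ Y, ∃ x ∈ R, UAsym S y x ∧ ‖c.lc y x‖ ≤ A₀) →
    (∀ y ∈ Y, ∀ y' ∈ Y, S.SRel κ y y') →
    (∀ y ∈ Y, ∀ y' ∈ Y, y ≠ y' → ¬ S.SRel κ (S.g.symm^[k] y) (S.g.symm^[k] y')) →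
    (∀ y ∈ Y, r ≤ c.cw k y) → ∑ y ∈ Y, (Sf c R (r / c.cw k y) : ℝ) ≤ C * Sf c R r

/-- Covering estimate. -/
def DownBound (c : CV S p) (R : Set X) : Prop :=
  ∀ v, ∀ x₀ ∈ R, UAsym S v x₀ → ∀ δ₀ > 0, ∀ C₁ > 0, ∃ C : ℝ, 0 < C ∧
    ∀ (r : ℝ) (ι : Type) (Y : Finset ι) (ζ : ι → VV p) (ω : ι → ℝ), 0 < r →
    (∀ y ∈ Y, r ≤ ω y ∧ ω y ≤ 1) →
    (∀ x ∈ R, UAsym S v x → ‖c.lc v x - c.lc v x₀‖ ≤ δ₀ → ∃ y ∈ Y, ‖c.lc v x - ζ y‖ ≤ C₁ * ω y) →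
    (Sf c R r : ℝ) ≤ C * ∑ y ∈ Y, (Sf c R (r / ω y) : ℝ)

/-- The conclusion of the counting argument: no point of a small plaque is a first obstruction. -/
def NoFirstProp (S : HypSys X E) (R : Set X) (d : ℕ) : Prop :=
  ∃ ρ₀ > 0, ∀ (v : X) (ρ ρ₁ : ℝ) (ψ : EuclideanSpace ℝ (Fin d) → X), ρ ≤ ρ₀ →
      IsChart S v ρ ρ₁ ψ → ∀ w : EuclideanSpace ℝ (Fin d), ‖w‖ < ρ₁ →
      (∀ a, ‖a‖ < ‖w‖ → ∃ x ∈ R, UAsym S (ψ a) x) → (∃ x ∈ R, UAsym S v x) →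
      ∃ x ∈ R, UAsym S (ψ w) x

end Pool.Agent.H147R2.Vec
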