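import Pool.Agent.H147R2.CV.ManDef
import Pool.Agent.H779R2.An.CJ0M

set_option autoImplicit false
set_option linter.unusedSectionVars false

open scoped Manifold ContDiff Topology Bundle
open Set Filter Bundle

namespace Pool.Agent.H147R2.Vec

open Pool.Agent.H721R2 Pool.Agent.H779R2.An

variable {E₀ : Type*} [NormedAddCommGroup E₀] [NormedSpace ℝ E₀] [FiniteDimensional ℝ E₀]
  {M : Type*} [MetricSpace M] [CompactSpace M] [ChartedSpace E₀ M] [IsManifold 𝓘(ℝ, E₀) ∞ M]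
  {F : Type*} [NormedAddCommGroup F] [NormedSpace ℝ F]

theorem invConformalOn_symm {e : M → F} {f : M ≃ₜ M} {Es Eu : M → Submodule ℝ E₀}
    {C a b Ls Lu : ℝ} (h : EAnosov e f Es Eu C a b Ls Lu)
    {B : ∀ x : M, TangentSpace 𝓘(ℝ, E₀) x →ₗ[ℝ] TangentSpace 𝓘(ℝ, E₀) x →ₗ[ℝ] ℝ}
    (hB : InvConformalOn f Es B) : InvConformalOn f.symm Es B := by
  refine ⟨hB.continuousOn, hB.symm, hB.pos, ?_⟩
  obtain ⟨φ, hφ⟩ := hB.conf
  refine ⟨fun x => (φ (f.symm x))⁻¹, ?_⟩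
  have key : ∀ (B₀ : M → E₀ →ₗ[ℝ] E₀ →ₗ[ℝ] ℝ),
      (∀ x, ∀ v ∈ Es x, v ≠ 0 → 0 < B₀ x v v) →
      (∀ x, ∀ v ∈ Es x, B₀ (f x) (dg E₀ f x v) (dg E₀ f x v) = φ x * B₀ x v v) →
      ∀ x, ∀ v ∈ Es x, B₀ (f.symm x) (dg E₀ f.symm x v) (dg E₀ f.symm x v) =
        (φ (f.symm x))⁻¹ * B₀ x v v := by
    intro B₀ hpos hc x v hv
    have h1 : dg E₀ f (f.symm x) (dg E₀ f.symm x v) = v :=
      dg_inv f.symm f h.smooth' h.smooth (fun x => f.apply_symm_apply x) x v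
    have h3 := hc (f.symm x) (dg E₀ f.symm x v) (h.mapS' 1 x v hv)
    rw [h1, f.apply_symm_apply] at h3
    by_cases hv0 : v = 0
    · subst hv0
      have h4 : dg E₀ f.symm x (0 : E₀) = (0 : E₀) := map_zero (dg E₀ f.symm x)
      rw [h4]
      have h5 : B₀ (f.symm x) (0 : E₀) = 0 := map_zero (B₀ (f.symm x))
      have h6 : B₀ x (0 : E₀) = 0 := map_zero (B₀ x)
      rw [h5, h6]
      simp
    · have hp := hpos x v hv hv0
      rw [h3]
      have hne : φ (f.symm x) ≠ 0 := by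
        intro h0
        rw [h3, h0, zero_mul] at hp
        exact lt_irrefl _ hp
      rw [← mul_assoc, inv_mul_cancel₀ hne, one_mul]
  exact key B (fun x v hv h0 => hB.pos x v hv h0) (fun x v hv => hφ x v hv)

end Pool.Agent.H147R2.Vec
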