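import Pool.Agent.H147R2.CV.Assembly
import Pool.Agent.H147R2.CV.Man1
import Pool.Agent.H147R2.CV.Man2
import Pool.Agent.H779R2.An.MainC

set_option autoImplicit false
set_option linter.unusedSectionVars false

open scoped Manifold ContDiff Topology Bundle
open Set Filter Bundle

namespace Pool.Agent.H147R2.Vec

open Pool.Agent.H721R2 Pool.Agent.H789R2.AN Pool.Agent.H779R2.An

/-- Real conformal case: one of the two bundles has rank at least three and carries a continuous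
inner product for which `Df` is conformal, the other one has rank at least two. -/
theorem main_resultV (E : Type*) [NormedAddCommGroup E] [NormedSpace ℝ E] [FiniteDimensional ℝ E]
    (M : Type*) [TopologicalSpace M] [T2Space M] [CompactSpace M] [ConnectedSpace M]
    [ChartedSpace E M] [IsManifold 𝓘(ℝ, E) ∞ M] (f : Diffeomorph 𝓘(ℝ, E) 𝓘(ℝ, E) M M 1)
    (hf2 : ContMDiff 𝓘(ℝ, E) 𝓘(ℝ, E) 2 f) (hf2' : ContMDiff 𝓘(ℝ, E) 𝓘(ℝ, E) 2 f.symm)
    (Es Eu : ∀ x : M, Submodule ℝ (TangentSpace 𝓘(ℝ, E) x)) (hA : IsAnosov f Es Eu)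
    (ds du : ℕ) (hds : ∀ x, Module.finrank ℝ (Es x) = ds)
    (hdu : ∀ x, Module.finrank ℝ (Eu x) = du)
    (hB : (3 ≤ du ∧ 2 ≤ ds ∧ ∃ B, InvConformalOn f Eu B) ∨
      (3 ≤ ds ∧ 2 ≤ du ∧ ∃ B, InvConformalOn f Es B)) :
    TopTransitive f := by
  obtain ⟨m, e, he, hemb, hinj⟩ := exists_embedding_euclidean_of_compact (I := 𝓘(ℝ, E)) (M := M)
  let _ : MetricSpace M := hemb.isEmbedding.comapMetricSpace e
  have hiso : ∀ x y : M, dist x y = ‖e x - e y‖ := fun x y => dist_eq_norm (e x) (e y)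
  have he1 : ContMDiff 𝓘(ℝ, E) (𝓡 m) 1 e := he.of_le (by simp)
  have he2 : ContMDiff 𝓘(ℝ, E) (𝓡 m) 2 e := he.of_le (by
    exact_mod_cast (ENat.LEInfty.out : (2 : WithTop ℕ∞) ≤ ∞))
  obtain ⟨C', a, b, Ls, Lu, hE⟩ := eanosov_of_isAnosov e he1 hinj f Es Eu hA
  obtain ⟨K, hK, hang⟩ := hE.angle he1 hinj
  have t1 : Tendsto (fun n : ℕ => K * (C' * a ^ n)) atTop (𝓝 0) := by
    have := ((tendsto_pow_atTop_nhds_zero_of_lt_one hE.a_pos.le hE.a_lt).const_mul C').const_mul K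
    simpa using this
  have t2 : Tendsto (fun n : ℕ => K * (C' * b ^ n)) atTop (𝓝 0) := by
    have := ((tendsto_pow_atTop_nhds_zero_of_lt_one hE.b_pos.le hE.b_lt).const_mul C').const_mul K
    simpa using this
  obtain ⟨n, hn1, hn2⟩ := (((tendsto_order.mp t1).2 (1 / 16) (by norm_num)).and
    ((tendsto_order.mp t2).2 (1 / 16) (by norm_num))).exists
  obtain ⟨S, hS⟩ := exists_realizes hiso he1 hinj hE K hK hang n hn1.le hn2.le
  obtain ⟨Q, r, hQ⟩ := quad_of_realizes hiso he2 hinj hE hf2 hf2' hS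
  have hfin : ∀ (x : M) (V : Submodule ℝ E),
      Module.finrank ℝ (V.map (dm E e x).toLinearMap) = Module.finrank ℝ V := fun x V =>
    (LinearEquiv.finrank_eq (Submodule.equivMapOfInjective (dm E e x).toLinearMap (hinj x) V)).symm
  have hfs : ∀ x, Module.finrank ℝ (S.Vs x) = ds := fun x => by
    rw [hS.Vs_eq, hfin]; exact hds x
  have hfu : ∀ x, Module.finrank ℝ (S.Vu x) = du := fun x => by
    rw [hS.Vu_eq, hfin]; exact hdu x
  have hgn : ∀ (k : ℕ) (x : M), (S.g^[k]) x = f^[n * k] x := by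
    intro k x
    rw [hS.g_eq, Function.iterate_mul]
    rfl
  intro U V hU hUn hV hVn
  rcases hB with ⟨h2, hle, B, hB⟩ | ⟨h2, hle, B, hB⟩
  · obtain ⟨B₀⟩ := cb0_of_realizes hiso he1 hinj hE B hB hS
    obtain ⟨k, hk⟩ := abstract_main3 S hQ B₀ h2 ds hle hfu hfs U V hU hUn hV hVn
    refine ⟨n * k, ?_⟩
    have : (S.g^[k]) = (f^[n * k]) := funext (hgn k)
    rwa [this] at hk
  · obtain ⟨B₀⟩ := cb0_of_realizes hiso he1 hinj hE.symm B (invConformalOn_symm hE hB) hS.symm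
    obtain ⟨k, hk⟩ := abstract_main3 S.symm hQ.symm B₀ h2 du hle
      hfs hfu V U hV hVn hU hUn
    refine ⟨n * k, ?_⟩
    obtain ⟨y, ⟨x, hx, hxy⟩, hy⟩ := hk
    refine ⟨x, ⟨y, hy, ?_⟩, hx⟩
    rw [← hgn, ← hxy]
    exact iter_iter_symm S k x

end Pool.Agent.H147R2.Vec
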