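import Pool.Agent.H779R2.An.DefsB

set_option autoImplicit false
set_option linter.unusedSectionVars false

open scoped Manifold ContDiff Topology Bundle
open Set Filter Bundle

namespace Pool.Agent.H147R2.Vec

variable {E : Type*} [NormedAddCommGroup E] [NormedSpace ℝ E]
  {M : Type*} [TopologicalSpace M] [ChartedSpace E M]

/-- `B` is a continuous field of inner products on the invariant field of subspaces `V`, and `Df`
is conformal for it: `B (Df v, Df v) = φ(x) B (v, v)` for `v ∈ V x` and some scalar function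
`φ`. -/
structure InvConformalOn [IsManifold 𝓘(ℝ, E) 1 M] (f : M → M)
    (V : ∀ x : M, Submodule ℝ (TangentSpace 𝓘(ℝ, E) x))
    (B : ∀ x : M, TangentSpace 𝓘(ℝ, E) x →ₗ[ℝ] TangentSpace 𝓘(ℝ, E) x →ₗ[ℝ] ℝ) : Prop where
  continuousOn : ContinuousOn (fun q : TangentBundle 𝓘(ℝ, E) M => B q.1 q.2 q.2)
    {q | q.2 ∈ V q.1}
  symm : ∀ x, ∀ v ∈ V x, ∀ w ∈ V x, B x v w = B x w v
  pos : ∀ x, ∀ v ∈ V x, v ≠ 0 → 0 < B x v v
  conf : ∃ φ : M → ℝ, ∀ x, ∀ v ∈ V x,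
    B (f x) (mfderiv 𝓘(ℝ, E) 𝓘(ℝ, E) f x v) (mfderiv 𝓘(ℝ, E) 𝓘(ℝ, E) f x v) = φ x * B x v v

end Pool.Agent.H147R2.Vec
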