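import Pool.Agent.H147R2.CV.Defs
import Pool.Agent.H147R2.CV.AuxL
import Pool.Agent.H147R2.CV.Count

set_option autoImplicit false

namespace Pool.Agent.H147R2.Vec

open Pool.Agent.H721R2 Pool.Agent.H779R2.An Filter Topology MeasureTheory
open scoped BigOperators

variable {X E : Type*} [MetricSpace X] [CompactSpace X] [NormedAddCommGroup E]
  [InnerProductSpace ℝ E] [FiniteDimensional ℝ E] {p : ℕ}

/-- A maximal separated subset of a finite set. -/
private theorem exists_net {α : Type*} [DecidableEq α] (Z : Finset α) (f : α → VV p) (s : ℝ) :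
    ∃ T ⊆ Z, (∀ x ∈ T, ∀ y ∈ T, x ≠ y → s ≤ ‖f x - f y‖) ∧
      ∀ x ∈ Z, ∃ y ∈ T, x = y ∨ ‖f x - f y‖ < s := by
  classical
  let P : Finset α → Prop := fun T => ∀ x ∈ T, ∀ y ∈ T, x ≠ y → s ≤ ‖f x - f y‖
  obtain ⟨T, hT, hmax⟩ := Finset.exists_max_image (Z.powerset.filter P) Finset.card
    ⟨∅, by simp [P]⟩
  rw [Finset.mem_filter, Finset.mem_powerset] at hT
  obtain ⟨hTZ, hTP⟩ := hT
  refine ⟨T, hTZ, hTP, fun x hx => ?_⟩
  by_contra hcon
  push Not at hcon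
  have hxT : x ∉ T := fun h => (hcon x h).1 rfl
  have hins : insert x T ∈ Z.powerset.filter P := by
    rw [Finset.mem_filter, Finset.mem_powerset]
    refine ⟨Finset.insert_subset hx hTZ, ?_⟩
    intro u hu v hv huv
    rw [Finset.mem_insert] at hu hv
    rcases hu with rfl | hu
    · rcases hv with rfl | hv
      · exact absurd rfl huv
      · exact (hcon v hv).2
    · rcases hv with rfl | hv
      · rw [norm_sub_rev]
        exact (hcon u hu).2
      · exact hTP u hu v hv huv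
  have h := hmax _ hins
  rw [Finset.card_insert_of_notMem hxT] at h
  omega

/-- K16 -/
theorem upperB {S : HypSys X E} (c : CV S p) {R : Set X} (hR : MinR S R) : UpperB c R := by
  classical
  have hbdd : ∀ r, 0 < r → BddAbove {n | ∃ z ∈ R, SepN c R z 1 r n} := by
    intro r hr
    refine ⟨⌈(2 * 1 / r + 1) ^ p⌉₊, ?_⟩
    rintro n ⟨z, _, hn⟩
    have h := sepN_card_le c R z 1 r zero_le_one hr n hn
    exact_mod_cast h.trans (Nat.le_ceil _)
  have hmem : ∀ r, 0 < r → ∃ z ∈ R, SepN c R z 1 r (Sf c R r) := by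
    intro r hr
    obtain ⟨z, hz⟩ := hR.nonempty
    have hne : {n | ∃ z ∈ R, SepN c R z 1 r n}.Nonempty :=
      ⟨0, z, hz, ∅, by simp, by simp, by simp⟩
    exact Nat.sSup_mem hne (hbdd r hr)
  have hle : ∀ r, 0 < r → ∀ z ∈ R, ∀ n, SepN c R z 1 r n → n ≤ Sf c R r := by
    intro r hr z hz n hn
    exact le_csSup (hbdd r hr) ⟨z, hz, hn⟩
  have hdoub : ∀ a, 0 < a → a ≤ 1 → ∃ C : ℝ, 0 < C ∧
      ∀ r, 0 < r → (Sf c R (a * r) : ℝ) ≤ C * Sf c R r := by
    intro a ha ha1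
    refine ⟨(2 / a + 1) ^ p, by positivity, fun r hr => ?_⟩
    obtain ⟨z, hz, hn⟩ := hmem (a * r) (by positivity)
    obtain ⟨m, hm, hle'⟩ := sepN_thin c R z 1 r a hr ha ha1 _ hn
    refine hle'.trans ?_
    gcongr
    exact hle r hr z hz m hm
  refine ⟨hbdd, hdoub, ?_⟩
  intro ρ hρ
  obtain ⟨Cτ, hCτ1, hCτ⟩ := tau_bound c (ρ + 1)
  have hCτ0 : 0 < Cτ := by linarith
  obtain ⟨C₂, hC₂, hC₂'⟩ := hdoub (1 / Cτ) (by positivity) (by
    rw [div_le_one hCτ0]; exact hCτ1)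
  refine ⟨(2 * ρ / (1 / Cτ) + 1) ^ p * C₂, by positivity, ?_⟩
  rintro z hz r hr n ⟨Z, hcard, hZ, hsep⟩
  obtain ⟨T, hTZ, hTsep, hTcov⟩ := exists_net Z (fun x => c.lc z x) (1 / Cτ)
  have hTcard : (T.card : ℝ) ≤ (2 * ρ / (1 / Cτ) + 1) ^ p :=
    sepN_card_le c R z ρ (1 / Cτ) hρ.le (by positivity) T.card
      ⟨T, rfl, fun x hx => hZ x (hTZ hx), hTsep⟩
  -- the clusters
  have hcl : ∀ t ∈ T, ((Z.filter (fun x => x = t ∨ ‖c.lc z x - c.lc z t‖ < 1 / Cτ)).card : ℝ)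
      ≤ C₂ * Sf c R r := by
    intro t ht
    obtain ⟨htR, htU, htρ⟩ := hZ t (hTZ ht)
    obtain ⟨hτ1, hτ2⟩ := hCτ z t htU (by linarith)
    have hτpos : 0 < ‖c.tau z t‖ := by
      by_contra hneg
      have : ‖c.tau z t‖ = 0 := le_antisymm (not_lt.mp hneg) (norm_nonneg _)
      rw [this] at hτ2
      linarith
    have hS : SepN c R t 1 (1 / Cτ * r)
        (Z.filter (fun x => x = t ∨ ‖c.lc z x - c.lc z t‖ < 1 / Cτ)).card := by
      refine ⟨_, rfl, ?_, ?_⟩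
      · intro x hx
        rw [Finset.mem_filter] at hx
        obtain ⟨hxZ, hxt⟩ := hx
        obtain ⟨hxR, hxU, hxρ⟩ := hZ x hxZ
        refine ⟨hxR, (UAsym.symm htU).trans hxU, ?_⟩
        rw [c.norm_base htU hxU]
        have h1 : ‖c.lc z x - c.lc z t‖ ≤ 1 / Cτ := by
          rcases hxt with rfl | h
          · simp only [sub_self, norm_zero]; positivity
          · exact h.le
        calc ‖c.tau z t‖ * ‖c.lc z x - c.lc z t‖ ≤ Cτ * (1 / Cτ) := by gcongr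
          _ = 1 := by field_simp
      · intro x hx y hy hxy
        rw [Finset.mem_filter] at hx hy
        obtain ⟨_, hxU, _⟩ := hZ x hx.1
        obtain ⟨_, hyU, _⟩ := hZ y hy.1
        rw [c.base z t x htU hxU, c.base z t y htU hyU, ← map_sub, c.tau_sim z t,
          sub_sub_sub_cancel_right]
        have h1 := hsep x hx.1 y hy.1 hxy
        have h2 : 1 / Cτ ≤ ‖c.tau z t‖ := by
          rw [div_le_iff₀ hCτ0]; linarith
        gcongr
    have h3 := hle (1 / Cτ * r) (by positivity) t htR _ hS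
    calc ((Z.filter (fun x => x = t ∨ ‖c.lc z x - c.lc z t‖ < 1 / Cτ)).card : ℝ)
        ≤ (Sf c R (1 / Cτ * r) : ℝ) := by exact_mod_cast h3
      _ ≤ _ := hC₂' r hr
  have hcov : Z ⊆ T.biUnion
      (fun t => Z.filter (fun x => x = t ∨ ‖c.lc z x - c.lc z t‖ < 1 / Cτ)) := by
    intro x hx
    obtain ⟨t, ht, hxt⟩ := hTcov x hx
    rw [Finset.mem_biUnion]
    exact ⟨t, ht, by rw [Finset.mem_filter]; exact ⟨hx, hxt⟩⟩
  have h4 : (Z.card : ℝ) ≤ ∑ t ∈ T,
      ((Z.filter (fun x => x = t ∨ ‖c.lc z x - c.lc z t‖ < 1 / Cτ)).card : ℝ) := by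
    have h5 := (Finset.card_le_card hcov).trans Finset.card_biUnion_le
    exact_mod_cast h5
  have h6 : (∑ t ∈ T,
      ((Z.filter (fun x => x = t ∨ ‖c.lc z x - c.lc z t‖ < 1 / Cτ)).card : ℝ))
      ≤ T.card * (C₂ * Sf c R r) := by
    have := Finset.sum_le_sum hcl
    rwa [Finset.sum_const, nsmul_eq_mul] at this
  rw [← hcard]
  calc (Z.card : ℝ) ≤ T.card * (C₂ * Sf c R r) := h4.trans h6
    _ ≤ (2 * ρ / (1 / Cτ) + 1) ^ p * (C₂ * Sf c R r) := by gcongr
    _ = _ := by ring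

end Pool.Agent.H147R2.Vec
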